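import Pool.Agent.Lib.MP_d0f9e0_co.Ab.Rigid

/-!
# The common interface: algebraic entries over every field with a positive star operation
-/

set_option autoImplicit false

namespace Pool.Agent.SicAb

open Finset

/-- Over every algebraically closed field with positive definite star operation the entries of the
fiducial projectors are algebraic numbers. -/
def AlgAll (A : Type) [AddCommGroup A] [Fintype A] [DecidableEq A] : Prop :=
  ∀ (K : Type) [Field K] [CharZero K] [IsAlgClosed K] [StarRing K], PosStar K → ∀ (ι : Bz →+* K)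
    (x : A → K), IsSol ι (fun r => star (x r)) x → ∀ r s : A, IsAlgebraic ℚ (star (x r) * x s)

variable {A : Type} [AddCommGroup A] [Fintype A] [DecidableEq A]

/-- Inversion: the entries of the rank one matrix from the overlaps. -/
theorem entry_of_ov {R : Type*} [CommRing R] (ι : Bz →+* R) (y x : A → R) (r a : A) :
    ∑ χ : AddChar A ℂ, ι (ch χ (-r)) * (ι (sqz (ch χ a) * ch χ (-a)) * ov ι y x (a, χ)) =
      (Fintype.card A : R) * (y r * x (r + a)) := by
  have e1 : ∀ χ : AddChar A ℂ,
      ι (ch χ (-r)) * (ι (sqz (ch χ a) * ch χ (-a)) * ov ι y x (a, χ)) =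
        ∑ q, ι (ch χ (q - r)) * (y q * x (q + a)) := by
    intro χ
    have e2 : ι (sqz (ch χ a) * ch χ (-a)) * ι (sqz (ch χ a)) = 1 := by
      rw [← map_mul]
      have : sqz (ch χ a) * ch χ (-a) * sqz (ch χ a) = ch χ a * ch χ (-a) := by
        have := sqz_mul (ch χ a)
        linear_combination (ch χ (-a)) * this
      rw [this, ch_mul_neg, map_one]
    rw [ov_def, ← mul_assoc (ι (sqz (ch χ a) * ch χ (-a))), e2, one_mul, Finset.mul_sum]
    refine Finset.sum_congr rfl fun q _ => ?_
    rw [sub_eq_add_neg, ch_add, map_mul]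
    ring
  rw [Finset.sum_congr rfl fun χ _ => e1 χ, Finset.sum_comm]
  have e3 : ∀ q : A, ∑ χ : AddChar A ℂ, ι (ch χ (q - r)) * (y q * x (q + a)) =
      (if q = r then (Fintype.card A : R) else 0) * (y q * x (q + a)) := by
    intro q
    rw [← Finset.sum_mul, ← map_sum, sum_ch]
    by_cases h : q = r
    · rw [if_pos h, if_pos (sub_eq_zero.2 h), map_natCast]
    · rw [if_neg h, if_neg (fun h' => h (sub_eq_zero.1 h')), map_zero]
  rw [Finset.sum_congr rfl fun q _ => e3 q]
  simp only [ite_mul, zero_mul]
  rw [Finset.sum_ite_eq' Finset.univ r, if_pos (Finset.mem_univ r)]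

theorem IsSol.map {R S : Type*} [CommRing R] [CommRing S] {ι : Bz →+* R} {y x : A → R}
    (h : IsSol ι y x) (e : R →+* S) : IsSol (e.comp ι) (fun r => e (y r)) (fun r => e (x r)) := by
  constructor
  · rw [← map_ov, h.zero, map_one]
  · intro q
    rw [← map_ov, ← map_ov, ← map_eps e, ← h.mul q]
    simp only [map_mul, map_add, map_natCast, map_one]

theorem IsSol.of_map {R S : Type*} [CommRing R] [CommRing S] {ι : Bz →+* R} {y x : A → R}
    (e : R →+* S) (he : Function.Injective e)
    (h : IsSol (e.comp ι) (fun r => e (y r)) (fun r => e (x r))) : IsSol ι y x := by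
  constructor
  · apply he
    rw [map_ov, h.zero, map_one]
  · intro q
    apply he
    rw [map_eps, ← h.mul q, map_mul, map_add, map_natCast, map_one, map_mul, map_ov, map_ov]

/-- The images of the algebraic numbers are algebraic. -/
theorem isAlgebraic_map {K : Type*} [Field K] [CharZero K] (ι : Bz →+* K) (b : Bz) :
    IsAlgebraic ℚ (ι b) := by
  obtain ⟨p, hp0, hp⟩ := mem_algebraicClosure_iff.1 b.2
  refine ⟨p, hp0, ?_⟩
  have h1 : Polynomial.aeval b p = 0 := by
    have h2 := Polynomial.aeval_algHom_apply ((algebraMap Bz ℂ).toRatAlgHom) b p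
    have h3 : ((algebraMap Bz ℂ).toRatAlgHom) b = (b : ℂ) := rfl
    rw [h3, hp] at h2
    exact Subtype.ext h2.symm
  have h4 := Polynomial.aeval_algHom_apply ι.toRatAlgHom b p
  rw [h1, map_zero] at h4
  exact h4

/-- If all overlaps are algebraic then so are the entries. -/
theorem isAlgebraic_entry {K : Type*} [Field K] [CharZero K] (ι : Bz →+* K) (y x : A → K)
    (h : ∀ q : PS A, IsAlgebraic ℚ (ov ι y x q)) (r s : A) : IsAlgebraic ℚ (y r * x s) := by
  have e1 := entry_of_ov ι y x r (s - r)
  rw [add_sub_cancel] at e1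
  have h1 : IsAlgebraic ℚ ((Fintype.card A : K) * (y r * x s)) := by
    rw [← e1]
    refine mem_algebraicClosure_iff.1 (sum_mem fun χ _ => mem_algebraicClosure_iff.2 ?_)
    exact (isAlgebraic_map ι _).mul ((isAlgebraic_map ι _).mul (h _))
  have h2 : (Fintype.card A : K) ≠ 0 := by
    exact_mod_cast Fintype.card_ne_zero
  have h3 : y r * x s = ((Fintype.card A : K))⁻¹ * ((Fintype.card A : K) * (y r * x s)) := by
    field_simp
  rw [h3]
  refine IsAlgebraic.mul ?_ h1
  exact (isAlgebraic_natCast _).inv

end Pool.Agent.SicAb
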