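import Pool.Agent.Lib.MP_d0f9e0_co.Ab.Sys

/-!
# Counting: a coefficient system with one contributing pair per point gives a parabolic set
-/

namespace Pool.Agent.SicAb

open Finset

namespace Count

variable {A : Type} [AddCommGroup A] [Fintype A] [DecidableEq A]
variable {k : Type*} [Field k] [CharZero k] {ι : Bz →+* k} {M : ℕ} {m : PS A → ℕ}
    {c : PS A → k} {Y X : ℕ → A → k}

/-- The pair `p` contributes at `h`. -/
def Pr (ι : Bz →+* k) (m : PS A → ℕ) (Y X : ℕ → A → k) (h : PS A) (p : ℕ × ℕ) : Prop :=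
  p.1 + p.2 = m h ∧ ov ι (Y p.1) (X p.2) h ≠ 0

/-- The level function. -/
noncomputable def gl (ι : Bz →+* k) (M : ℕ) (Y X : ℕ → A → k) (a : ℕ) (h : PS A) : k :=
  ov ι (Y a) (X (M - a)) h

theorem np_ne : ((Fintype.card A : k) + 1) ≠ 0 := by
  exact_mod_cast Nat.succ_ne_zero (Fintype.card A)

theorem n_ne : (Fintype.card A : k) ≠ 0 := by
  exact_mod_cast (Fintype.card_pos (α := A)).ne'

theorem eps_ne (h : PS A) : eps A k h ≠ 0 := by
  unfold eps
  split_ifs
  · exact np_ne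
  · exact one_ne_zero

theorem cc_ne (hs : CSys ι M m c Y X) (h : PS A) : c h * c (-h) ≠ 0 := by
  intro h0
  have h1 := hs.c_mul h
  rw [h0, mul_zero] at h1
  exact eps_ne h h1.symm

theorem c_ne (hs : CSys ι M m c Y X) (h : PS A) : c h ≠ 0 :=
  left_ne_zero_of_mul (cc_ne hs h)

theorem pr_val (hm : Mono ι M m c Y X) {h : PS A} (hh : m h ≠ M) {p : ℕ × ℕ}
    (hp : Pr ι m Y X h p) : ov ι (Y p.1) (X p.2) h = c h ∧
      ∀ q : ℕ × ℕ, q.1 + q.2 = m h → q ≠ p → ov ι (Y q.1) (X q.2) h = 0 := by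
  obtain ⟨i, j, hij, hc, ho⟩ := hm h hh
  have h1 : p = (i, j) := by
    by_contra hne
    exact hp.2 (ho p.1 p.2 hp.1 hne)
  subst h1
  exact ⟨hc, fun q hq hne => ho q.1 q.2 hq hne⟩

theorem pr_exists (hs : CSys ι M m c Y X) (hm : Mono ι M m c Y X) {h : PS A} (hh : m h ≠ M) :
    ∃ p, Pr ι m Y X h p := by
  obtain ⟨i, j, hij, hc, -⟩ := hm h hh
  exact ⟨(i, j), hij, by rw [hc]; exact c_ne hs h⟩

theorem ne_zero_of_m (hs : CSys ι M m c Y X) {h : PS A} (hh : m h ≠ M) : h ≠ 0 := by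
  intro h0
  rw [h0] at hh
  exact hh hs.m_zero

theorem m_neg_ne (hs : CSys ι M m c Y X) {h : PS A} (hh : m h ≠ M) : m (-h) ≠ M := by
  have := hs.m_neg h
  omega

theorem m_neg_eq (hs : CSys ι M m c Y X) {h : PS A} (hh : m h = M) : m (-h) = M := by
  have := hs.m_neg h
  omega

open Classical in
theorem prod_val (hs : CSys ι M m c Y X) (hm : Mono ι M m c Y X) {i j i' j' : ℕ}
    (hsum : i + j + (i' + j') = 2 * M) (hne : i + j ≠ M) (h : PS A) :
    ((Fintype.card A : k) + 1) * (ov ι (Y i) (X j) h * ov ι (Y i') (X j') (-h)) =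
      if Pr ι m Y X h (i, j) ∧ Pr ι m Y X (-h) (i', j') then 1 else 0 := by
  have hmn := hs.m_neg h
  split_ifs with hP
  · obtain ⟨hP1, hP2⟩ := hP
    have hh : m h ≠ M := by rw [← hP1.1]; exact hne
    have e1 := (pr_val hm hh hP1).1
    have e2 := (pr_val hm (m_neg_ne hs hh) hP2).1
    simp only at e1 e2
    rw [e1, e2, hs.c_mul h]
    unfold eps
    rw [if_neg (ne_zero_of_m hs hh)]
  · rcases lt_trichotomy (i + j) (m h) with hlt | heq | hgt
    · rw [hs.low i j h hlt, zero_mul, mul_zero]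
    · by_cases h1 : ov ι (Y i) (X j) h = 0
      · rw [h1, zero_mul, mul_zero]
      · by_cases h2 : ov ι (Y i') (X j') (-h) = 0
        · rw [h2, mul_zero, mul_zero]
        · exact absurd ⟨⟨heq, h1⟩, ⟨by simp only; omega, h2⟩⟩ hP
    · rw [hs.low i' j' (-h) (by omega), mul_zero, mul_zero]

theorem levels (hs : CSys ι M m c Y X) (hm : Mono ι M m c Y X) {h : PS A} (hh : m h ≠ M)
    {i j i' j' : ℕ} (h1 : Pr ι m Y X h (i, j)) (h2 : Pr ι m Y X (-h) (i', j')) :
    i + j' = M ∧ i' + j = M := by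
  classical
  have hmn := hs.m_neg h
  have e1 : i + j = m h := h1.1
  have e2 : i' + j' = m (-h) := h2.1
  have hd := duality ι (Y i) (X j) (Y i') (X j') 0
  rw [G_zero_apply] at hd
  have hsum : ((Fintype.card A : k) + 1) * ∑ h, (ov ι (Y i) (X j) h * ov ι (Y i') (X j') (-h)) =
      ((Finset.univ.filter (fun h : PS A =>
        Pr ι m Y X h (i, j) ∧ Pr ι m Y X (-h) (i', j'))).card : k) := by
    rw [Finset.mul_sum, Finset.sum_congr rfl fun h _ =>
      prod_val hs hm (by omega) (by rw [e1]; exact hh) h, Finset.sum_boole]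
  have hpos : ((Finset.univ.filter (fun h : PS A =>
        Pr ι m Y X h (i, j) ∧ Pr ι m Y X (-h) (i', j'))).card : k) ≠ 0 := by
    rw [Nat.cast_ne_zero]
    exact (Finset.card_pos.mpr ⟨h, Finset.mem_filter.mpr ⟨Finset.mem_univ _, h1, h2⟩⟩).ne'
  rw [← hsum, hd] at hpos
  have h3 := right_ne_zero_of_mul (right_ne_zero_of_mul hpos)
  have h4 := left_ne_zero_of_mul h3
  have h5 := right_ne_zero_of_mul h3
  rw [neg_zero] at h5
  have h6 : ¬ (i + j' < m 0) := fun hl => h4 (hs.low _ _ _ hl)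
  have h7 : ¬ (i' + j < m 0) := fun hl => h5 (hs.low _ _ _ hl)
  rw [hs.m_zero] at h6 h7
  omega

/-- The reflected pair. -/
theorem pr_neg_pair (hs : CSys ι M m c Y X) (hm : Mono ι M m c Y X) {a b : ℕ} (ha : a ≤ M)
    (hb : b ≤ M) (hab : a ≠ b) {h : PS A} (h1 : Pr ι m Y X h (a, M - b)) :
    m h ≠ M ∧ Pr ι m Y X (-h) (b, M - a) := by
  have e1 : a + (M - b) = m h := h1.1
  have hh : m h ≠ M := by omega
  refine ⟨hh, ?_⟩
  obtain ⟨⟨i', j'⟩, h2⟩ := pr_exists hs hm (m_neg_ne hs hh)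
  obtain ⟨h3, h4⟩ := levels hs hm hh h1 h2
  have e2 : i' = b := by omega
  have e3 : j' = M - a := by omega
  rw [e2, e3] at h2
  exact h2

open Classical in
/-- The set of the points where the levels `a`, `b` meet. -/
noncomputable def TT (ι : Bz →+* k) (M : ℕ) (m : PS A → ℕ) (Y X : ℕ → A → k) (a b : ℕ) :
    Finset (PS A) :=
  Finset.univ.filter (fun h => Pr ι m Y X h (a, M - b))

theorem mem_TT {a b : ℕ} {h : PS A} :
    h ∈ TT ι M m Y X a b ↔ Pr ι m Y X h (a, M - b) := by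
  unfold TT
  simp

open Classical in
theorem dual_T (hs : CSys ι M m c Y X) (hm : Mono ι M m c Y X) {a b : ℕ} (ha : a ≤ M)
    (hb : b ≤ M) (hab : a ≠ b) (l : PS A) :
    ι (∑ h ∈ TT ι M m Y X a b, pr l h) =
      ((Fintype.card A : k) + 1) * ((Fintype.card A : k) * (gl ι M Y X a l * gl ι M Y X b (-l))) := by
  have hd := duality ι (Y a) (X (M - b)) (Y b) (X (M - a)) l
  unfold gl
  rw [← hd]
  unfold G
  rw [Finset.mul_sum, map_sum]
  unfold TT
  rw [Finset.sum_filter]
  apply Finset.sum_congr rfl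
  intro h _
  have e1 := prod_val hs hm (i := a) (j := M - b) (i' := b) (j' := M - a) (by omega) (by omega) h
  rw [mul_left_comm, e1]
  by_cases hP : Pr ι m Y X h (a, M - b)
  · rw [if_pos hP, if_pos ⟨hP, (pr_neg_pair hs hm ha hb hab hP).2⟩, mul_one]
  · rw [if_neg hP, if_neg (fun h0 => hP h0.1), mul_zero]

theorem card_T (hs : CSys ι M m c Y X) (hm : Mono ι M m c Y X) {a b : ℕ} (ha : a ≤ M)
    (hb : b ≤ M) (hab : a ≠ b) :
    ((TT ι M m Y X a b).card : k) =
      ((Fintype.card A : k) + 1) * ((Fintype.card A : k) * (gl ι M Y X a 0 * gl ι M Y X b 0)) := by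
  have h1 := dual_T hs hm ha hb hab 0
  rw [neg_zero] at h1
  rw [← h1, Finset.sum_congr rfl fun h _ => pr_zero_left h, Finset.sum_const, nsmul_eq_mul,
    mul_one, map_natCast]

theorem gl_ne_of_mem (hs : CSys ι M m c Y X) (hm : Mono ι M m c Y X) {a b : ℕ} (ha : a ≤ M)
    (hb : b ≤ M) (hab : a ≠ b) {h : PS A} (hT : h ∈ TT ι M m Y X a b) :
    gl ι M Y X a 0 ≠ 0 ∧ gl ι M Y X b 0 ≠ 0 := by
  have h1 : ((TT ι M m Y X a b).card : k) ≠ 0 := by
    rw [Nat.cast_ne_zero]
    exact (Finset.card_pos.mpr ⟨h, hT⟩).ne'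
  rw [card_T hs hm ha hb hab] at h1
  have h2 := right_ne_zero_of_mul (right_ne_zero_of_mul h1)
  exact ⟨left_ne_zero_of_mul h2, right_ne_zero_of_mul h2⟩

theorem exists_mem_of_ne (hs : CSys ι M m c Y X) (hm : Mono ι M m c Y X) {a b : ℕ} (ha : a ≤ M)
    (hb : b ≤ M) (hab : a ≠ b) (h1 : gl ι M Y X a 0 ≠ 0) (h2 : gl ι M Y X b 0 ≠ 0) :
    ∃ h, h ∈ TT ι M m Y X a b := by
  by_contra hcon
  push Not at hcon
  have h3 := card_T hs hm ha hb hab
  rw [Finset.card_eq_zero.mpr (Finset.eq_empty_of_forall_notMem hcon), Nat.cast_zero] at h3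
  exact mul_ne_zero np_ne (mul_ne_zero n_ne (mul_ne_zero h1 h2)) h3.symm

/-- The moment of the overlap at the origin. -/
noncomputable def al (ι : Bz →+* k) (M : ℕ) (Y X : ℕ → A → k) : k :=
  ∑ p ∈ antidiagonal M, (p.2 : k) * ov ι (Y p.1) (X p.2) 0

theorem moment_T (hm : Mono ι M m c Y X) {h : PS A} (hh : m h ≠ M) {p : ℕ × ℕ}
    (hp : Pr ι m Y X h p) :
    ∑ q ∈ antidiagonal (m h), (q.2 : k) * ov ι (Y q.1) (X q.2) h = (p.2 : k) * c h := by
  obtain ⟨h1, h2⟩ := pr_val hm hh hp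
  rw [Finset.sum_eq_single p]
  · rw [h1]
  · intro q hq hne
    rw [h2 q (Finset.HasAntidiagonal.mem_antidiagonal.mp hq) hne, mul_zero]
  · intro hn
    exact absurd (Finset.HasAntidiagonal.mem_antidiagonal.mpr hp.1) hn

theorem sum_levels (hs : CSys ι M m c Y X) (hm : Mono ι M m c Y X) {a b : ℕ} (ha : a ≤ M)
    (hb : b ≤ M) (hab : a ≠ b) {h : PS A} (hT : h ∈ TT ι M m Y X a b) :
    ((M : k) - b) + ((M : k) - a) = 2 * al ι M Y X := by
  have h1 := mem_TT.mp hT
  obtain ⟨hh, h2⟩ := pr_neg_pair hs hm ha hb hab h1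
  have h3 := hs.star h
  rw [moment_T hm hh h1, moment_T hm (m_neg_ne hs hh) h2] at h3
  simp only at h3
  rw [Nat.cast_sub ha, Nat.cast_sub hb] at h3
  have h4 : (((M : k) - b) + ((M : k) - a) - 2 * al ι M Y X) * (c h * c (-h)) = 0 := by
    unfold al
    linear_combination h3
  rcases mul_eq_zero.mp h4 with h5 | h5
  · linear_combination h5
  · exact absurd h5 (cc_ne hs h)

theorem al_eq (ι : Bz →+* k) (M : ℕ) (Y X : ℕ → A → k) (h : PS A) :
    ∑ p ∈ antidiagonal M, (p.2 : k) * ov ι (Y p.1) (X p.2) h =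
      ∑ a ∈ range (M + 1), ((M : k) - a) * gl ι M Y X a h := by
  rw [Finset.Nat.sum_antidiagonal_eq_sum_range_succ_mk]
  apply Finset.sum_congr rfl
  intro a ha
  have h1 : a ≤ M := Nat.lt_succ_iff.mp (Finset.mem_range.mp ha)
  simp only
  rw [Nat.cast_sub h1]
  rfl

theorem lead_eq (hs : CSys ι M m c Y X) {h : PS A} (hh : m h = M) :
    ∑ a ∈ range (M + 1), gl ι M Y X a h = c h := by
  rw [← hs.lead h, hh, Finset.Nat.sum_antidiagonal_eq_sum_range_succ_mk]
  rfl

/-- Vanishing of the level functions off `m = M`. -/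
theorem gl_mul_off (hs : CSys ι M m c Y X) {a b : ℕ} (ha : a ≤ M) (hb : b ≤ M) {h : PS A}
    (hh : m h ≠ M) : gl ι M Y X a h * gl ι M Y X b (-h) = 0 := by
  have hmn := hs.m_neg h
  unfold gl
  rcases lt_or_gt_of_ne hh with h1 | h1
  · rw [hs.low b (M - b) (-h) (by omega), mul_zero]
  · rw [hs.low a (M - a) h (by omega), zero_mul]

/-- The two levels. -/
structure Two (ι : Bz →+* k) (M : ℕ) (m : PS A → ℕ) (Y X : ℕ → A → k) (a b : ℕ) : Prop where
  ha : a ≤ M
  hb : b ≤ M
  ne : a ≠ b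
  mem : ∃ h, h ∈ TT ι M m Y X a b

theorem exists_two (hs : CSys ι M m c Y X) (hm : Mono ι M m c Y X) :
    ∃ a b, Two ι M m Y X a b := by
  obtain ⟨h, hh⟩ := hs.pole
  obtain ⟨⟨i, j⟩, h1⟩ := pr_exists hs hm hh
  obtain ⟨⟨i', j'⟩, h2⟩ := pr_exists hs hm (m_neg_ne hs hh)
  obtain ⟨h3, h4⟩ := levels hs hm hh h1 h2
  have e1 : i + j = m h := h1.1
  refine ⟨i, i', by omega, by omega, by omega, h, mem_TT.mpr ?_⟩
  have e2 : M - i' = j := by omega
  rw [e2]
  exact h1

theorem other_zero (hs : CSys ι M m c Y X) (hm : Mono ι M m c Y X) {a b : ℕ}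
    (ht : Two ι M m Y X a b) {e : ℕ} (he : e ≤ M) (hea : e ≠ a) (heb : e ≠ b) :
    gl ι M Y X e 0 = 0 := by
  by_contra h0
  obtain ⟨h, hT⟩ := ht.mem
  obtain ⟨hga, -⟩ := gl_ne_of_mem hs hm ht.ha ht.hb ht.ne hT
  obtain ⟨h', hT'⟩ := exists_mem_of_ne hs hm ht.ha he (Ne.symm hea) hga h0
  have e1 := sum_levels hs hm ht.ha ht.hb ht.ne hT
  have e2 := sum_levels hs hm ht.ha he (Ne.symm hea) hT'
  have e3 : (e : k) = b := by linear_combination e1 - e2
  exact heb (by exact_mod_cast e3)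

theorem other_mul (hs : CSys ι M m c Y X) (hm : Mono ι M m c Y X) {a b : ℕ}
    (ht : Two ι M m Y X a b) {e : ℕ} (he : e ≤ M) (hea : e ≠ a) (heb : e ≠ b) {f : ℕ}
    (hf : f ≤ M) (hef : e ≠ f) (l : PS A) :
    gl ι M Y X e l * gl ι M Y X f (-l) = 0 := by
  have h1 : TT ι M m Y X e f = ∅ := by
    apply Finset.eq_empty_of_forall_notMem
    intro h hT
    exact (gl_ne_of_mem hs hm he hf hef hT).1 (other_zero hs hm ht he hea heb)
  have h2 := dual_T hs hm he hf hef l
  rw [h1, Finset.sum_empty, map_zero] at h2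
  rcases mul_eq_zero.mp h2.symm with h3 | h3
  · exact absurd h3 np_ne
  · rcases mul_eq_zero.mp h3 with h4 | h4
    · exact absurd h4 n_ne
    · exact h4

theorem other_c (hs : CSys ι M m c Y X) (hm : Mono ι M m c Y X) {a b : ℕ}
    (ht : Two ι M m Y X a b) {e : ℕ} (he : e ≤ M) (hea : e ≠ a) (heb : e ≠ b) {l : PS A}
    (hl : m l = M) :
    gl ι M Y X e l * c (-l) = gl ι M Y X e l * gl ι M Y X e (-l) := by
  rw [← lead_eq hs (m_neg_eq hs hl), Finset.mul_sum, Finset.sum_eq_single e]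
  · intro f hf hfe
    exact other_mul hs hm ht he hea heb (Nat.lt_succ_iff.mp (Finset.mem_range.mp hf))
      (Ne.symm hfe) l
  · intro hn
    exact absurd (Finset.mem_range.mpr (Nat.lt_succ_iff.mpr he)) hn

/-- The other levels vanish where `m = M`. -/
theorem other_vanish (hs : CSys ι M m c Y X) (hm : Mono ι M m c Y X) {a b : ℕ}
    (ht : Two ι M m Y X a b) {e : ℕ} (he : e ≤ M) (hea : e ≠ a) (heb : e ≠ b) {l : PS A}
    (hl : m l = M) : gl ι M Y X e l = 0 := by
  classical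
  have hval : ∀ h : PS A, ((Fintype.card A : k) + 1) * (gl ι M Y X e h * gl ι M Y X e (-h)) =
      if m h = M ∧ gl ι M Y X e h ≠ 0 then 1 else 0 := by
    intro h
    split_ifs with hP
    · obtain ⟨hh, hu⟩ := hP
      have e1 := other_c hs hm ht he hea heb hh
      have e2 := other_c hs hm ht he hea heb (m_neg_eq hs hh)
      rw [neg_neg] at e2
      have e3 : c (-h) = gl ι M Y X e (-h) := mul_left_cancel₀ hu e1
      have hv : gl ι M Y X e (-h) ≠ 0 := by rw [← e3]; exact c_ne hs (-h)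
      have e4 : c h = gl ι M Y X e h := mul_left_cancel₀ hv e2
      rw [← e3, ← e4, hs.c_mul h]
      unfold eps
      rw [if_neg]
      intro h0
      rw [h0] at hu
      exact hu (other_zero hs hm ht he hea heb)
    · by_cases hh : m h = M
      · have hu : gl ι M Y X e h = 0 := by
          by_contra hne
          exact hP ⟨hh, hne⟩
        rw [hu, zero_mul, mul_zero]
      · rw [gl_mul_off hs he he hh, mul_zero]
  have hd := duality ι (Y e) (X (M - e)) (Y e) (X (M - e)) 0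
  rw [G_zero_apply] at hd
  have h0 : ov ι (Y e) (X (M - e)) 0 = 0 := other_zero hs hm ht he hea heb
  rw [h0, zero_mul, mul_zero] at hd
  have h1 : ((Finset.univ.filter (fun h : PS A => m h = M ∧ gl ι M Y X e h ≠ 0)).card : k) = 0 := by
    rw [← Finset.sum_boole, ← Finset.sum_congr rfl fun h _ => hval h, ← Finset.mul_sum]
    unfold gl
    rw [hd, mul_zero]
  rw [Nat.cast_eq_zero, Finset.card_eq_zero] at h1
  by_contra hne
  have h2 : l ∈ (Finset.univ.filter (fun h : PS A => m h = M ∧ gl ι M Y X e h ≠ 0)) :=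
    Finset.mem_filter.mpr ⟨Finset.mem_univ _, hl, hne⟩
  rw [h1] at h2
  exact absurd h2 (Finset.notMem_empty _)

theorem sum_two {a b : ℕ} (ha : a ≤ M) (hb : b ≤ M) (hab : a ≠ b) (f : ℕ → k)
    (h0 : ∀ e, e ≤ M → e ≠ a → e ≠ b → f e = 0) :
    ∑ e ∈ range (M + 1), f e = f a + f b := by
  classical
  rw [← Finset.sum_pair hab]
  symm
  apply Finset.sum_subset
  · intro e he
    rw [Finset.mem_insert, Finset.mem_singleton] at he
    rw [Finset.mem_range]
    omega
  · intro e he hn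
    rw [Finset.mem_insert, Finset.mem_singleton, not_or] at hn
    exact h0 e (Nat.lt_succ_iff.mp (Finset.mem_range.mp he)) hn.1 hn.2

theorem two_sum (hs : CSys ι M m c Y X) (hm : Mono ι M m c Y X) {a b : ℕ}
    (ht : Two ι M m Y X a b) {l : PS A} (hl : m l = M) :
    gl ι M Y X a l + gl ι M Y X b l = c l := by
  rw [← lead_eq hs hl, sum_two ht.ha ht.hb ht.ne]
  intro e he hea heb
  exact other_vanish hs hm ht he hea heb hl

theorem two_moment (hs : CSys ι M m c Y X) (hm : Mono ι M m c Y X) {a b : ℕ}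
    (ht : Two ι M m Y X a b) {l : PS A} (hl : m l = M) :
    ∑ p ∈ antidiagonal (m l), (p.2 : k) * ov ι (Y p.1) (X p.2) l =
      ((M : k) - a) * gl ι M Y X a l + ((M : k) - b) * gl ι M Y X b l := by
  rw [hl, al_eq, sum_two ht.ha ht.hb ht.ne]
  intro e he hea heb
  rw [other_vanish hs hm ht he hea heb hl, mul_zero]

/-- The key relation of the two levels. -/
theorem two_rel (hs : CSys ι M m c Y X) (hm : Mono ι M m c Y X) {a b : ℕ}
    (ht : Two ι M m Y X a b) {l : PS A} (hl : m l = M) :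
    gl ι M Y X a l * c (-l) + gl ι M Y X a (-l) * c l = c l * c (-l) := by
  obtain ⟨h, hT⟩ := ht.mem
  have h1 := sum_levels hs hm ht.ha ht.hb ht.ne hT
  have h2 := hs.star l
  have hl' := m_neg_eq hs hl
  rw [two_moment hs hm ht hl, two_moment hs hm ht hl'] at h2
  have h3 := two_sum hs hm ht hl
  have h4 := two_sum hs hm ht hl'
  have h5 : ((b : k) - a) * (gl ι M Y X a l * c (-l) + gl ι M Y X a (-l) * c l -
      c l * c (-l)) = 0 := by
    have h6 : (((M : k) - a) * gl ι M Y X a l + ((M : k) - b) * gl ι M Y X b l) * c (-l) +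
      (((M : k) - a) * gl ι M Y X a (-l) + ((M : k) - b) * gl ι M Y X b (-l)) * c l =
        2 * al ι M Y X * (c l * c (-l)) := h2
    linear_combination h6 + (c l * c (-l)) * (-h1) -
      ((M : k) - b) * c (-l) * h3 - ((M : k) - b) * c l * h4
  rcases mul_eq_zero.mp h5 with h6 | h6
  · have h7 : (a : k) = b := by linear_combination -h6
    exact absurd (by exact_mod_cast h7) ht.ne
  · linear_combination h6

theorem c_mul_glb (hs : CSys ι M m c Y X) (hm : Mono ι M m c Y X) {a b : ℕ}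
    (ht : Two ι M m Y X a b) {l : PS A} (hl : m l = M) :
    c l * gl ι M Y X b (-l) = gl ι M Y X a l * c (-l) := by
  have h1 := two_rel hs hm ht hl
  have h2 := two_sum hs hm ht (m_neg_eq hs hl)
  linear_combination c l * h2 - h1

theorem half (hs : CSys ι M m c Y X) (hm : Mono ι M m c Y X) {a b : ℕ}
    (ht : Two ι M m Y X a b) : 2 * gl ι M Y X a 0 = 1 ∧ 2 * gl ι M Y X b 0 = 1 := by
  have h1 := two_rel hs hm ht hs.m_zero
  have h2 := two_sum hs hm ht hs.m_zero
  rw [neg_zero, hs.c_zero] at h1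
  rw [hs.c_zero] at h2
  constructor
  · linear_combination h1
  · linear_combination 2 * h2 - h1

theorem card_val (hs : CSys ι M m c Y X) (hm : Mono ι M m c Y X) {a b : ℕ}
    (ht : Two ι M m Y X a b) :
    4 * (TT ι M m Y X a b).card = Fintype.card A * (Fintype.card A + 1) := by
  have h1 := card_T hs hm ht.ha ht.hb ht.ne
  obtain ⟨h2, h3⟩ := half hs hm ht
  have h4 : (4 : k) * ((TT ι M m Y X a b).card : k) =
      (Fintype.card A : k) * ((Fintype.card A : k) + 1) := by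
    rw [h1]
    linear_combination ((Fintype.card A : k) + 1) * (Fintype.card A : k) *
      (2 * gl ι M Y X b 0 * h2 + h3)
  exact_mod_cast h4

/-- The character sum in the algebraic numbers. -/
noncomputable def Dz (T : Finset (PS A)) (l : PS A) : Bz := ∑ h ∈ T, pr l h

omit [DecidableEq A] in
theorem Dsum_eq (T : Finset (PS A)) (l : PS A) : Dsum T l = ((Dz T l : Bz) : ℂ) := by
  unfold Dsum Dz
  rw [AddSubmonoidClass.coe_finsetSum]

theorem pr_neg_conj (l h : PS A) :
    ((pr (-l) h : Bz) : ℂ) = (starRingEnd ℂ) ((pr l h : Bz) : ℂ) := by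
  have h1 : ((pr (-l) h : Bz) : ℂ) * ((pr l h : Bz) : ℂ) = 1 := by
    have := congrArg (fun z : Bz => (z : ℂ)) (pr_neg_left_mul l h)
    simpa using this
  have h2 : ‖((pr l h : Bz) : ℂ)‖ = 1 := by
    have e1 : ((pr l h : Bz) : ℂ) = h.2 l.1 * l.2 (-h.1) := rfl
    rw [e1, norm_mul, AddChar.norm_apply, AddChar.norm_apply, one_mul]
  rw [← Complex.inv_eq_conj h2]
  exact eq_inv_of_mul_eq_one_left h1

theorem Dz_neg (T : Finset (PS A)) (l : PS A) :
    ((Dz T (-l) : Bz) : ℂ) = (starRingEnd ℂ) ((Dz T l : Bz) : ℂ) := by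
  rw [← Dsum_eq, ← Dsum_eq]
  unfold Dsum
  rw [map_sum]
  exact Finset.sum_congr rfl fun h _ => pr_neg_conj l h

/-- The root of the character sum. -/
noncomputable def Gam (T : Finset (PS A)) (l : PS A) : Bz :=
  (1 + (Dz T l - Dz T (-l)) / (Fintype.card A : Bz)) / 2

theorem iota_Dz (hs : CSys ι M m c Y X) (hm : Mono ι M m c Y X) {a b : ℕ}
    (ht : Two ι M m Y X a b) (l : PS A) :
    ι (Dz (TT ι M m Y X a b) l) = ((Fintype.card A : k) + 1) *
      ((Fintype.card A : k) * (gl ι M Y X a l * gl ι M Y X b (-l))) :=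
  dual_T hs hm ht.ha ht.hb ht.ne l

theorem iota_Gam (hs : CSys ι M m c Y X) (hm : Mono ι M m c Y X) {a b : ℕ}
    (ht : Two ι M m Y X a b) {l : PS A} (hl : m l = M) :
    gl ι M Y X a l = ι (Gam (TT ι M m Y X a b) l) * c l := by
  have hl' := m_neg_eq hs hl
  have d1 := iota_Dz hs hm ht l
  have d2 := iota_Dz hs hm ht (-l)
  rw [neg_neg] at d2
  have r1 := two_rel hs hm ht hl
  have g1 := c_mul_glb hs hm ht hl
  have g2 := c_mul_glb hs hm ht hl'
  rw [neg_neg] at g2
  have hc := c_ne hs l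
  have hc' := c_ne hs (-l)
  have hn : (Fintype.card A : k) ≠ 0 := n_ne
  have hn1 : (Fintype.card A : k) + 1 ≠ 0 := np_ne
  have h2 : (2 : k) ≠ 0 := two_ne_zero
  have cm := hs.c_mul l
  unfold Gam
  rw [map_div₀, map_add, map_one, map_div₀, map_sub, map_natCast, map_ofNat, d1, d2]
  by_cases h0 : l = 0
  · subst h0
    rw [neg_zero] at *
    rw [sub_self, zero_div, add_zero, hs.c_zero]
    have := (half hs hm ht).1
    linear_combination this / 2
  · unfold eps at cm
    rw [if_neg h0] at cm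
    generalize gl ι M Y X a l = u at *
    generalize gl ι M Y X a (-l) = u' at *
    generalize gl ι M Y X b l = v at *
    generalize gl ι M Y X b (-l) = v' at *
    generalize c l = C at *
    generalize c (-l) = C' at *
    have E1 : ((Fintype.card A : k) + 1) * ((Fintype.card A : k) * (u * v')) =
        (Fintype.card A : k) * (u / C) ^ 2 := by
      rw [div_pow, mul_div_assoc', eq_div_iff (pow_ne_zero 2 hc)]
      linear_combination ((Fintype.card A : k) + 1) * (Fintype.card A : k) * u * C * g1 +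
        (Fintype.card A : k) * u ^ 2 * cm
    have E2 : ((Fintype.card A : k) + 1) * ((Fintype.card A : k) * (u' * v)) =
        (Fintype.card A : k) * (1 - u / C) ^ 2 := by
      have e3 : 1 - u / C = u' / C' := by
        rw [eq_div_iff hc']
        field_simp
        linear_combination -r1
      rw [e3, div_pow, mul_div_assoc', eq_div_iff (pow_ne_zero 2 hc')]
      linear_combination ((Fintype.card A : k) + 1) * (Fintype.card A : k) * u' * C' * g2 +
        (Fintype.card A : k) * u' ^ 2 * cm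
    rw [E1, E2, ← mul_sub, mul_div_cancel_left₀ _ hn]
    field_simp
    ring

theorem Dz_sq (hs : CSys ι M m c Y X) (hm : Mono ι M m c Y X) {a b : ℕ}
    (ht : Two ι M m Y X a b) {l : PS A} (hl : m l = M) (h0 : l ≠ 0) :
    Dz (TT ι M m Y X a b) l = (Fintype.card A : Bz) * (Gam (TT ι M m Y X a b) l) ^ 2 := by
  apply ι.injective
  rw [iota_Dz hs hm ht l, map_mul, map_natCast, map_pow]
  have g1 := c_mul_glb hs hm ht hl
  have hg := iota_Gam hs hm ht hl
  have cm := hs.c_mul l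
  unfold eps at cm
  rw [if_neg h0] at cm
  have hc := c_ne hs l
  rw [hg] at g1 ⊢
  generalize ι (Gam (TT ι M m Y X a b) l) = g at *
  have e1 : gl ι M Y X b (-l) = g * c (-l) := by
    apply mul_left_cancel₀ hc
    rw [g1]
    ring
  rw [e1]
  linear_combination (Fintype.card A : k) * g ^ 2 * cm

theorem Gam_neg (T : Finset (PS A)) (l : PS A) : Gam T l + Gam T (-l) = 1 := by
  unfold Gam
  rw [neg_neg]
  ring

theorem Gam_conj (T : Finset (PS A)) (l : PS A) :
    ((Gam T (-l) : Bz) : ℂ) = (starRingEnd ℂ) ((Gam T l : Bz) : ℂ) := by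
  have h2 : ((2 : Bz) : ℂ) = 2 := rfl
  unfold Gam
  rw [neg_neg]
  push_cast
  rw [h2]
  simp only [map_div₀, map_add, map_sub, map_one, map_ofNat, map_natCast]
  rw [Dz_neg, Complex.conj_conj]

theorem Gam_re (T : Finset (PS A)) (l : PS A) : (((Gam T l : Bz) : ℂ)).re = 1 / 2 := by
  have h1 : ((Gam T l : Bz) : ℂ) + ((Gam T (-l) : Bz) : ℂ) = 1 := by
    have := congrArg (fun z : Bz => (z : ℂ)) (Gam_neg T l)
    simpa using this
  rw [Gam_conj] at h1
  have h2 := congrArg Complex.re h1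
  simp at h2
  linarith

theorem norm_D (hs : CSys ι M m c Y X) (hm : Mono ι M m c Y X) {a b : ℕ}
    (ht : Two ι M m Y X a b) {l : PS A} (hl : m l = M) (h0 : l ≠ 0) :
    ((‖Dsum (TT ι M m Y X a b) l‖ : ℝ) : ℂ) = (Fintype.card A : ℂ) *
      (((Gam (TT ι M m Y X a b) l : Bz) : ℂ) * ((Gam (TT ι M m Y X a b) (-l) : Bz) : ℂ)) := by
  rw [Dsum_eq, Dz_sq hs hm ht hl h0, Gam_conj]
  push_cast
  rw [norm_mul, norm_pow, Complex.mul_conj, Complex.normSq_eq_norm_sq]
  simp

theorem D_zero (hs : CSys ι M m c Y X) (hm : Mono ι M m c Y X) {a b : ℕ}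
    (ht : Two ι M m Y X a b) {l : PS A} (hl : m l ≠ M) : Dz (TT ι M m Y X a b) l = 0 := by
  apply ι.injective
  rw [iota_Dz hs hm ht l, gl_mul_off hs ht.ha ht.hb hl, mul_zero, mul_zero, map_zero]

/-- Off `m = M` means on `T` or `-T`. -/
theorem mem_of_ne (hs : CSys ι M m c Y X) (hm : Mono ι M m c Y X) {a b : ℕ}
    (ht : Two ι M m Y X a b) {l : PS A} (hl : m l ≠ M) :
    l ∈ TT ι M m Y X a b ∨ -l ∈ TT ι M m Y X a b := by
  obtain ⟨⟨i, j⟩, h1⟩ := pr_exists hs hm hl
  obtain ⟨⟨i', j'⟩, h2⟩ := pr_exists hs hm (m_neg_ne hs hl)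
  obtain ⟨h3, h4⟩ := levels hs hm hl h1 h2
  have e1 : i + j = m l := h1.1
  have hi : i ≤ M := by omega
  have hi' : i' ≤ M := by omega
  have hne : i ≠ i' := by omega
  have e2 : j = M - i' := by omega
  have e3 : j' = M - i := by omega
  rw [e2] at h1
  rw [e3] at h2
  have hT : l ∈ TT ι M m Y X i i' := mem_TT.mpr h1
  obtain ⟨g1, g2⟩ := gl_ne_of_mem hs hm hi hi' hne hT
  have k1 : i = a ∨ i = b := by
    by_contra hcon
    push Not at hcon
    exact g1 (other_zero hs hm ht hi hcon.1 hcon.2)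
  have k2 : i' = a ∨ i' = b := by
    by_contra hcon
    push Not at hcon
    exact g2 (other_zero hs hm ht hi' hcon.1 hcon.2)
  rcases k1 with k1 | k1 <;> rcases k2 with k2 | k2
  · exact absurd (k1.trans k2.symm) hne
  · left
    rw [← k1, ← k2]
    exact hT
  · right
    rw [← k1, ← k2]
    exact mem_TT.mpr h2
  · exact absurd (k1.trans k2.symm) hne

theorem ne_of_mem (hs : CSys ι M m c Y X) (hm : Mono ι M m c Y X) {a b : ℕ}
    (ht : Two ι M m Y X a b) {l : PS A} (hl : l ∈ TT ι M m Y X a b) : m l ≠ M :=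
  (pr_neg_pair hs hm ht.ha ht.hb ht.ne (mem_TT.mp hl)).1

/-- The self-dual function. -/
noncomputable def qq (M : ℕ) (m : PS A → ℕ) (T : Finset (PS A)) (l : PS A) : Bz :=
  if m l = M then eps A Bz l * (Gam T l * Gam T (-l)) else 0

theorem iota_qq (hs : CSys ι M m c Y X) (hm : Mono ι M m c Y X) {a b : ℕ}
    (ht : Two ι M m Y X a b) (l : PS A) :
    ι (qq M m (TT ι M m Y X a b) l) = ((Fintype.card A : k) + 1) *
      (gl ι M Y X a l * gl ι M Y X a (-l)) := by
  unfold qq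
  split_ifs with hl
  · rw [iota_Gam hs hm ht hl, iota_Gam hs hm ht (m_neg_eq hs hl), map_mul, map_mul, map_eps,
      ← hs.c_mul l]
    ring
  · rw [gl_mul_off hs ht.ha ht.ha hl, mul_zero, map_zero]

theorem qq_dual (hs : CSys ι M m c Y X) (hm : Mono ι M m c Y X) {a b : ℕ}
    (ht : Two ι M m Y X a b) (l : PS A) :
    ∑ h, pr l h * qq M m (TT ι M m Y X a b) h =
      (Fintype.card A : Bz) * qq M m (TT ι M m Y X a b) l := by
  apply ι.injective
  have hd := duality ι (Y a) (X (M - a)) (Y a) (X (M - a)) l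
  unfold G at hd
  rw [map_sum, map_mul, map_natCast, iota_qq hs hm ht l]
  have e1 : ∀ h : PS A, ι (pr l h * qq M m (TT ι M m Y X a b) h) =
      ((Fintype.card A : k) + 1) * (ι (pr l h) * (gl ι M Y X a h * gl ι M Y X a (-h))) := by
    intro h
    rw [map_mul, iota_qq hs hm ht h]
    ring
  rw [Finset.sum_congr rfl fun h _ => e1 h, ← Finset.mul_sum]
  unfold gl
  rw [hd]
  ring

theorem norm_eq_qq (hs : CSys ι M m c Y X) (hm : Mono ι M m c Y X) {a b : ℕ}
    (ht : Two ι M m Y X a b) (l : PS A) :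
    ((‖Dsum (TT ι M m Y X a b) l‖ : ℝ) : ℂ) =
      (Fintype.card A : ℂ) * ((qq M m (TT ι M m Y X a b) l : Bz) : ℂ) := by
  unfold qq
  split_ifs with hl
  · by_cases h0 : l = 0
    · subst h0
      have e1 : Dsum (TT ι M m Y X a b) 0 = ((TT ι M m Y X a b).card : ℂ) := by
        rw [Dsum_eq]
        unfold Dz
        rw [Finset.sum_congr rfl fun h _ => pr_zero_left h]
        simp
      have e2 : Gam (TT ι M m Y X a b) 0 = 1 / 2 := by
        unfold Gam
        rw [neg_zero, sub_self, zero_div, add_zero]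
      have e3 : (4 : ℂ) * ((TT ι M m Y X a b).card : ℂ) =
          (Fintype.card A : ℂ) * ((Fintype.card A : ℂ) + 1) := by
        exact_mod_cast card_val hs hm ht
      rw [e1, neg_zero, e2]
      have h2 : ((2 : Bz) : ℂ) = 2 := rfl
      unfold eps
      rw [if_pos rfl]
      push_cast
      rw [Complex.norm_natCast, h2]
      push_cast
      linear_combination e3 / 4
    · rw [norm_D hs hm ht hl h0]
      unfold eps
      rw [if_neg h0]
      push_cast
      ring
  · rw [Dsum_eq, D_zero hs hm ht hl]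
    simp

theorem exists_para {ι : Bz →+* k} {M : ℕ} {m : PS A → ℕ}
    {c : PS A → k} {Y X : ℕ → A → k} (h : CSys ι M m c Y X) (hm : Mono ι M m c Y X) :
    ∃ T : Finset (PS A), IsPara T := by
  obtain ⟨a, b, ht⟩ := exists_two h hm
  refine ⟨TT ι M m Y X a b, card_val h hm ht, ?_, ?_, ?_, ?_⟩
  · intro l hl hl'
    obtain ⟨hh, h2⟩ := pr_neg_pair h hm ht.ha ht.hb ht.ne (mem_TT.mp hl)
    have h3 := mem_TT.mp hl'
    have h4 := (pr_val hm (m_neg_ne h hh) h2).2 (a, M - b) h3.1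
    refine h3.2 (h4 ?_)
    intro h5
    exact ht.ne (Prod.ext_iff.mp h5).1
  · intro l hl
    rw [Dsum_eq, D_zero h hm ht (ne_of_mem h hm ht hl)]
    rfl
  · intro l h0 h1 h2
    have hl : m l = M := by
      by_contra hne
      rcases mem_of_ne h hm ht hne with h3 | h3
      · exact h1 h3
      · exact h2 h3
    have e1 : Dsum (TT ι M m Y X a b) l =
        (Fintype.card A : ℂ) * ((Gam (TT ι M m Y X a b) l : Bz) : ℂ) ^ 2 := by
      rw [Dsum_eq, Dz_sq h hm ht hl h0]
      push_cast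
      rfl
    have e2 := Gam_re (TT ι M m Y X a b) l
    rw [e1]
    generalize ((Gam (TT ι M m Y X a b) l : Bz) : ℂ) = g at *
    have e3 : ‖g‖ ^ 2 = g.re ^ 2 + g.im ^ 2 := by
      rw [← Complex.normSq_eq_norm_sq, Complex.normSq_apply]
      ring
    have e4 : ((Fintype.card A : ℂ) * g ^ 2).re =
        (Fintype.card A : ℝ) * (g.re ^ 2 - g.im ^ 2) := by
      rw [← Complex.ofReal_natCast, Complex.re_ofReal_mul, sq, Complex.mul_re]
      ring
    rw [norm_mul, norm_pow, e3, e4, Complex.norm_natCast, e2]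
    ring
  · intro l
    have e1 : ((∑ h', pr l h' * qq M m (TT ι M m Y X a b) h' : Bz) : ℂ) =
        (((Fintype.card A : Bz) * qq M m (TT ι M m Y X a b) l : Bz) : ℂ) :=
      congrArg (fun z : Bz => (z : ℂ)) (qq_dual h hm ht l)
    rw [norm_eq_qq h hm ht l]
    have e2 : ∀ h' : PS A, ((pr l h' : Bz) : ℂ) * ((‖Dsum (TT ι M m Y X a b) h'‖ : ℝ) : ℂ) =
        (Fintype.card A : ℂ) * ((pr l h' * qq M m (TT ι M m Y X a b) h' : Bz) : ℂ) := by
      intro h'
      rw [norm_eq_qq h hm ht h']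
      push_cast
      ring
    rw [Finset.sum_congr rfl fun h' _ => e2 h', ← Finset.mul_sum,
      ← AddSubmonoidClass.coe_finsetSum, e1]
    push_cast
    rfl

end Count

theorem exists_para {A : Type} [AddCommGroup A] [Fintype A] [DecidableEq A] {k : Type*} [Field k]
    [CharZero k] {ι : Bz →+* k} {M : ℕ} {m : PS A → ℕ}
    {c : PS A → k} {Y X : ℕ → A → k} (h : CSys ι M m c Y X) (hm : Mono ι M m c Y X) :
    ∃ T : Finset (PS A), IsPara T :=
  Count.exists_para h hm

end Pool.Agent.SicAb
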