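import Mathlib

/-!
# Overlaps of the Heisenberg group of a finite abelian group

`A` is a finite abelian group, `PS A = A × AddChar A ℂ` its phase space.  All character values
are taken in the field `Bz` of algebraic numbers and moved to a ring `R` along a ring
homomorphism `ι : Bz →+* R`.
-/

namespace Pool.Agent.SicAb

open Finset

/-- The field of complex algebraic numbers. -/
abbrev Bz : Type := algebraicClosure ℚ ℂ

/-- Phase space of a finite abelian group. -/
abbrev PS (A : Type) [AddCommGroup A] : Type := A × AddChar A ℂ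

section basic

variable {A : Type} [AddCommGroup A] [Fintype A] [DecidableEq A]

omit [DecidableEq A] in
theorem isAlgebraic_char (χ : AddChar A ℂ) (x : A) : χ x ∈ algebraicClosure ℚ ℂ := by
  rw [mem_algebraicClosure_iff]
  have h1 : (χ x) ^ (Fintype.card A) = 1 := by
    rw [← AddChar.map_nsmul_eq_pow, card_nsmul_eq_zero, AddChar.map_zero_eq_one]
  refine IsAlgebraic.of_pow (n := Fintype.card A) Fintype.card_pos ?_
  rw [h1]
  exact isAlgebraic_one

/-- Character value as an algebraic number. -/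
def ch (χ : AddChar A ℂ) (x : A) : Bz := ⟨χ x, isAlgebraic_char χ x⟩

theorem ch_val (χ : AddChar A ℂ) (x : A) : ((ch χ x : Bz) : ℂ) = χ x := rfl

theorem ch_add (χ : AddChar A ℂ) (x y : A) : ch χ (x + y) = ch χ x * ch χ y :=
  Subtype.ext (AddChar.map_add_eq_mul χ x y)

theorem ch_add_left (χ ψ : AddChar A ℂ) (x : A) : ch (χ + ψ) x = ch χ x * ch ψ x :=
  Subtype.ext rfl

@[simp] theorem ch_zero (χ : AddChar A ℂ) : ch χ (0 : A) = 1 :=
  Subtype.ext (AddChar.map_zero_eq_one χ)

@[simp] theorem ch_zero_left (x : A) : ch (0 : AddChar A ℂ) x = 1 :=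
  Subtype.ext rfl

theorem ch_mul_neg (χ : AddChar A ℂ) (x : A) : ch χ x * ch χ (-x) = 1 := by
  rw [← ch_add, add_neg_cancel, ch_zero]

theorem ch_neg_left (χ : AddChar A ℂ) (x : A) : ch (-χ) x = ch χ (-x) :=
  Subtype.ext rfl

theorem ch_ne_zero (χ : AddChar A ℂ) (x : A) : ch χ x ≠ 0 :=
  left_ne_zero_of_mul_eq_one (ch_mul_neg χ x)

theorem sum_ch (x : A) : ∑ χ : AddChar A ℂ, ch χ x = if x = 0 then (Fintype.card A : Bz) else 0 := by
  apply Subtype.ext
  have h1 := AddChar.sum_apply_eq_ite x
  rw [AddSubmonoidClass.coe_finsetSum]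
  simp only [ch_val]
  rw [h1]
  split_ifs <;> simp

theorem sum_ch_left (χ : AddChar A ℂ) :
    ∑ x : A, ch χ x = if χ = 0 then (Fintype.card A : Bz) else 0 := by
  apply Subtype.ext
  have h1 := AddChar.sum_eq_ite χ
  rw [AddSubmonoidClass.coe_finsetSum]
  simp only [ch_val]
  rw [h1]
  split_ifs <;> simp

end basic

/-- A square root in the algebraic numbers. -/
theorem exists_sq (z : Bz) : ∃ w : Bz, w * w = z := by
  obtain ⟨w, hw⟩ := IsAlgClosed.exists_pow_nat_eq (z : ℂ) (n := 2) (by norm_num)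
  have h1 : w ∈ algebraicClosure ℚ ℂ := by
    rw [mem_algebraicClosure_iff]
    refine IsAlgebraic.of_pow (n := 2) (by norm_num) ?_
    rw [hw]
    exact mem_algebraicClosure_iff.mp z.2
  refine ⟨⟨w, h1⟩, Subtype.ext ?_⟩
  rw [← sq]
  exact hw

open Classical in
/-- A chosen square root; the square root of `1` is `1`. -/
noncomputable def sqz (z : Bz) : Bz := if z = 1 then 1 else (exists_sq z).choose

theorem sqz_mul (z : Bz) : sqz z * sqz z = z := by
  unfold sqz
  split_ifs with h
  · rw [h, one_mul]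
  · exact (exists_sq z).choose_spec

@[simp] theorem sqz_one : sqz 1 = 1 := if_pos rfl

variable {A : Type} [AddCommGroup A] [Fintype A] [DecidableEq A]

/-- The symplectic bicharacter. -/
noncomputable def pr (k h : PS A) : Bz := ch h.2 k.1 * ch k.2 (-h.1)

/-- The overlap `<y, D_h x>`; the displacements are normalised so that `D_(-h) = D_h^(-1)`. -/
noncomputable def ov {R : Type*} [CommRing R] (ι : Bz →+* R) (y x : A → R) (h : PS A) : R :=
  ι (sqz (ch h.2 h.1)) * ∑ r, y r * ι (ch h.2 r) * x (r + h.1)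

/-- The Fourier transform (not normalised). -/
noncomputable def G {R : Type*} [CommRing R] (ι : Bz →+* R) (g : PS A → R) (k : PS A) : R :=
  ∑ h, ι (pr k h) * g h

/-- `n + 1` at the origin, `1` elsewhere. -/
noncomputable def eps (A : Type) [AddCommGroup A] [Fintype A] [DecidableEq A]
    (R : Type*) [CommRing R] (h : PS A) : R :=
  if h = 0 then (Fintype.card A : R) + 1 else 1

/-- The equations of a fiducial, complexified. -/
structure IsSol {R : Type*} [CommRing R] (ι : Bz →+* R) (y x : A → R) : Prop where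
  zero : ov ι y x 0 = 1
  mul : ∀ h, ((Fintype.card A : R) + 1) * (ov ι y x h * ov ι y x (-h)) = eps A R h

section lemmas

theorem pr_add_left (k l h : PS A) : pr (k + l) h = pr k h * pr l h := by
  unfold pr
  rw [Prod.fst_add, Prod.snd_add, ch_add, ch_add_left]
  ring

theorem pr_add_right (k h l : PS A) : pr k (h + l) = pr k h * pr k l := by
  unfold pr
  rw [Prod.fst_add, Prod.snd_add, ch_add_left, neg_add, ch_add]
  ring

@[simp] theorem pr_zero_left (h : PS A) : pr 0 h = 1 := by
  unfold pr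
  rw [Prod.fst_zero, Prod.snd_zero, ch_zero, ch_zero_left, one_mul]

@[simp] theorem pr_zero_right (k : PS A) : pr k 0 = 1 := by
  unfold pr
  rw [Prod.fst_zero, Prod.snd_zero, neg_zero, ch_zero, ch_zero_left, one_mul]

theorem pr_mul_swap (k h : PS A) : pr k h * pr h k = 1 := by
  unfold pr
  have e1 := ch_mul_neg h.2 k.1
  have e2 := ch_mul_neg k.2 h.1
  linear_combination (ch k.2 h.1 * ch k.2 (-h.1)) * e1 + e2

theorem pr_neg_left_mul (k h : PS A) : pr (-k) h * pr k h = 1 := by
  rw [← pr_add_left, neg_add_cancel, pr_zero_left]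

theorem pr_neg_right_mul (k h : PS A) : pr k (-h) * pr k h = 1 := by
  rw [← pr_add_right, neg_add_cancel, pr_zero_right]

theorem pr_ne_zero (k h : PS A) : pr k h ≠ 0 := left_ne_zero_of_mul_eq_one (pr_mul_swap k h)

theorem pr_neg_left (k h : PS A) : pr (-k) h = pr h k :=
  mul_right_cancel₀ (pr_ne_zero k h) ((pr_neg_left_mul k h).trans (pr_mul_swap h k).symm)

theorem pr_neg_right (k h : PS A) : pr k (-h) = pr h k :=
  mul_right_cancel₀ (pr_ne_zero k h) ((pr_neg_right_mul k h).trans (pr_mul_swap h k).symm)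

theorem sum_pr (k : PS A) :
    ∑ h : PS A, pr k h = if k = 0 then ((Fintype.card A : Bz)) ^ 2 else 0 := by
  have h1 : ∑ h : PS A, pr k h = (∑ χ : AddChar A ℂ, ch χ k.1) * ∑ a : A, ch k.2 (-a) := by
    rw [Fintype.sum_prod_type_right, Finset.sum_mul_sum]
    rfl
  have h2 : ∑ a : A, ch k.2 (-a) = ∑ a : A, ch k.2 a :=
    Fintype.sum_equiv (Equiv.neg A) _ _ (fun _ => rfl)
  rw [h1, h2, sum_ch, sum_ch_left]
  by_cases hk1 : k.1 = 0 <;> by_cases hk2 : k.2 = 0
  · have hk : k = 0 := Prod.ext hk1 hk2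
    simp [hk, sq]
  · have hk : k ≠ 0 := fun h => hk2 (by rw [h]; rfl)
    simp [hk2, hk]
  · have hk : k ≠ 0 := fun h => hk1 (by rw [h]; rfl)
    simp [hk1, hk]
  · have hk : k ≠ 0 := fun h => hk1 (by rw [h]; rfl)
    simp [hk1, hk]

variable {R : Type*} [CommRing R] (ι : Bz →+* R)

theorem ov_def (y x : A → R) (h : PS A) :
    ov ι y x h = ι (sqz (ch h.2 h.1)) * ∑ r, y r * ι (ch h.2 r) * x (r + h.1) := rfl

/-- The overlap at `-h` is the overlap with the inverse displacement. -/
theorem ov_neg (y x : A → R) (h : PS A) :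
    ov ι y x (-h) = ι (sqz (ch h.2 h.1)) * ι (ch h.2 (-h.1)) *
      ∑ s, y (s + h.1) * ι (ch h.2 (-s)) * x s := by
  rw [ov_def]
  have e0 : ch (-h).2 (-h).1 = ch h.2 h.1 := by
    rw [Prod.fst_neg, Prod.snd_neg, ch_neg_left, neg_neg]
  rw [e0, mul_assoc]
  congr 1
  rw [Finset.mul_sum, ← Equiv.sum_comp (Equiv.addRight h.1)]
  apply Finset.sum_congr rfl
  intro s _
  simp only [Equiv.coe_addRight, Prod.fst_neg, Prod.snd_neg, ch_neg_left]
  rw [add_neg_cancel_right, neg_add, ch_add, map_mul]
  ring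

/-- Rank one duality. -/
theorem duality (y x' y' x'' : A → R) (k : PS A) :
    G ι (fun h => ov ι y x' h * ov ι y' x'' (-h)) k =
      (Fintype.card A : R) * (ov ι y x'' k * ov ι y' x' (-k)) := by
  have e1 : ∀ h : PS A, ι (pr k h) * (ov ι y x' h * ov ι y' x'' (-h)) =
      ∑ r, ∑ s, ι (ch h.2 (k.1 + r - s)) *
        (ι (ch k.2 (-h.1)) * (y r * x' (r + h.1) * y' (s + h.1) * x'' s)) := by
    intro h
    have e2 : ι (sqz (ch h.2 h.1)) * (ι (sqz (ch h.2 h.1)) * ι (ch h.2 (-h.1))) = 1 := by
      rw [← mul_assoc, ← map_mul, sqz_mul, ← map_mul, ch_mul_neg, map_one]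
    rw [ov_def, ov_neg]
    have e4 : ι (pr k h) *
        ((ι (sqz (ch h.2 h.1)) * ∑ r, y r * ι (ch h.2 r) * x' (r + h.1)) *
          (ι (sqz (ch h.2 h.1)) * ι (ch h.2 (-h.1)) *
            ∑ s, y' (s + h.1) * ι (ch h.2 (-s)) * x'' s)) =
        ι (pr k h) * ((∑ r, y r * ι (ch h.2 r) * x' (r + h.1)) *
          ∑ s, y' (s + h.1) * ι (ch h.2 (-s)) * x'' s) := by
      linear_combination (ι (pr k h) * ((∑ r, y r * ι (ch h.2 r) * x' (r + h.1)) *
          ∑ s, y' (s + h.1) * ι (ch h.2 (-s)) * x'' s)) * e2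
    rw [e4, Finset.sum_mul_sum, Finset.mul_sum]
    apply Finset.sum_congr rfl
    intro r _
    rw [Finset.mul_sum]
    apply Finset.sum_congr rfl
    intro s _
    rw [sub_eq_add_neg, ch_add, ch_add, map_mul, map_mul]
    unfold pr
    rw [map_mul]
    ring
  have e5 : G ι (fun h => ov ι y x' h * ov ι y' x'' (-h)) k =
      ∑ a : A, ∑ r, ∑ s, ι (∑ χ : AddChar A ℂ, ch χ (k.1 + r - s)) *
        (ι (ch k.2 (-a)) * (y r * x' (r + a) * y' (s + a) * x'' s)) := by
    unfold G
    rw [Finset.sum_congr rfl fun h _ => e1 h, Fintype.sum_prod_type]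
    apply Finset.sum_congr rfl
    intro a _
    rw [Finset.sum_comm]
    apply Finset.sum_congr rfl
    intro r _
    rw [Finset.sum_comm]
    apply Finset.sum_congr rfl
    intro s _
    rw [map_sum, Finset.sum_mul]
  rw [e5]
  have e6 : ∀ a r : A, (∑ s, ι (∑ χ : AddChar A ℂ, ch χ (k.1 + r - s)) *
        (ι (ch k.2 (-a)) * (y r * x' (r + a) * y' (s + a) * x'' s))) =
      (Fintype.card A : R) * (ι (ch k.2 (-a)) *
        (y r * x' (r + a) * y' (r + a + k.1) * x'' (r + k.1))) := by
    intro a r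
    rw [Finset.sum_eq_single (r + k.1)]
    · have e7 : k.1 + r - (r + k.1) = 0 := by abel
      have e8 : r + k.1 + a = r + a + k.1 := by abel
      rw [e7, sum_ch, if_pos rfl, map_natCast, e8]
    · intro s _ hs
      have e7 : k.1 + r - s ≠ 0 := by
        intro h0
        apply hs
        rw [← sub_eq_zero.mp h0]
        abel
      rw [sum_ch, if_neg e7, map_zero, zero_mul]
    · intro h
      exact absurd (Finset.mem_univ _) h
  simp only [e6]
  rw [ov_def, ov_neg]
  have e2 : ι (sqz (ch k.2 k.1)) * (ι (sqz (ch k.2 k.1)) * ι (ch k.2 (-k.1))) = 1 := by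
    rw [← mul_assoc, ← map_mul, sqz_mul, ← map_mul, ch_mul_neg, map_one]
  have e9 : ∑ a : A, ∑ r : A, (Fintype.card A : R) * (ι (ch k.2 (-a)) *
        (y r * x' (r + a) * y' (r + a + k.1) * x'' (r + k.1))) =
      (Fintype.card A : R) * ((∑ r, y r * ι (ch k.2 r) * x'' (r + k.1)) *
          ∑ s, y' (s + k.1) * ι (ch k.2 (-s)) * x' s) := by
    rw [Finset.sum_comm, Finset.sum_mul_sum, Finset.mul_sum]
    apply Finset.sum_congr rfl
    intro r _
    rw [Finset.mul_sum, ← Equiv.sum_comp (Equiv.addLeft r) (fun s => (Fintype.card A : R) *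
      (y r * ι (ch k.2 r) * x'' (r + k.1) * (y' (s + k.1) * ι (ch k.2 (-s)) * x' s)))]
    apply Finset.sum_congr rfl
    intro a _
    simp only [Equiv.coe_addLeft]
    have e10 : ι (ch k.2 r) * ι (ch k.2 (-(r + a))) = ι (ch k.2 (-a)) := by
      rw [← map_mul, ← ch_add]
      congr 2
      abel
    linear_combination (-(Fintype.card A : R) *
      (y r * x' (r + a) * y' (r + a + k.1) * x'' (r + k.1))) * e10
  rw [e9]
  linear_combination (-(Fintype.card A : R) * ((∑ r, y r * ι (ch k.2 r) * x'' (r + k.1)) *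
          ∑ s, y' (s + k.1) * ι (ch k.2 (-s)) * x' s)) * e2

/-- Bilinear Parseval. -/
theorem parseval (g g' : PS A → R) :
    ∑ k, G ι g k * G ι g' (-k) = (Fintype.card A : R) ^ 2 * ∑ h, g h * g' h := by
  have e1 : ∑ k, G ι g k * G ι g' (-k) =
      ∑ h, ∑ l, ι (∑ k, pr (h - l) k) * (g h * g' l) := by
    unfold G
    simp only [Finset.sum_mul_sum]
    rw [Finset.sum_comm]
    apply Finset.sum_congr rfl
    intro h _
    rw [Finset.sum_comm]
    apply Finset.sum_congr rfl
    intro l _
    rw [map_sum, Finset.sum_mul, ← Equiv.sum_comp (Equiv.neg (PS A))]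
    apply Finset.sum_congr rfl
    intro k _
    simp only [Equiv.neg_apply, neg_neg]
    rw [sub_eq_add_neg, pr_add_left, pr_neg_left, pr_neg_left, map_mul]
    ring
  rw [e1]
  have e2 : ∀ h, ∑ l, ι (∑ k, pr (h - l) k) * (g h * g' l) =
      (Fintype.card A : R) ^ 2 * (g h * g' h) := by
    intro h
    rw [Finset.sum_eq_single h]
    · rw [sub_self, sum_pr, if_pos rfl, map_pow, map_natCast]
    · intro l _ hl
      rw [sum_pr, if_neg (sub_ne_zero.mpr hl.symm), map_zero, zero_mul]
    · intro h'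
      exact absurd (Finset.mem_univ _) h'
  rw [Finset.sum_congr rfl fun h _ => e2 h, ← Finset.mul_sum]

/-- Inversion. -/
theorem G_G (g : PS A → R) (k : PS A) :
    G ι (G ι g) k = (Fintype.card A : R) ^ 2 * g k := by
  have e1 : G ι (G ι g) k = ∑ l, ι (∑ h, pr (k - l) h) * g l := by
    unfold G
    simp only [Finset.mul_sum]
    rw [Finset.sum_comm]
    apply Finset.sum_congr rfl
    intro l _
    rw [map_sum, Finset.sum_mul]
    apply Finset.sum_congr rfl
    intro h _
    rw [sub_eq_add_neg, pr_add_left, pr_neg_left, map_mul]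
    ring
  rw [e1, Finset.sum_eq_single k]
  · rw [sub_self, sum_pr, if_pos rfl, map_pow, map_natCast]
  · intro l _ hl
    rw [sum_pr, if_neg (sub_ne_zero.mpr hl.symm), map_zero, zero_mul]
  · intro h'
    exact absurd (Finset.mem_univ _) h'

theorem G_add (g g' : PS A → R) (k : PS A) :
    G ι (fun h => g h + g' h) k = G ι g k + G ι g' k := by
  unfold G
  rw [← Finset.sum_add_distrib]
  exact Finset.sum_congr rfl fun h _ => by ring

theorem G_smul (c : R) (g : PS A → R) (k : PS A) :
    G ι (fun h => c * g h) k = c * G ι g k := by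
  unfold G
  rw [Finset.mul_sum]
  exact Finset.sum_congr rfl fun h _ => by ring

/-- Transform of the reflected function. -/
theorem G_neg_arg (g : PS A → R) (k : PS A) :
    G ι (fun h => g (-h)) k = G ι g (-k) := by
  unfold G
  rw [← Equiv.sum_comp (Equiv.neg (PS A))]
  apply Finset.sum_congr rfl
  intro h _
  simp only [Equiv.neg_apply, neg_neg]
  rw [pr_neg_right, pr_neg_left]

theorem G_zero_apply (g : PS A → R) : G ι g 0 = ∑ h, g h := by
  unfold G
  exact Finset.sum_congr rfl fun h _ => by rw [pr_zero_left, map_one, one_mul]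

/-- `eps` is self-dual. -/
theorem G_eps (k : PS A) : G ι (eps A R) k = (Fintype.card A : R) * eps A R k := by
  have e1 : ∀ h : PS A, ι (pr k h) * eps A R h =
      ι (pr k h) + (if h = 0 then (Fintype.card A : R) else 0) := by
    intro h
    unfold eps
    split_ifs with h0
    · rw [h0, pr_zero_right, map_one]; ring
    · rw [mul_one, add_zero]
  unfold G
  rw [Finset.sum_congr rfl fun h _ => e1 h, Finset.sum_add_distrib, ← map_sum, sum_pr,
    Finset.sum_ite_eq' Finset.univ (0 : PS A), if_pos (Finset.mem_univ _)]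
  unfold eps
  split_ifs with h0
  · rw [map_pow, map_natCast]; ring
  · rw [map_zero]; ring

theorem ov_add_left (y y' x : A → R) (h : PS A) :
    ov ι (fun r => y r + y' r) x h = ov ι y x h + ov ι y' x h := by
  simp only [ov_def]
  rw [← mul_add, ← Finset.sum_add_distrib]
  congr 1
  exact Finset.sum_congr rfl fun r _ => by ring

theorem ov_add_right (y x x' : A → R) (h : PS A) :
    ov ι y (fun r => x r + x' r) h = ov ι y x h + ov ι y x' h := by
  simp only [ov_def]
  rw [← mul_add, ← Finset.sum_add_distrib]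
  congr 1
  exact Finset.sum_congr rfl fun r _ => by ring

theorem ov_smul_left (c : R) (y x : A → R) (h : PS A) :
    ov ι (fun r => c * y r) x h = c * ov ι y x h := by
  simp only [ov_def]
  rw [mul_left_comm c, Finset.mul_sum Finset.univ _ c]
  congr 1
  exact Finset.sum_congr rfl fun r _ => by ring

theorem ov_smul_right (c : R) (y x : A → R) (h : PS A) :
    ov ι y (fun r => c * x r) h = c * ov ι y x h := by
  simp only [ov_def]
  rw [mul_left_comm c, Finset.mul_sum Finset.univ _ c]
  congr 1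
  exact Finset.sum_congr rfl fun r _ => by ring

/-- Compatibility with ring homomorphisms. -/
theorem map_ov {S : Type*} [CommRing S] (e : R →+* S) (y x : A → R) (h : PS A) :
    e (ov ι y x h) = ov (e.comp ι) (fun r => e (y r)) (fun r => e (x r)) h := by
  simp only [ov_def, map_mul, map_sum, RingHom.comp_apply]

theorem map_G {S : Type*} [CommRing S] (e : R →+* S) (g : PS A → R) (k : PS A) :
    e (G ι g k) = G (e.comp ι) (fun h => e (g h)) k := by
  simp only [G, map_mul, map_sum, RingHom.comp_apply]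

theorem map_eps {S : Type*} [CommRing S] (e : R →+* S) (h : PS A) :
    e (eps A R h) = eps A S h := by
  unfold eps
  split_ifs <;> simp

end lemmas

end Pool.Agent.SicAb
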