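import Pool.Agent.Lib.MP_d0f9e0_co.Ab.Finite

/-!
# Fiducials: algebraic representatives and overlaps
-/

set_option autoImplicit false

namespace Pool.Agent.SicAb

open Finset

variable {A : Type} [AddCommGroup A] [Fintype A] [DecidableEq A]

theorem iC_ch (χ : AddChar A ℂ) (x : A) : iC (ch χ x) = χ x := rfl

/-- The overlap without the normalising phase. -/
noncomputable def so (ψ : A → ℂ) (h : PS A) : ℂ := ∑ r, star (ψ r) * h.2 r * ψ (r + h.1)

theorem norm_sqz (χ : AddChar A ℂ) (x : A) : ‖iC (sqz (ch χ x))‖ = 1 := by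
  have h1 : iC (sqz (ch χ x)) * iC (sqz (ch χ x)) = χ x := by
    rw [← map_mul, sqz_mul, iC_ch]
  have h2 : ‖χ x‖ = 1 := AddChar.norm_apply χ x
  rw [← h1, norm_mul] at h2
  have h3 : 0 ≤ ‖iC (sqz (ch χ x))‖ := norm_nonneg _
  nlinarith

theorem ov_eq_so (ψ : A → ℂ) (h : PS A) :
    ov iC (fun r => star (ψ r)) ψ h = iC (sqz (ch h.2 h.1)) * so ψ h := rfl

theorem norm_ov (ψ : A → ℂ) (h : PS A) :
    ‖ov iC (fun r => star (ψ r)) ψ h‖ = ‖so ψ h‖ := by
  rw [ov_eq_so, norm_mul, norm_sqz, one_mul]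

theorem ov_zero_so (ψ : A → ℂ) : ov iC (fun r => star (ψ r)) ψ 0 = so ψ 0 := by
  rw [ov_eq_so, Prod.snd_zero, Prod.fst_zero, ch_zero, sqz_one, map_one, one_mul]

/-- Fiducials in terms of the overlaps. -/
theorem fid_iff (ψ : A → ℂ) : Fid ψ ↔ so ψ 0 = 1 ∧
    ∀ h : PS A, h ≠ 0 → ‖so ψ h‖ = 1 / Real.sqrt ((Fintype.card A : ℝ) + 1) := by
  have hn : (0 : ℝ) < (Fintype.card A : ℝ) + 1 := by positivity
  have hs : 0 < Real.sqrt ((Fintype.card A : ℝ) + 1) := Real.sqrt_pos.2 hn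
  have hprod : ∀ h : PS A, ov iC (fun r => star (ψ r)) ψ h * ov iC (fun r => star (ψ r)) ψ (-h) =
      ((‖so ψ h‖ ^ 2 : ℝ) : ℂ) := by
    intro h
    have h1 := star_ov posStar_complex iC (fun r => star (ψ r)) ψ h
    simp only [star_star] at h1
    rw [← h1, ← norm_ov]
    have h2 := Complex.mul_conj (ov iC (fun r => star (ψ r)) ψ h)
    rw [Complex.normSq_eq_norm_sq] at h2
    exact h2
  constructor
  · intro hf
    refine ⟨by rw [← ov_zero_so]; exact hf.zero, fun h hh => ?_⟩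
    have h1 := hf.mul h
    rw [hprod] at h1
    unfold eps at h1
    rw [if_neg hh] at h1
    have h2 : ((Fintype.card A : ℝ) + 1) * ‖so ψ h‖ ^ 2 = 1 := by exact_mod_cast h1
    rw [eq_div_iff hs.ne']
    have h3 : (‖so ψ h‖ * Real.sqrt ((Fintype.card A : ℝ) + 1)) ^ 2 = 1 := by
      rw [mul_pow, Real.sq_sqrt hn.le, mul_comm]
      exact h2
    have h4 : 0 ≤ ‖so ψ h‖ * Real.sqrt ((Fintype.card A : ℝ) + 1) := by positivity
    nlinarith
  · rintro ⟨h0, h1⟩
    constructor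
    · rw [ov_zero_so]
      exact h0
    · intro h
      rw [hprod]
      unfold eps
      split_ifs with hh
      · rw [hh, h0, norm_one]
        push_cast
        ring
      · rw [h1 h hh, div_pow, Real.sq_sqrt hn.le]
        push_cast
        have : ((Fintype.card A : ℂ) + 1) ≠ 0 := by exact_mod_cast hn.ne'
        field_simp

theorem Fid.smul {ψ : A → ℂ} (h : Fid ψ) {l : ℂ} (hl : star l * l = 1) : Fid (fun r => l * ψ r) := by
  have key : ∀ q : PS A, ov iC (fun r => star (l * ψ r)) (fun r => l * ψ r) q =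
      ov iC (fun r => star (ψ r)) ψ q := by
    intro q
    have e1 : (fun r => star (l * ψ r)) = fun r => star l * star (ψ r) := by
      funext r
      rw [star_mul, mul_comm]
    rw [e1, ov_smul_left, ov_smul_right, ← mul_assoc, hl, one_mul]
  constructor
  · rw [key]
    exact h.zero
  · intro q
    rw [key, key]
    exact h.mul q

theorem Fid.exists_ne {ψ : A → ℂ} (h : Fid ψ) : ∃ s, ψ s ≠ 0 := by
  by_contra hcon
  push Not at hcon
  have h1 := ((fid_iff ψ).1 h).1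
  unfold so at h1
  simp [hcon] at h1

/-- Finitely many fiducials with algebraic coordinates, up to scalars. -/
theorem exists_fid_list (hA : AlgAll A) :
    ∃ F : Set (A → ℂ), F.Finite ∧ (∀ φ ∈ F, Fid φ ∧ ∀ k, IsAlgebraic ℚ (φ k)) ∧
      ∀ ψ, Fid ψ → ∃ φ ∈ F, ∃ c : ℂ, ψ = c • φ := by
  classical
  have hfin := fid_finite hA
  have hrep : ∀ P : {P : A → A → ℂ | ∃ x : A → ℂ, Fid x ∧ P = fun r s => star (x r) * x s},
      ∃ φ : A → ℂ, Fid φ ∧ (∀ r, IsAlgebraic ℚ (φ r)) ∧ P.1 = fun r s => star (φ r) * φ s := by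
    rintro ⟨P, ψ, hψ, rfl⟩
    obtain ⟨s, hs⟩ := hψ.exists_ne
    have hns : (‖ψ s‖ : ℂ) ≠ 0 := by exact_mod_cast norm_ne_zero_iff.mpr hs
    have hmul : star (ψ s) * ψ s = (‖ψ s‖ : ℂ) ^ 2 := by
      have h2 := Complex.mul_conj (ψ s)
      rw [Complex.normSq_eq_norm_sq] at h2
      rw [mul_comm]
      push_cast at h2
      exact h2
    set l : ℂ := star (ψ s) / ‖ψ s‖ with hl
    have hll : star l * l = 1 := by
      have h1 : star l = ψ s / ‖ψ s‖ := by
        rw [hl, star_div₀, star_star]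
        congr 1
        exact Complex.conj_ofReal _
      rw [h1, hl, div_mul_div_comm, mul_comm (ψ s), hmul]
      field_simp
    have hnorm_alg : IsAlgebraic ℚ (‖ψ s‖ : ℂ) := by
      have h1 : IsAlgebraic ℚ ((‖ψ s‖ : ℂ) ^ 2) := by
        rw [← hmul]
        exact fid_algebraic hA hψ s s
      exact IsAlgebraic.of_pow two_pos h1
    refine ⟨fun r => l * ψ r, hψ.smul hll, fun r => ?_, ?_⟩
    · have h3 : l * ψ r = (star (ψ s) * ψ r) * (‖ψ s‖ : ℂ)⁻¹ := by
        rw [hl]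
        field_simp
      show IsAlgebraic ℚ (l * ψ r)
      rw [h3]
      exact (fid_algebraic hA hψ s r).mul hnorm_alg.inv
    · funext r t
      show star (ψ r) * ψ t = star (l * ψ r) * (l * ψ t)
      rw [star_mul]
      linear_combination (-(star (ψ r) * ψ t)) * hll
  choose f hf1 hf2 hf3 using hrep
  haveI := hfin.to_subtype
  refine ⟨Set.range f, Set.finite_range f, ?_, ?_⟩
  · rintro φ ⟨P, rfl⟩
    exact ⟨hf1 P, hf2 P⟩
  · intro ψ hψ
    set P : {P : A → A → ℂ | ∃ x : A → ℂ, Fid x ∧ P = fun r s => star (x r) * x s} :=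
      ⟨fun r s => star (ψ r) * ψ s, ψ, hψ, rfl⟩ with hP
    refine ⟨f P, ⟨P, rfl⟩, ?_⟩
    obtain ⟨s, hs⟩ := hψ.exists_ne
    refine ⟨star (f P s) / star (ψ s), ?_⟩
    have hs' : star (ψ s) ≠ 0 := star_ne_zero.2 hs
    funext r
    have h1 : star (ψ s) * ψ r = star (f P s) * f P r := congrFun (congrFun (hf3 P) s) r
    rw [Pi.smul_apply, smul_eq_mul, div_mul_eq_mul_div, eq_div_iff hs', ← h1]
    ring

end Pool.Agent.SicAb
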