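import Mathlib

/-!
# Expansion of a discrete valuation ring with a coefficient field

A discrete valuation ring `R` with a field `k` mapping bijectively onto the residue field embeds
into `k[[X]]`; constants go to constants, a given uniformiser goes to `X`.
-/

namespace Pool.Agent.SicAb

open PowerSeries

namespace Expand

set_option linter.unusedSectionVars false

variable {R k : Type*} [CommRing R] [IsDomain R] [Field k] (i : k →+* R) (p : R)

/-- The data: every element is a constant plus a multiple of `p`, in exactly one way. -/
private structure Dat : Prop where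
  ex : ∀ a : R, ∃ c : k, ∃ b : R, a = i c + p * b
  un : ∀ c : k, ∀ b : R, i c = p * b → c = 0
  ne : p ≠ 0

variable {i p}

private noncomputable def cf (h : Dat i p) (a : R) : k := (h.ex a).choose

private noncomputable def sf (h : Dat i p) (a : R) : R := (h.ex a).choose_spec.choose

private theorem spec (h : Dat i p) (a : R) : a = i (cf h a) + p * sf h a :=
  (h.ex a).choose_spec.choose_spec

private theorem uniq (h : Dat i p) {a b : R} {c : k} (e : a = i c + p * b) :
    cf h a = c ∧ sf h a = b := by
  have h1 := spec h a
  have h2 : i (cf h a - c) = p * (b - sf h a) := by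
    rw [map_sub, mul_sub]
    linear_combination e - h1
  have h3 : cf h a - c = 0 := h.un _ _ h2
  have h4 : cf h a = c := sub_eq_zero.1 h3
  refine ⟨h4, ?_⟩
  rw [h3, map_zero] at h2
  have h5 : b - sf h a = 0 := by
    rcases mul_eq_zero.1 h2.symm with h6 | h6
    · exact absurd h6 h.ne
    · exact h6
  exact (sub_eq_zero.1 h5).symm

private noncomputable def ff (h : Dat i p) (a : R) : PowerSeries k :=
  PowerSeries.mk fun n => cf h ((sf h)^[n] a)

private theorem ff_succ (h : Dat i p) (a : R) (n : ℕ) :
    coeff (n + 1) (ff h a) = coeff n (ff h (sf h a)) := by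
  simp [ff]

private theorem ff_zero' (h : Dat i p) (a : R) : coeff 0 (ff h a) = cf h a := by
  simp [ff]

private theorem ff_eq (h : Dat i p) (a : R) : ff h a = C (cf h a) + X * ff h (sf h a) := by
  ext n
  rcases n with _ | n
  · rw [ff_zero']
    simp
  · rw [ff_succ, map_add, coeff_succ_X_mul, coeff_C]
    simp

private theorem uc (h : Dat i p) (c : k) : cf h (i c) = c ∧ sf h (i c) = 0 :=
  uniq h (by rw [mul_zero, add_zero])

private theorem uadd (h : Dat i p) (a b : R) :
    cf h (a + b) = cf h a + cf h b ∧ sf h (a + b) = sf h a + sf h b :=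
  uniq h (by
    rw [map_add, mul_add]
    linear_combination spec h a + spec h b)

private theorem umul (h : Dat i p) (a b : R) :
    cf h (a * b) = cf h a * cf h b ∧ sf h (a * b) = sf h a * b + i (cf h a) * sf h b :=
  uniq h (by
    rw [map_mul]
    linear_combination b * spec h a + i (cf h a) * spec h b)

private theorem ff_add (h : Dat i p) (a b : R) : ff h (a + b) = ff h a + ff h b := by
  ext n
  induction n generalizing a b with
  | zero => rw [map_add, ff_zero', ff_zero', ff_zero', (uadd h a b).1]
  | succ n ih => rw [map_add, ff_succ, ff_succ, ff_succ, (uadd h a b).2, ih, map_add]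

private theorem ff_zero (h : Dat i p) : ff h 0 = 0 := by
  have h1 := ff_add h 0 0
  rw [add_zero] at h1
  exact left_eq_add.1 h1

private theorem ff_const (h : Dat i p) (c : k) : ff h (i c) = C c := by
  rw [ff_eq, (uc h c).1, (uc h c).2, ff_zero, mul_zero, add_zero]

private theorem ff_mul (h : Dat i p) (a b : R) : ff h (a * b) = ff h a * ff h b := by
  ext n
  induction n using Nat.strong_induction_on generalizing a b with
  | _ n ih =>
    rcases n with _ | n
    · rw [ff_zero', (umul h a b).1, coeff_zero_eq_constantCoeff_apply, map_mul,
        ← coeff_zero_eq_constantCoeff_apply, ← coeff_zero_eq_constantCoeff_apply, ff_zero',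
        ff_zero']
    · rw [ff_succ, (umul h a b).2, ff_add, map_add, ih n (Nat.lt_succ_self n),
        ih n (Nat.lt_succ_self n), ff_const]
      have e : ff h a * ff h b = C (cf h a) * C (cf h b) + X * (C (cf h a) * ff h (sf h b)) +
          X * (ff h (sf h a) * ff h b) := by
        conv_lhs => rw [ff_eq h a]
        rw [add_mul]
        conv_lhs => 
          congr
          · rw [ff_eq h b]
        ring
      rw [e, map_add, map_add, coeff_succ_X_mul, coeff_succ_X_mul, ← map_mul, coeff_C]
      simp
      ring

/-- The expansion as a ring homomorphism. -/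
private theorem main (h : Dat i p) : ∃ f : R →+* PowerSeries k,
    (∀ a, f a = ff h a) := by
  refine ⟨{ toFun := ff h, map_one' := ?_, map_mul' := ff_mul h, map_zero' := ff_zero h,
            map_add' := ff_add h }, fun _ => rfl⟩
  have := ff_const h 1
  rwa [map_one, map_one] at this

end Expand

/-- A discrete valuation ring with a coefficient field embeds into the power series ring. -/
theorem exists_expand {R k : Type*} [CommRing R] [IsDomain R] [IsDiscreteValuationRing R]
    [Field k] (i : k →+* R)
    (hk : Function.Bijective ((IsLocalRing.residue R).comp i)) {p : R} (hp : Irreducible p) :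
    ∃ f : R →+* PowerSeries k, Function.Injective f ∧
      (∀ c, f (i c) = PowerSeries.C c) ∧ f p = PowerSeries.X := by
  have hmax : IsLocalRing.maximalIdeal R = Ideal.span {p} := hp.maximalIdeal_eq
  have hdat : Expand.Dat i p := by
    refine ⟨fun a => ?_, fun c b e => ?_, hp.ne_zero⟩
    · obtain ⟨c, hc⟩ := hk.2 (IsLocalRing.residue R a)
      have h1 : a - i c ∈ IsLocalRing.maximalIdeal R := by
        rw [← IsLocalRing.residue_eq_zero_iff, map_sub, sub_eq_zero]
        exact hc.symm
      rw [hmax, Ideal.mem_span_singleton] at h1
      obtain ⟨b, hb⟩ := h1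
      exact ⟨c, b, by linear_combination hb⟩
    · have h1 : i c ∈ IsLocalRing.maximalIdeal R := by
        rw [e, hmax]
        exact Ideal.mul_mem_right _ _ (Ideal.mem_span_singleton_self p)
      rw [← IsLocalRing.residue_eq_zero_iff] at h1
      exact hk.1 (by rw [RingHom.comp_apply, h1, map_zero])
  obtain ⟨f, hf⟩ := Expand.main hdat
  refine ⟨f, ?_, fun c => ?_, ?_⟩
  · rw [injective_iff_map_eq_zero]
    intro a ha
    by_contra hne
    obtain ⟨n, hn⟩ := IsDiscreteValuationRing.associated_pow_irreducible hne hp
    have hdiv : ∀ m : ℕ, ∀ b : R, f b = 0 → p ^ m ∣ b := by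
      intro m
      induction m with
      | zero => intro b _; simp
      | succ m ih =>
        intro b hb
        have h1 := Expand.spec hdat b
        have h2 : Expand.cf hdat b = 0 := by
          rw [← Expand.ff_zero' hdat b, ← hf, hb, map_zero]
        have h3 : f (Expand.sf hdat b) = 0 := by
          rw [hf]
          ext n
          rw [← Expand.ff_succ, ← hf, hb]
          simp
        rw [h2, map_zero, zero_add] at h1
        rw [h1, pow_succ']
        exact mul_dvd_mul_left p (ih _ h3)
    have h1 : p ^ (n + 1) ∣ p ^ n := (hdiv (n + 1) a ha).trans hn.dvd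
    have h2 : IsUnit p := by
      have h3 : p ^ n * p ∣ p ^ n * 1 := by rwa [mul_one, ← pow_succ]
      exact isUnit_of_dvd_one ((mul_dvd_mul_iff_left (pow_ne_zero n hp.ne_zero)).1 h3)
    exact hp.not_isUnit h2
  · rw [hf, Expand.ff_const]
  · have h1 := Expand.uniq hdat (a := p) (b := 1) (c := 0) (by rw [map_zero]; ring)
    have h2 := Expand.ff_const hdat 1
    rw [map_one, map_one] at h2
    rw [hf, Expand.ff_eq, h1.1, h1.2, h2, map_zero, zero_add, mul_one]

end Pool.Agent.SicAb
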