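import Pool.Agent.Lib.MP_d0f9e0_co.Ab.Alg
import Pool.Agent.Lib.MP_d0f9e0_co.Fin.Place

/-!
# Finitely many fiducials, with algebraic coordinates
-/

set_option autoImplicit false

namespace Pool.Agent.SicAb

open Finset Polynomial Pool.Agent.SicFin

section germ

/-- Complex conjugation of germs. -/
noncomputable instance : StarRing GermField where
  star := Filter.Germ.map (starRingEnd ℂ)
  star_involutive := by
    intro x
    refine Filter.Germ.inductionOn x fun f => ?_
    show ((fun n => starRingEnd ℂ (starRingEnd ℂ (f n)) : ℕ → ℂ) : GermField) = f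
    simp only [Complex.conj_conj]
  star_mul := by
    intro x y
    refine Filter.Germ.inductionOn₂ x y fun f g => ?_
    show ((fun n => starRingEnd ℂ (f n * g n) : ℕ → ℂ) : GermField) =
      ((fun n => starRingEnd ℂ (g n) * starRingEnd ℂ (f n) : ℕ → ℂ) : GermField)
    simp only [map_mul, mul_comm]
  star_add := by
    intro x y
    refine Filter.Germ.inductionOn₂ x y fun f g => ?_
    show ((fun n => starRingEnd ℂ (f n + g n) : ℕ → ℂ) : GermField) =
      ((fun n => starRingEnd ℂ (f n) + starRingEnd ℂ (g n) : ℕ → ℂ) : GermField)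
    simp only [map_add]

theorem germ_star (f : ℕ → ℂ) :
    star ((f : GermField)) = ((fun n => starRingEnd ℂ (f n) : ℕ → ℂ) : GermField) := rfl

instance : CharZero GermField := by
  refine ⟨fun a b h => ?_⟩
  have h1 : ∀ m : ℕ, (m : GermField) = ((fun _ => (m : ℂ) : ℕ → ℂ) : GermField) := fun m => rfl
  rw [h1, h1] at h
  have h2 := Filter.Germ.coe_eq.mp h
  obtain ⟨n, hn⟩ := h2.exists
  have hn' : (a : ℂ) = (b : ℂ) := hn
  exact_mod_cast hn'

theorem germ_sum {ι : Type*} (s : Finset ι) (f : ι → ℕ → ℂ) :
    ∑ i ∈ s, ((f i : ℕ → ℂ) : GermField) = ((fun n => ∑ i ∈ s, f i n : ℕ → ℂ) : GermField) := by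
  classical
  induction s using Finset.induction_on with
  | empty => rfl
  | insert a s ha ih =>
    rw [Finset.sum_insert ha, ih]
    have : (fun n => ∑ i ∈ insert a s, f i n) = fun n => f a n + ∑ i ∈ s, f i n := by
      funext n
      rw [Finset.sum_insert ha]
    rw [this]
    rfl

instance : IsAlgClosed GermField := by
  refine IsAlgClosed.of_exists_root _ fun p hp hirr => ?_
  have hdeg : 0 < p.natDegree := hirr.natDegree_pos
  have hrep : ∀ i : ℕ, ∃ f : ℕ → ℂ, (f : GermField) = p.coeff i := fun i =>
    Quotient.exists_rep (p.coeff i)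
  choose f hf using hrep
  -- the polynomials at the indices
  have hroot : ∀ n : ℕ, ∃ z : ℂ, ∑ i ∈ range p.natDegree, f i n * z ^ i + z ^ p.natDegree = 0 := by
    intro n
    set q : ℂ[X] := X ^ p.natDegree + ∑ i ∈ range p.natDegree, C (f i n) * X ^ i with hq
    have hqd : (∑ i ∈ range p.natDegree, C (f i n) * X ^ i : ℂ[X]).degree < p.natDegree := by
      refine (Polynomial.degree_sum_le _ _).trans_lt ?_
      rw [Finset.sup_lt_iff (by exact_mod_cast WithBot.bot_lt_coe _)]
      intro i hi
      refine (Polynomial.degree_C_mul_X_pow_le _ _).trans_lt ?_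
      exact_mod_cast mem_range.1 hi
    have hqm : q.degree = p.natDegree := by
      rw [hq, Polynomial.degree_add_eq_left_of_degree_lt, Polynomial.degree_X_pow]
      rwa [Polynomial.degree_X_pow]
    obtain ⟨z, hz⟩ := IsAlgClosed.exists_root q (by
      rw [hqm]
      exact_mod_cast hdeg.ne')
    refine ⟨z, ?_⟩
    rw [hq, IsRoot, eval_add, eval_pow, eval_X, eval_finsetSum] at hz
    simp only [eval_mul, eval_C, eval_pow, eval_X] at hz
    rw [add_comm]
    exact hz
  choose z hz using hroot
  refine ⟨((z : ℕ → ℂ) : GermField), ?_⟩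
  rw [eval_eq_sum_range, Finset.sum_range_succ, hp.coeff_natDegree, one_mul]
  have h1 : ∀ i ∈ range p.natDegree, p.coeff i * ((z : ℕ → ℂ) : GermField) ^ i =
      ((fun n => f i n * z n ^ i : ℕ → ℂ) : GermField) := by
    intro i _
    rw [← hf]
    rfl
  rw [Finset.sum_congr rfl h1, germ_sum]
  show (((fun n => (∑ i ∈ range p.natDegree, f i n * z n ^ i) + z n ^ p.natDegree : ℕ → ℂ)) :
    GermField) = 0
  simp only [hz]
  rfl

theorem posStar_germ : PosStar GermField := by
  classical
  intro α s z h i hi
  have hrep : ∀ i : α, ∃ f : ℕ → ℂ, (f : GermField) = z i := fun i => Quotient.exists_rep (z i)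
  choose f hf using hrep
  have h1 : ∀ i ∈ s, star (z i) * z i =
      ((fun n => starRingEnd ℂ (f i n) * f i n : ℕ → ℂ) : GermField) := by
    intro i _
    rw [← hf]
    rfl
  rw [Finset.sum_congr rfl h1, germ_sum] at h
  have h2 := Filter.Germ.coe_eq.mp h
  rw [← hf]
  refine Filter.Germ.coe_eq.mpr ?_
  filter_upwards [h2] with n hn
  have h3 : ∀ j ∈ s, starRingEnd ℂ (f j n) * f j n = ((Complex.normSq (f j n) : ℝ) : ℂ) := by
    intro j _
    rw [mul_comm, Complex.mul_conj]
  rw [Finset.sum_congr rfl h3, ← Complex.ofReal_sum] at hn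
  have h4 : ∑ j ∈ s, Complex.normSq (f j n) = 0 := by
    have h5 : ((∑ j ∈ s, Complex.normSq (f j n) : ℝ) : ℂ) = ((0 : ℝ) : ℂ) := hn
    exact Complex.ofReal_injective h5
  rw [Finset.sum_eq_zero_iff_of_nonneg fun j _ => Complex.normSq_nonneg _] at h4
  exact Complex.normSq_eq_zero.1 (h4 i hi)

theorem posStar_complex : PosStar ℂ := by
  intro α s z h i hi
  have h3 : ∀ j ∈ s, star (z j) * z j = ((Complex.normSq (z j) : ℝ) : ℂ) := by
    intro j _
    rw [mul_comm]
    exact Complex.mul_conj _
  rw [Finset.sum_congr rfl h3, ← Complex.ofReal_sum] at h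
  have h4 : ∑ j ∈ s, Complex.normSq (z j) = 0 := by
    have h5 : ((∑ j ∈ s, Complex.normSq (z j) : ℝ) : ℂ) = ((0 : ℝ) : ℂ) := h
    exact Complex.ofReal_injective h5
  rw [Finset.sum_eq_zero_iff_of_nonneg fun j _ => Complex.normSq_nonneg _] at h4
  exact Complex.normSq_eq_zero.1 (h4 i hi)

end germ

variable {A : Type} [AddCommGroup A] [Fintype A] [DecidableEq A]

/-- The inclusion of the algebraic numbers. -/
noncomputable def iC : Bz →+* ℂ := algebraMap Bz ℂ

/-- Fiducial vectors over the complex numbers. -/
def Fid (x : A → ℂ) : Prop := IsSol iC (fun r => star (x r)) x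

theorem fid_algebraic (hA : AlgAll A) {x : A → ℂ} (hx : Fid x) (r s : A) :
    IsAlgebraic ℚ (star (x r) * x s) :=
  hA ℂ posStar_complex iC x hx r s

theorem germ_ov (y x : ℕ → A → ℂ) (h : PS A) :
    ov (constGerm.comp iC) (fun r => ((fun n => y n r : ℕ → ℂ) : GermField))
      (fun r => ((fun n => x n r : ℕ → ℂ) : GermField)) h =
      ((fun n => ov iC (y n) (x n) h : ℕ → ℂ) : GermField) := by
  rw [ov_def]
  have h1 : ∀ r : A, ((fun n => y n r : ℕ → ℂ) : GermField) * (constGerm.comp iC) (ch h.2 r) *
      ((fun n => x n (r + h.1) : ℕ → ℂ) : GermField) =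
      ((fun n => y n r * iC (ch h.2 r) * x n (r + h.1) : ℕ → ℂ) : GermField) := fun r => rfl
  rw [Finset.sum_congr rfl fun r _ => h1 r, germ_sum]
  rfl

/-- The set of fiducial projectors is finite. -/
theorem fid_finite (hA : AlgAll A) :
    {P : A → A → ℂ | ∃ x : A → ℂ, Fid x ∧ P = fun r s => star (x r) * x s}.Finite := by
  classical
  by_contra hinf
  have hinf' : {P : A → A → ℂ | ∃ x : A → ℂ, Fid x ∧ P = fun r s => star (x r) * x s}.Infinite :=
    hinf
  obtain ⟨P, hP⟩ : ∃ P : ℕ → {P : A → A → ℂ | ∃ x : A → ℂ, Fid x ∧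
      P = fun r s => star (x r) * x s}, Function.Injective P :=
    ⟨hinf'.natEmbedding, hinf'.natEmbedding.injective⟩
  choose x hx hPx using fun n => (P n).2
  have hsol : IsSol (constGerm.comp iC)
      (fun r => star ((fun n => x n r : ℕ → ℂ) : GermField))
      (fun r => ((fun n => x n r : ℕ → ℂ) : GermField)) := by
    constructor
    · have h1 := germ_ov (fun n r => star (x n r)) x (0 : PS A)
      refine Eq.trans h1 ?_
      have h2 : (fun n => ov iC ((fun n r => star (x n r)) n) (x n) (0 : PS A)) =
          fun _ => (1 : ℂ) := by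
        funext n
        exact (hx n).zero
      rw [h2]
      rfl
    · intro h
      have h1 := germ_ov (fun n r => star (x n r)) x h
      have h2 := germ_ov (fun n r => star (x n r)) x (-h)
      have h3 : ov (constGerm.comp iC)
        (fun r => star ((fun n => x n r : ℕ → ℂ) : GermField))
        (fun r => ((fun n => x n r : ℕ → ℂ) : GermField)) h =
        ((fun n => ov iC (fun r => star (x n r)) (x n) h : ℕ → ℂ) : GermField) := h1
      have h4 : ov (constGerm.comp iC)
        (fun r => star ((fun n => x n r : ℕ → ℂ) : GermField))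
        (fun r => ((fun n => x n r : ℕ → ℂ) : GermField)) (-h) =
        ((fun n => ov iC (fun r => star (x n r)) (x n) (-h) : ℕ → ℂ) : GermField) := h2
      rw [h3, h4]
      have h5 : (fun n => ((Fintype.card A : ℂ) + 1) * (ov iC (fun r => star (x n r)) (x n) h *
          ov iC (fun r => star (x n r)) (x n) (-h))) = fun _ => eps A ℂ h := by
        funext n
        exact (hx n).mul h
      have h6 : ((fun n => ((Fintype.card A : ℂ) + 1) * (ov iC (fun r => star (x n r)) (x n) h *
          ov iC (fun r => star (x n r)) (x n) (-h)) : ℕ → ℂ) : GermField) =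
          ((fun _ => eps A ℂ h : ℕ → ℂ) : GermField) := by rw [h5]
      have h7 : ((fun _ => eps A ℂ h : ℕ → ℂ) : GermField) = eps A GermField h := by
        have := map_eps (A := A) constGerm h
        exact this
      rw [← h7]
      exact h6
  have halg := fun r s => hA GermField posStar_germ (constGerm.comp iC) _ hsol r s
  -- the values of the entries are roots of fixed polynomials for almost all indices
  choose q hq0 hq using halg
  have hev : ∀ r s, ∀ᶠ n in (Filter.hyperfilter ℕ : Filter ℕ),
      aeval (star (x n r) * x n s) (q r s) = 0 := by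
    intro r s
    have h1 := hq r s
    have h2 : ∀ g : ℚ[X], aeval (star ((fun n => x n r : ℕ → ℂ) : GermField) *
        ((fun n => x n s : ℕ → ℂ) : GermField)) g =
        ((fun n => aeval (star (x n r) * x n s) g : ℕ → ℂ) : GermField) := by
      intro g
      induction g using Polynomial.induction_on' with
      | add a b ha hb =>
        rw [map_add, ha, hb]
        simp only [map_add]
        rfl
      | monomial m a =>
        simp only [aeval_monomial]
        have h3 : algebraMap ℚ GermField a = ((fun _ => algebraMap ℚ ℂ a : ℕ → ℂ) : GermField) := by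
          have h4 : algebraMap ℚ GermField a = constGerm (algebraMap ℚ ℂ a) := by
            rw [eq_ratCast, eq_ratCast, map_ratCast]
          rw [h4]
          rfl
        rw [h3]
        rfl
    rw [h2] at h1
    exact Filter.Germ.coe_eq.mp h1
  have hall : ∀ᶠ n in (Filter.hyperfilter ℕ : Filter ℕ), ∀ r s,
      aeval (star (x n r) * x n s) (q r s) = 0 := by
    rw [Filter.eventually_all]
    intro r
    rw [Filter.eventually_all]
    intro s
    exact hev r s
  have hfinset : {Q : A → A → ℂ | ∀ r s, aeval (Q r s) (q r s) = 0}.Finite := by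
    have h0 : ∀ r s, {w : ℂ | aeval w (q r s) = 0}.Finite := by
      intro r s
      refine ((q r s).rootSet_finite ℂ).subset fun w hw => ?_
      rw [mem_rootSet]
      exact ⟨hq0 r s, hw⟩
    have h1 : ∀ r, {g : A → ℂ | ∀ s, g s ∈ {w : ℂ | aeval w (q r s) = 0}}.Finite :=
      fun r => Set.Finite.pi' fun s => h0 r s
    exact Set.Finite.pi' h1
  have hfin : {n : ℕ | ∀ r s, aeval (star (x n r) * x n s) (q r s) = 0}.Finite := by
    refine (hfinset.preimage (f := fun n => (P n : A → A → ℂ))
      (fun a _ b _ h => hP (Subtype.ext h))).subset fun n hn => ?_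
    rw [Set.mem_preimage, Set.mem_ofPred_eq, hPx n]
    exact hn
  exact Filter.notMem_hyperfilter_of_finite hfin hall

end Pool.Agent.SicAb
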