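import Pool.Agent.Lib.MP_d0f9e0_co.S1.Even2

/-!
# Groups containing `ℤ/4 × ℤ/4`
-/

set_option autoImplicit false

namespace Pool.Agent.SicAb

open Finset

variable {A : Type} [AddCommGroup A] [Fintype A] [DecidableEq A]

theorem mem_tw {a : A} : a ∈ tw A ↔ a + a = 0 ∧ ∃ b, a = b + b := by
  unfold tw
  simp

/-- Two independent elements of order two which are divisible by two. -/
theorem exists_emb_of_tw (h : 4 ≤ (tw A).card) :
    ∃ f : ZMod 4 × ZMod 4 →+ A, Function.Injective f := by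
  classical
  -- the first element
  obtain ⟨a₁, h1, h10⟩ : ∃ a ∈ tw A, a ≠ 0 := by
    by_contra hcon
    push Not at hcon
    have h2 : tw A ⊆ {0} := fun a ha => mem_singleton.2 (hcon a ha)
    have := card_le_card h2
    rw [card_singleton] at this
    omega
  obtain ⟨a₂, h2, h20⟩ : ∃ a ∈ tw A, a ∉ ({0, a₁} : Finset A) := by
    by_contra hcon
    push Not at hcon
    have h3 : tw A ⊆ {0, a₁} := fun a ha => hcon a ha
    have h4 := card_le_card h3
    have h5 : ({0, a₁} : Finset A).card ≤ 2 := card_le_two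
    omega
  rw [mem_insert, mem_singleton, not_or] at h20
  obtain ⟨h1t, b₁, hb₁⟩ := mem_tw.1 h1
  obtain ⟨h2t, b₂, hb₂⟩ := mem_tw.1 h2
  have hz1 : (4 : ℤ) • b₁ = 0 := by
    have : (4 : ℤ) • b₁ = (b₁ + b₁) + (b₁ + b₁) := by
      rw [show (4 : ℤ) = 2 + 2 from rfl, add_smul, two_smul]
    rw [this, ← hb₁, h1t]
  have hz2 : (4 : ℤ) • b₂ = 0 := by
    have : (4 : ℤ) • b₂ = (b₂ + b₂) + (b₂ + b₂) := by
      rw [show (4 : ℤ) = 2 + 2 from rfl, add_smul, two_smul]
    rw [this, ← hb₂, h2t]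
  let f₁ : ZMod 4 →+ A := ZMod.lift 4 ⟨zmultiplesHom A b₁, by simpa using hz1⟩
  let f₂ : ZMod 4 →+ A := ZMod.lift 4 ⟨zmultiplesHom A b₂, by simpa using hz2⟩
  have hf₁ : ∀ m : ℤ, f₁ (m : ZMod 4) = m • b₁ := fun m => by
    simp [f₁, ZMod.lift_coe]
  have hf₂ : ∀ m : ℤ, f₂ (m : ZMod 4) = m • b₂ := fun m => by
    simp [f₂, ZMod.lift_coe]
  refine ⟨f₁.coprod f₂, ?_⟩
  rw [injective_iff_map_eq_zero]
  rintro ⟨x, y⟩ hxy
  have h0 : f₁ x + f₂ y = 0 := hxy
  have e1 : ∀ x : ZMod 4, f₁ x = if x = 0 then 0 else if x = 1 then b₁ else if x = 2 then b₁ + b₁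
      else b₁ + b₁ + b₁ := by
    intro x
    have h0 := hf₁ 0
    have h1 := hf₁ 1
    have h2 := hf₁ 2
    have h3 := hf₁ 3
    rw [zero_smul] at h0
    rw [one_smul] at h1
    rw [two_smul] at h2
    rw [show (3 : ℤ) = 2 + 1 from rfl, add_smul, two_smul, one_smul] at h3
    fin_cases x
    · exact h0
    · exact h1
    · exact h2
    · exact h3
  have e2 : ∀ x : ZMod 4, f₂ x = if x = 0 then 0 else if x = 1 then b₂ else if x = 2 then b₂ + b₂
      else b₂ + b₂ + b₂ := by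
    intro x
    have h0 := hf₂ 0
    have h1 := hf₂ 1
    have h2 := hf₂ 2
    have h3 := hf₂ 3
    rw [zero_smul] at h0
    rw [one_smul] at h1
    rw [two_smul] at h2
    rw [show (3 : ℤ) = 2 + 1 from rfl, add_smul, two_smul, one_smul] at h3
    fin_cases x
    · exact h0
    · exact h1
    · exact h2
    · exact h3
  -- double the relation
  have hd : f₁ (x + x) + f₂ (y + y) = 0 := by
    have : f₁ (x + x) + f₂ (y + y) = (f₁ x + f₂ y) + (f₁ x + f₂ y) := by
      rw [map_add, map_add]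
      abel
    rw [this, h0, add_zero]
  have hdec : ∀ z : ZMod 4, z + z = 0 ∨ z + z = 2 := by decide
  have hdec2 : ∀ z : ZMod 4, z + z = 0 → z = 0 ∨ z = 2 := by decide
  have hx2 := hdec x
  have hy2 := hdec y
  have g1 : f₁ 2 = a₁ := by
    rw [e1, hb₁]
    rfl
  have g2 : f₂ 2 = a₂ := by
    rw [e2, hb₂]
    rfl
  have key : x + x = 0 ∧ y + y = 0 := by
    rcases hx2 with hx | hx <;> rcases hy2 with hy | hy
    · exact ⟨hx, hy⟩
    · rw [hx, hy, map_zero, zero_add, g2] at hd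
      exact absurd hd h20.1
    · rw [hx, hy, map_zero, add_zero, g1] at hd
      exact absurd hd h10
    · rw [hx, hy, g1, g2] at hd
      exfalso
      apply h20.2
      have : a₁ + a₂ = a₁ + a₁ := by rw [hd, h1t]
      exact add_left_cancel this
  have hx4 : x = 0 ∨ x = 2 := hdec2 x key.1
  have hy4 : y = 0 ∨ y = 2 := hdec2 y key.2
  rcases hx4 with hx | hx <;> rcases hy4 with hy | hy
  · rw [hx, hy]
    rfl
  · rw [hx, hy, map_zero, zero_add, g2] at h0
    exact absurd h0 h20.1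
  · rw [hx, hy, map_zero, add_zero, g1] at h0
    exact absurd h0 h10
  · rw [hx, hy, g1, g2] at h0
    exfalso
    apply h20.2
    have : a₁ + a₂ = a₁ + a₁ := by rw [h0, h1t]
    exact add_left_cancel this

end Pool.Agent.SicAb
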