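import Pool.Agent.Lib.MP_d0f9e0_co.Ab.Dict
import Pool.Agent.Lib.MP_d0f9e0_co.Fin.Reindex

/-!
# Homogeneous frames in prime dimension
-/

set_option autoImplicit false

namespace Pool.Agent.SicAb

open Finset Matrix

variable {A : Type} [AddCommGroup A] [Fintype A] [DecidableEq A]

/-- Homogeneous maximal frames in prime dimension are orbits of fiducials. -/
theorem homogeneous_form (hp : (Fintype.card A).Prime) {ι : Type}
    (hι : Nat.card ι = Fintype.card A ^ 2) {x : ι → (A → ℂ)}
    (h1 : ∀ i, ∑ k, x i k * star (x i k) = 1)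
    (h2 : ∀ i j, i ≠ j → ‖∑ k, x i k * star (x j k)‖ = 1 / Real.sqrt ((Fintype.card A : ℝ) + 1))
    (htr : ∀ i j, ∃ U ∈ Matrix.unitaryGroup A ℂ,
      (∀ k, ∃ l, ∃ c : ℂ, U.mulVec (x k) = c • x l) ∧ ∃ c : ℂ, U.mulVec (x i) = c • x j) :
    ∃ ψ : A → ℂ, Fid ψ ∧ ∃ e : ι ≃ A × AddChar A ℂ, ∃ W ∈ Matrix.unitaryGroup A ℂ,
      ∀ i, ∃ c : ℂ, W.mulVec (x i) = c • fun k => (e i).2 k * ψ (k + (e i).1) := by
  obtain ⟨p, hpA⟩ : ∃ p, p = Fintype.card A := ⟨_, rfl⟩
  rw [← hpA] at hp hι
  haveI : Fact p.Prime := ⟨hp⟩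
  have hcyc : IsAddCyclic A := isAddCyclic_of_prime_card (p := p) (by
    rw [Nat.card_eq_fintype_card]
    exact hpA.symm)
  have hcard : Nat.card A = p := by rw [Nat.card_eq_fintype_card, hpA]
  obtain ⟨g⟩ : Nonempty (ZMod p ≃+ A) := by
    have := zmodAddCyclicAddEquiv hcyc
    rw [hcard] at this
    exact ⟨this⟩
  set om : ℂ := Complex.exp (2 * Real.pi * Complex.I / p) with hom'
  have hom : IsPrimitiveRoot om p := Complex.isPrimitiveRoot_exp p hp.ne_zero
  -- transport to `ZMod p`
  set x' : ι → (ZMod p → ℂ) := fun i k => x i (g k) with hx'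
  have hip : ∀ i j, SicFin.ipz (x' i) (x' j) = ∑ k, x i k * star (x j k) := by
    intro i j
    unfold SicFin.ipz
    exact Fintype.sum_equiv g.toEquiv _ _ fun k => rfl
  have hmv : ∀ (U : Matrix A A ℂ) (v : A → ℂ),
      (U.submatrix g g).mulVec (fun k => v (g k)) = fun k => U.mulVec v (g k) := by
    intro U v
    funext k
    simp only [Matrix.mulVec, dotProduct, Matrix.submatrix_apply]
    exact Fintype.sum_equiv g.toEquiv _ _ fun k => rfl
  have hsub : ∀ U ∈ Matrix.unitaryGroup A ℂ,
      U.submatrix g g ∈ Matrix.unitaryGroup (ZMod p) ℂ := by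
    intro U hU
    rw [Matrix.mem_unitaryGroup_iff] at hU ⊢
    have e1 : star (U.submatrix g g) = (star U).submatrix g g := rfl
    have e2 := Matrix.submatrix_mul_equiv U (star U) (g.toEquiv : ZMod p → A) g.toEquiv
      (g.toEquiv : ZMod p → A)
    rw [e1]
    refine e2.trans ?_
    rw [hU]
    exact Matrix.submatrix_one_equiv g.toEquiv
  obtain ⟨ψ', hψ', e', W', hW', hWx⟩ := SicFin.exists_form_reindexed hom hι (x := x')
    (fun i => by rw [hip]; exact h1 i)
    (fun i j hij => by rw [hip, hpA]; exact h2 i j hij)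
    (fun i j => by
      obtain ⟨U, hU, hperm, c, hc⟩ := htr i j
      refine ⟨U.submatrix g g, hsub U hU, fun k => ?_, c, ?_⟩
      · obtain ⟨l, c', hc'⟩ := hperm k
        refine ⟨l, c', ?_⟩
        rw [hx']
        simp only
        rw [hmv, hc']
        rfl
      · rw [hx']
        simp only
        rw [hmv, hc]
        rfl)
  -- the characters of `A`
  have hchi : ∀ b : ZMod p, ∀ k l : A, SicFin.chi om (b * g.symm (k + l)) =
      SicFin.chi om (b * g.symm k) * SicFin.chi om (b * g.symm l) := by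
    intro b k l
    rw [map_add, mul_add, SicFin.chi_add hom.pow_eq_one]
  let cb : ZMod p → AddChar A ℂ := fun b =>
    { toFun := fun k => SicFin.chi om (b * g.symm k)
      map_zero_eq_one' := by
        rw [map_zero, mul_zero, SicFin.chi_zero]
      map_add_eq_mul' := hchi b }
  have hcb : ∀ b k, cb b k = SicFin.chi om (b * g.symm k) := fun b k => rfl
  have hinj : Function.Injective cb := by
    intro b b' hbb
    have e1 := DFunLike.congr_fun hbb (g 1)
    rw [hcb, hcb, AddEquiv.symm_apply_apply, mul_one, mul_one] at e1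
    unfold SicFin.chi at e1
    have e2 := hom.pow_inj (ZMod.val_lt b) (ZMod.val_lt b') e1
    exact ZMod.val_injective p e2
  have hbij : Function.Bijective cb := by
    rw [Fintype.bijective_iff_injective_and_card]
    refine ⟨hinj, ?_⟩
    rw [AddChar.card_eq, ZMod.card, hpA]
  let E : ZMod p × ZMod p ≃ A × AddChar A ℂ :=
    Equiv.prodCongr g.toEquiv (Equiv.ofBijective cb hbij)
  set ψ : A → ℂ := fun k => ψ' (g.symm k) with hψ
  -- overlaps
  have hso : ∀ (a : A) (b : ZMod p), (starRingEnd ℂ) (so ψ (a, cb b)) =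
      SicFin.ov om ψ' (fun r => (starRingEnd ℂ) (ψ' r)) (g.symm a) (-b) := by
    intro a b
    unfold so SicFin.ov SicFin.ft
    rw [map_sum]
    refine (Fintype.sum_equiv g.toEquiv _ _ fun k => ?_).symm
    simp only [AddEquiv.toEquiv_eq_coe, AddEquiv.coe_toEquiv, map_mul, hcb, hψ,
      AddEquiv.symm_apply_apply, map_add]
    rw [SicFin.conj_om hom.pow_eq_one, neg_mul]
    have e3 : (starRingEnd ℂ) (star (ψ' k)) = ψ' k := star_star (ψ' k)
    rw [e3]
    ring
  refine ⟨ψ, ?_, e'.trans E, W'.submatrix g.symm g.symm, ?_, ?_⟩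
  · rw [fid_iff]
    constructor
    · have e1 := hso 0 0
      rw [map_zero, neg_zero, hψ'.1] at e1
      have e2 : cb 0 = 0 := by
        ext k
        rw [hcb, zero_mul, SicFin.chi_zero]
        rfl
      rw [e2] at e1
      have e3 := congrArg (starRingEnd ℂ) e1
      rw [Complex.conj_conj, map_one] at e3
      exact e3
    · rintro ⟨a, χ⟩ hne
      obtain ⟨b, rfl⟩ := hbij.2 χ
      have e1 := hso a b
      have e2 : ‖so ψ (a, cb b)‖ = ‖SicFin.ov om ψ' (fun r => (starRingEnd ℂ) (ψ' r)) (g.symm a) (-b)‖ := by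
        rw [← e1, RCLike.norm_conj]
      rw [e2]
      have e3 := hψ'.2 (g.symm a) (-b) (by
        by_contra hcon
        push Not at hcon
        apply hne
        have e4 : a = 0 := by
          have := hcon.1
          rwa [EmbeddingLike.map_eq_zero_iff] at this
        have e5 : b = 0 := neg_eq_zero.1 hcon.2
        rw [e4, e5]
        have e6 : cb 0 = 0 := by
          ext k
          rw [hcb, zero_mul, SicFin.chi_zero]
          rfl
        rw [e6]
        rfl)
      have e7 := SicFin.norm_of_sq e3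
      rw [← hpA]
      exact e7
  · rw [Matrix.mem_unitaryGroup_iff] at hW' ⊢
    have e1 : star (W'.submatrix g.symm g.symm) = (star W').submatrix g.symm g.symm := rfl
    have e2 := Matrix.submatrix_mul_equiv W' (star W') (g.symm.toEquiv : A → ZMod p) g.symm.toEquiv
      (g.symm.toEquiv : A → ZMod p)
    rw [e1]
    refine e2.trans ?_
    rw [hW']
    exact Matrix.submatrix_one_equiv g.symm.toEquiv
  · intro i
    obtain ⟨c, hc⟩ := hWx i
    refine ⟨c, ?_⟩
    funext k
    have e1 : (W'.submatrix g.symm g.symm).mulVec (x i) k = W'.mulVec (x' i) (g.symm k) := by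
      simp only [Matrix.mulVec, dotProduct, Matrix.submatrix_apply]
      refine Fintype.sum_equiv g.symm.toEquiv _ _ fun l => ?_
      simp [hx']
    rw [e1, hc]
    simp only [Pi.smul_apply, SicFin.wh, smul_eq_mul]
    congr 1
    have e2 : (e'.trans E) i = (g (e' i).1, cb (e' i).2) := rfl
    rw [e2]
    simp only [hcb, hψ, map_add, AddEquiv.symm_apply_apply]

end Pool.Agent.SicAb
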