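import Mathlib

/-!
# A relatively algebraically closed subfield of transcendence codegree one

In an algebraically closed field `K` of characteristic zero with a transcendental element `t`
there is an algebraically closed subfield `k0` such that `t` is transcendental over `k0` and `K`
is algebraic over `k0(t)`.
-/

namespace Pool.Agent.SicAb

open Finset

/-- Algebraicity over a smaller subfield passes to a bigger one. -/
theorem isAlgebraic_mono {K : Type*} [Field K] {E F : Subfield K} (hEF : E ≤ F) {z : K}
    (h : IsAlgebraic E z) : IsAlgebraic F z := by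
  obtain ⟨p, hp, hz⟩ := h
  refine ⟨p.map (Subfield.inclusion hEF), ?_, ?_⟩
  · rw [ne_eq, Polynomial.map_eq_zero_iff (Subfield.inclusion hEF).injective]
    exact hp
  · rw [Polynomial.aeval_def, Polynomial.eval₂_map]
    rw [Polynomial.aeval_def] at hz
    exact hz

theorem exists_closed_subfield {K : Type*} [Field K] [CharZero K] [IsAlgClosed K] {t : K}
    (htr : Transcendental ℚ t) :
    ∃ k0 : Subfield K, IsAlgClosed k0 ∧ (∀ z : K, IsAlgebraic ℚ z → z ∈ k0) ∧
      Transcendental k0 t ∧
      ∀ z : K, IsAlgebraic (IntermediateField.adjoin k0 ({t} : Set K)) z := by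
  classical
  have hind : AlgebraicIndepOn ℚ id ({t} : Set K) := by
    have h1 : AlgebraicIndependent ℚ (fun i : ({t} : Set K) => (i : K)) := by
      rw [algebraicIndependent_singleton_iff (⟨t, rfl⟩ : ({t} : Set K))]
      exact htr
    exact h1
  obtain ⟨s, hts, hs⟩ := exists_isTranscendenceBasis_superset hind
  have ht : t ∈ s := hts rfl
  set J : Set K := s \ {t} with hJ
  set E := IntermediateField.adjoin ℚ J with hE
  set k1 : IntermediateField E K := algebraicClosure E K with hk1
  have hcl : IsAlgClosed k1 := by
    have := IsAlgClosure.isAlgClosed E (K := k1)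
    exact this
  set k0 : Subfield K := k1.toSubfield with hk0
  have hmem : ∀ z : K, z ∈ k0 ↔ IsAlgebraic E z := by
    intro z
    change z ∈ k1 ↔ _
    rw [hk1, mem_algebraicClosure_iff]
  have hcl0 : IsAlgClosed k0 := hcl
  refine ⟨k0, hcl0, ?_, ?_, ?_⟩
  · intro z hz
    rw [hmem]
    exact hz.tower_top E
  · intro halg
    have h1 : IsAlgebraic k1 t := halg
    have h2 : IsAlgebraic E t := h1.restrictScalars E
    have h3 : IsAlgebraic (Algebra.adjoin ℚ J) t :=
      IntermediateField.isAlgebraic_adjoin_iff.mp h2
    have h4 := hs.1.transcendental_adjoin (s := {i : s | (i : K) ≠ t}) (i := ⟨t, ht⟩)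
      (fun h => h rfl)
    have h5 : (fun i : s => (i : K)) '' {i : s | (i : K) ≠ t} = J := by
      ext z
      constructor
      · rintro ⟨i, hi, rfl⟩
        exact ⟨i.2, hi⟩
      · rintro ⟨hz, hz2⟩
        exact ⟨⟨z, hz⟩, hz2, rfl⟩
    have h6 : Transcendental (Algebra.adjoin ℚ J) t := by
      rw [← h5]
      exact h4
    exact h6 h3
  · intro z
    have halg := hs.isAlgebraic_field
    have h1 : IsAlgebraic (IntermediateField.adjoin ℚ (Set.range (fun i : s => (i : K)))) z :=
      halg.isAlgebraic z
    have h2 : IsAlgebraic (IntermediateField.adjoin ℚ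
        (Set.range (fun i : s => (i : K)))).toSubfield z := h1
    have hgen : ∀ i : s, (i : K) ∈ (IntermediateField.adjoin k0 ({t} : Set K)).toSubfield := by
      intro i
      by_cases hi : (i : K) = t
      · have h7 : t ∈ IntermediateField.adjoin k0 ({t} : Set K) :=
          IntermediateField.subset_adjoin k0 ({t} : Set K) (Set.mem_singleton t)
        rw [hi]
        exact h7
      · have h6 : (i : K) ∈ E := IntermediateField.subset_adjoin ℚ J ⟨i.2, hi⟩
        have h5 : (i : K) ∈ k0 := (hmem _).mpr (isAlgebraic_algebraMap (⟨i, h6⟩ : E))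
        exact (IntermediateField.adjoin k0 ({t} : Set K)).algebraMap_mem ⟨i, h5⟩
    have h3 : (IntermediateField.adjoin ℚ (Set.range (fun i : s => (i : K)))).toSubfield ≤
        (IntermediateField.adjoin k0 ({t} : Set K)).toSubfield := by
      intro w hw
      have hw' : w ∈ IntermediateField.adjoin ℚ (Set.range (fun i : s => (i : K))) := hw
      induction hw' using IntermediateField.adjoin_induction with
      | mem x hx =>
        obtain ⟨i, rfl⟩ := hx
        exact hgen i
      | algebraMap x => 
        rw [eq_ratCast]
        exact SubfieldClass.ratCast_mem _ x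
      | add x y hx hy ihx ihy => exact add_mem (ihx hx) (ihy hy)
      | inv x hx ihx => exact inv_mem (ihx hx)
      | mul x y hx hy ihx ihy => exact mul_mem (ihx hx) (ihy hy)
    exact isAlgebraic_mono h3 h2

end Pool.Agent.SicAb
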