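import Pool.Agent.Lib.MP_d0f9e0_co.Ab.Expand

/-!
# Laurent expansions of a finite extension

`A` is a Dedekind domain with fraction field `F`, `p` an element such that the algebraically
closed field `k` maps onto `A / p`.  Every finite separable extension of `F` embeds into the
Laurent series over `k`, with `p` going to a series of positive order.
-/

namespace Pool.Agent.SicAb

open IsLocalRing

/-- Every element of `B` is congruent to a constant modulo a maximal ideal over `p`. -/
theorem exists_const {k A B : Type*} [Field k] [IsAlgClosed k] [CommRing A] [CommRing B]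
    [Algebra A B] [Algebra.IsIntegral A B] (i : k →+* A) {p : A}
    (hres : ∀ a : A, ∃ c : k, p ∣ a - i c) (P : Ideal B) [P.IsMaximal]
    (hpP : algebraMap A B p ∈ P) (b : B) : ∃ c : k, b - algebraMap A B (i c) ∈ P := by
  set I : Ideal A := Ideal.span {p} with hI
  have hIP : ∀ a ∈ I, (Ideal.Quotient.mk P).comp (algebraMap A B) a = 0 := by
    intro a ha
    rw [hI, Ideal.mem_span_singleton] at ha
    obtain ⟨d, rfl⟩ := ha
    rw [RingHom.comp_apply, map_mul, Ideal.Quotient.eq_zero_iff_mem]
    exact P.mul_mem_right _ hpP
  set g : A ⧸ I →+* B ⧸ P := Ideal.Quotient.lift I ((Ideal.Quotient.mk P).comp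
    (algebraMap A B)) hIP with hg
  have hgπ : g.comp (Ideal.Quotient.mk I) = (Ideal.Quotient.mk P).comp (algebraMap A B) := by
    ext a
    rw [hg]
    simp
  have h1 : (g.comp (Ideal.Quotient.mk I)).IsIntegral := by
    rw [hgπ]
    have h2 : (algebraMap A B).IsIntegral := Algebra.IsIntegral.isIntegral
    exact h2.trans _ _ (RingHom.isIntegral_of_surjective _ Ideal.Quotient.mk_surjective)
  have h3 : g.IsIntegral := RingHom.IsIntegral.tower_top _ _ h1
  have h4 : ((Ideal.Quotient.mk I).comp i).IsIntegral := by
    apply RingHom.isIntegral_of_surjective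
    intro z
    obtain ⟨a, rfl⟩ := Ideal.Quotient.mk_surjective z
    obtain ⟨c, hc⟩ := hres a
    refine ⟨c, ?_⟩
    rw [RingHom.comp_apply, eq_comm, Ideal.Quotient.eq, hI, Ideal.mem_span_singleton]
    exact hc
  have h5 : (g.comp ((Ideal.Quotient.mk I).comp i)).IsIntegral := h4.trans _ _ h3
  set φ : k →+* B ⧸ P := g.comp ((Ideal.Quotient.mk I).comp i) with hφ
  let _ := φ.toAlgebra
  have h6 : Algebra.IsIntegral k (B ⧸ P) := ⟨h5⟩
  have h7 := (IsAlgClosed.algebraMap_bijective_of_isIntegral (k := k) (K := B ⧸ P)).2
    (Ideal.Quotient.mk P b)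
  obtain ⟨c, hc⟩ := h7
  refine ⟨c, ?_⟩
  rw [← Ideal.Quotient.eq, ← hc]
  change _ = φ c
  rw [hφ, ← RingHom.comp_assoc, hgπ]
  rfl

theorem order_X_mul_pos {k : Type*} [Field k] {q : PowerSeries k}
    (hq : PowerSeries.X * q ≠ 0) :
    0 < (HahnSeries.ofPowerSeries ℤ k (PowerSeries.X * q)).order := by
  set z := HahnSeries.ofPowerSeries ℤ k (PowerSeries.X * q) with hz
  have hz0 : z ≠ 0 := by
    rw [hz, ne_eq, map_eq_zero_iff _ HahnSeries.ofPowerSeries_injective]
    exact hq
  by_contra hlt
  push Not at hlt
  have h1 : z.coeff z.order ≠ 0 := fun h => hz0 (HahnSeries.coeff_order_eq_zero.1 h)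
  apply h1
  have h2 := PowerSeries.coeff_coe (PowerSeries.X * q) z.order
  rw [← hz] at h2
  rw [h2]
  split_ifs with h3
  · rfl
  · have h4 : z.order.natAbs = 0 := by omega
    rw [h4, PowerSeries.coeff_zero_X_mul]

theorem exists_laurent_of_finite {k A F K' : Type*} [Field k] [IsAlgClosed k] [CommRing A]
    [IsDedekindDomain A] [Field F] [Field K'] [Algebra A F] [IsFractionRing A F]
    [Algebra F K'] [Algebra A K'] [IsScalarTower A F K'] [FiniteDimensional F K']
    [Algebra.IsSeparable F K'] (i : k →+* A) {p : A} (hp0 : p ≠ 0) (hpu : ¬ IsUnit p)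
    (hres : ∀ a : A, ∃ c : k, p ∣ a - i c) :
    ∃ e : K' →+* LaurentSeries k, (∀ c, e (algebraMap A K' (i c)) = HahnSeries.C c) ∧
      0 < (e (algebraMap A K' p)).order := by
  classical
  let B := integralClosure A K'
  have hded : IsDedekindDomain B := integralClosure.isDedekindDomain A F K'
  have hfr : IsFractionRing B K' := integralClosure.isFractionRing_of_finite_extension F K'
  have hAK : Function.Injective (algebraMap A K') := by
    rw [IsScalarTower.algebraMap_eq A F K', RingHom.coe_comp]
    exact (algebraMap F K').injective.comp (IsFractionRing.injective A F)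
  have hAB : Function.Injective (algebraMap A B) := by
    have h1 : Function.Injective ((algebraMap B K').comp (algebraMap A B)) := by
      rw [← IsScalarTower.algebraMap_eq A B K']
      exact hAK
    exact Function.Injective.of_comp (f := algebraMap B K') h1
  have hfs : FaithfulSMul A B := (faithfulSMul_iff_algebraMap_injective A B).mpr hAB
  -- a maximal ideal over p
  obtain ⟨m, hm, hpm⟩ := exists_max_ideal_of_mem_nonunits hpu
  obtain ⟨P, hP, hPm⟩ := Ideal.exists_maximal_ideal_liesOver_of_isIntegral (S := B) m
  have hpP : algebraMap A B p ∈ P := by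
    have h1 : p ∈ P.under A := by
      rw [← hPm.over]
      exact hpm
    exact h1
  have hpB : algebraMap A B p ≠ 0 := by
    rw [ne_eq, map_eq_zero_iff _ hAB]
    exact hp0
  have hP0 : P ≠ ⊥ := by
    intro h0
    rw [h0, Ideal.mem_bot] at hpP
    exact hpB hpP
  let R := Localization.AtPrime P
  have hdvr : IsDiscreteValuationRing R :=
    IsLocalization.AtPrime.isDiscreteValuationRing_of_dedekind_domain B hP0 R
  have hBR : Function.Injective (algebraMap B R) :=
    IsLocalization.injective R (Ideal.primeCompl_le_nonZeroDivisors P)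
  set j : k →+* R := (algebraMap B R).comp ((algebraMap A B).comp i) with hj
  have hbij : Function.Bijective ((residue R).comp j) := by
    refine ⟨RingHom.injective _, ?_⟩
    intro z
    obtain ⟨w, rfl⟩ := (IsLocalization.AtPrime.equivQuotMaximalIdeal P R).surjective z
    obtain ⟨b, rfl⟩ := Ideal.Quotient.mk_surjective w
    obtain ⟨c, hc⟩ := exists_const i hres P hpP b
    refine ⟨c, ?_⟩
    rw [IsLocalization.AtPrime.equivQuotMaximalIdeal_apply_mk]
    change residue R (algebraMap B R (algebraMap A B (i c))) = residue R (algebraMap B R b)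
    have h1 : algebraMap B R (b - algebraMap A B (i c)) ∈ maximalIdeal R := by
      have h2 : (maximalIdeal R).under B = P := IsLocalization.AtPrime.under_maximalIdeal R P
      have h3 : b - algebraMap A B (i c) ∈ (maximalIdeal R).under B := by
        rw [h2]
        exact hc
      exact h3
    rw [eq_comm, ← sub_eq_zero, ← map_sub, ← map_sub, residue_eq_zero_iff]
    exact h1
  obtain ⟨ϖ, hϖ⟩ := IsDiscreteValuationRing.exists_irreducible R
  obtain ⟨f, hfinj, hfc, hfϖ⟩ := exists_expand j hbij hϖ
  have hps : Function.Injective (algebraMap (PowerSeries k) (LaurentSeries k)) :=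
    IsFractionRing.injective _ _
  set g : B →+* LaurentSeries k :=
    (algebraMap (PowerSeries k) (LaurentSeries k)).comp (f.comp (algebraMap B R)) with hg
  have hginj : Function.Injective g := hps.comp (hfinj.comp hBR)
  refine ⟨IsFractionRing.lift hginj, ?_, ?_⟩
  · intro c
    rw [IsScalarTower.algebraMap_apply A B K', IsFractionRing.lift_algebraMap]
    have h1 : g (algebraMap A B (i c)) =
        algebraMap (PowerSeries k) (LaurentSeries k) (f (j c)) := rfl
    rw [h1, hfc, LaurentSeries.coe_algebraMap, HahnSeries.ofPowerSeries_C]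
  · rw [IsScalarTower.algebraMap_apply A B K', IsFractionRing.lift_algebraMap]
    have h1 : algebraMap B R (algebraMap A B p) ∈ maximalIdeal R := by
      have h2 : (maximalIdeal R).under B = P := IsLocalization.AtPrime.under_maximalIdeal R P
      have h3 : algebraMap A B p ∈ (maximalIdeal R).under B := by
        rw [h2]
        exact hpP
      exact h3
    rw [hϖ.maximalIdeal_eq, Ideal.mem_span_singleton] at h1
    obtain ⟨d, hd⟩ := h1
    have h4 : g (algebraMap A B p) =
        algebraMap (PowerSeries k) (LaurentSeries k) (PowerSeries.X * f d) := by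
      change algebraMap (PowerSeries k) (LaurentSeries k)
        (f (algebraMap B R (algebraMap A B p))) = _
      rw [hd, map_mul, hfϖ]
    have h5 : f d ≠ 0 := by
      intro h0
      have h6 : g (algebraMap A B p) = 0 := by
        rw [h4, h0, mul_zero, map_zero]
      rw [map_eq_zero_iff _ hginj] at h6
      exact hpB h6
    rw [h4, LaurentSeries.coe_algebraMap]
    exact order_X_mul_pos (mul_ne_zero PowerSeries.X_ne_zero h5)

end Pool.Agent.SicAb
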