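import Pool.Agent.Lib.MP_d0f9e0_co.Ab.Sys
import Pool.Agent.Lib.MP_d0f9e0_co.Ab.PlaceField
import Pool.Agent.Lib.MP_d0f9e0_co.Ab.PlaceVal

/-!
# Laurent expansions at a place where a transcendental element has a pole
-/

namespace Pool.Agent.SicAb

open Polynomial
open scoped IntermediateField.algebraAdjoinAdjoin

section adj

variable {k K : Type*} [Field k] [Field K] [Algebra k K] (u : K)

/-- The generator of `k[u]`. -/
abbrev gen : Algebra.adjoin k ({u} : Set K) := ⟨u, Algebra.self_mem_adjoin_singleton k u⟩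

/-- Elements of `k[u]` are values of polynomials. -/
theorem adjoin_surj (a : Algebra.adjoin k ({u} : Set K)) :
    ∃ q : k[X], aeval (gen (k := k) u) q = a := by
  have h1 : (a : K) ∈ (aeval (R := k) u).range := by
    rw [← Algebra.adjoin_singleton_eq_range_aeval]
    exact a.2
  obtain ⟨q, hq⟩ := h1
  refine ⟨q, Subtype.ext ?_⟩
  have h2 := Polynomial.aeval_algHom_apply (Algebra.adjoin k ({u} : Set K)).val (gen (k := k) u) q
  have h3 : aeval (R := k) u q = (a : K) := hq
  rw [← h3]
  exact h2.symm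

theorem adjoin_res (a : Algebra.adjoin k ({u} : Set K)) :
    ∃ c : k, gen (k := k) u ∣ a - algebraMap k _ c := by
  obtain ⟨q, rfl⟩ := adjoin_surj u a
  refine ⟨q.coeff 0, ⟨aeval (gen (k := k) u) q.divX, ?_⟩⟩
  have h1 := congrArg (aeval (gen (k := k) u)) (Polynomial.divX_mul_X_add q)
  rw [map_add, map_mul, aeval_X, aeval_C] at h1
  rw [← h1]
  ring

theorem adjoin_not_unit (hu : Transcendental k u) : ¬ IsUnit (gen (k := k) u) := by
  intro h
  obtain ⟨v, hv⟩ := h.exists_right_inv
  obtain ⟨q, rfl⟩ := adjoin_surj u v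
  apply hu
  refine ⟨X * q - 1, ?_, ?_⟩
  · intro h0
    have h1 := congrArg (fun P : k[X] => P.coeff 0) h0
    simp at h1
  · have h2 := congrArg (Algebra.adjoin k ({u} : Set K)).val hv
    rw [map_mul, map_one] at h2
    have h3 := Polynomial.aeval_algHom_apply (Algebra.adjoin k ({u} : Set K)).val
      (gen (k := k) u) q
    rw [← h3] at h2
    rw [map_sub, map_mul, aeval_X, map_one, sub_eq_zero]
    exact h2

theorem adjoin_pid : IsPrincipalIdealRing (Algebra.adjoin k ({u} : Set K)) :=
  IsPrincipalIdealRing.of_surjective (aeval (R := k) (gen (k := k) u)).toRingHom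
    (fun a => adjoin_surj u a)

end adj

theorem exists_laurent {K : Type} [Field K] [CharZero K] [IsAlgClosed K] (ι : Bz →+* K)
    (S : Finset K) {t : K} (ht : t ∈ S) (htr : Transcendental ℚ t) :
    ∃ (k : Type) (_ : Field k) (_ : CharZero k) (K' : Subfield K) (hι : ∀ b, ι b ∈ K')
      (hS : ∀ s ∈ S, s ∈ K') (ι₀ : Bz →+* k) (e : K' →+* LaurentSeries k),
      (∀ b, e ⟨ι b, hι b⟩ = HahnSeries.C (ι₀ b)) ∧ (e ⟨t, hS t ht⟩).order < 0 := by
  classical
  set u : K := t⁻¹ with hu
  have hutr : Transcendental ℚ u := by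
    intro h
    apply htr
    have := h.inv
    rwa [hu, inv_inv] at this
  obtain ⟨k0, hcl, hQ, hk0u, halg⟩ := exists_closed_subfield hutr
  have ht0 : t ≠ 0 := by
    intro h0
    apply htr
    rw [h0]
    exact isAlgebraic_zero
  have hu0 : u ≠ 0 := inv_ne_zero ht0
  let A := Algebra.adjoin k0 ({u} : Set K)
  let F := IntermediateField.adjoin k0 ({u} : Set K)
  let K1 : IntermediateField F K := IntermediateField.adjoin F (S : Set K)
  have hfin : FiniteDimensional F K1 :=
    IntermediateField.finiteDimensional_adjoin (fun x _ => (halg x).isIntegral)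
  have hcF : CharZero F := (algebraMap F K).charZero
  have hck : CharZero k0 := (algebraMap k0 K).charZero
  have hpid : IsPrincipalIdealRing A := adjoin_pid u
  have hsep : Algebra.IsSeparable F K1 := inferInstance
  obtain ⟨e, hec, heu⟩ := exists_laurent_of_finite (k := k0) (A := A) (F := F) (K' := K1)
    (algebraMap k0 A) (p := gen (k := k0) u) (fun h => hu0 (congrArg Subtype.val h))
    (adjoin_not_unit u hk0u) (adjoin_res u)
  have hιk : ∀ b, ι b ∈ k0 := by
    intro b
    apply hQ
    have h1 : IsAlgebraic ℚ b := (algebraicClosure.isAlgebraic ℚ ℂ).isAlgebraic b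
    exact h1.algHom ι.toRatAlgHom
  have hkK : ∀ c : k0, (c : K) ∈ K1.toSubfield := fun c =>
    K1.algebraMap_mem (algebraMap k0 F c)
  have hSK : ∀ s ∈ S, s ∈ K1.toSubfield := fun s hs =>
    IntermediateField.subset_adjoin F (S : Set K) hs
  refine ⟨k0, inferInstance, hck, K1.toSubfield, fun b => hkK ⟨ι b, hιk b⟩, hSK,
    ι.codRestrict k0 hιk, e, ?_, ?_⟩
  · intro b
    have h1 := hec ⟨ι b, hιk b⟩
    exact h1
  · have h2 : e ⟨t, hSK t ht⟩ * e (algebraMap A K1 (gen (k := k0) u)) = 1 := by
      rw [← map_mul]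
      have h3 : (⟨t, hSK t ht⟩ : K1) * algebraMap A K1 (gen (k := k0) u) = 1 := by
        apply Subtype.ext
        exact mul_inv_cancel₀ ht0
      rw [h3, map_one]
    have h4 : e ⟨t, hSK t ht⟩ ≠ 0 := left_ne_zero_of_mul_eq_one h2
    have h5 : e (algebraMap A K1 (gen (k := k0) u)) ≠ 0 := right_ne_zero_of_mul_eq_one h2
    have h6 := congrArg HahnSeries.order h2
    rw [HahnSeries.order_mul h4 h5, HahnSeries.order_one] at h6
    omega

end Pool.Agent.SicAb
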