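import Pool.Agent.Lib.MP_d0f9e0_co.Ab.Sys

/-!
# Overlaps of order different from `M` come from one pair of levels

The leading coefficients of the overlaps of a coefficient system, twisted by two independent
parameters, satisfy a self-dual system.  It follows that the character sums of the level sets of
the order function vanish on the other levels, and that the leading forms are monomials.
-/

namespace Pool.Agent.SicAb

open Finset

variable {A : Type} [AddCommGroup A] [Fintype A] [DecidableEq A]

section linear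

variable {R : Type*} [CommRing R] (ι : Bz →+* R)

omit [DecidableEq A] in
theorem G_sum {α : Type*} (s : Finset α) (g : α → PS A → R) (k : PS A) :
    G ι (fun h => ∑ i ∈ s, g i h) k = ∑ i ∈ s, G ι (g i) k := by
  unfold G
  rw [Finset.sum_comm]
  exact Finset.sum_congr rfl fun h _ => Finset.mul_sum _ _ _

omit [DecidableEq A] in
theorem G_ite (P : Prop) [Decidable P] (g : PS A → R) (k : PS A) :
    G ι (fun h => if P then g h else 0) k = if P then G ι g k else 0 := by
  by_cases hP : P
  · simp only [if_pos hP]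
  · simp only [if_neg hP]
    unfold G
    simp

end linear

/-- Sums over a square of pairs with a given sum. -/
theorem sum_square {R : Type*} [AddCommMonoid R] {M l : ℕ} (hl : l ≤ M) (f : ℕ → ℕ → R) :
    (∑ i ∈ range (M + 1), ∑ j ∈ range (M + 1), if i + j = l then f i j else 0) =
      ∑ p ∈ antidiagonal l, f p.1 p.2 := by
  rw [← Finset.sum_product' (range (M + 1)) (range (M + 1))
    (fun i j => if i + j = l then f i j else 0), ← Finset.sum_filter]
  apply Finset.sum_congr _ fun _ _ => rfl
  ext p
  simp only [mem_filter, mem_product, mem_range, HasAntidiagonal.mem_antidiagonal]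
  omega

section quad

variable {k : Type*} [Field k] (ι : Bz →+* k) (M : ℕ) (Y X : ℕ → A → k)

/-- The part of the product of the overlaps at `h` and `-h` coming from quadruples of levels. -/
noncomputable def quad (l r : ℕ) (h : PS A) : k :=
  ∑ i ∈ range (2 * M + 1), ∑ j ∈ range (2 * M + 1), ∑ i' ∈ range (2 * M + 1),
    ∑ j' ∈ range (2 * M + 1),
      if i + j = l ∧ i + j' = r ∧ i + j + (i' + j') = 2 * M then
        ov ι (Y i) (X j) h * ov ι (Y i') (X j') (-h) else 0

/-- The quadruple sums are permuted by the Fourier transform. -/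
theorem G_quad (l r : ℕ) (h : PS A) :
    G ι (quad ι M Y X l r) h = (Fintype.card A : k) * quad ι M Y X r l h := by
  have e1 : quad ι M Y X l r = fun g => ∑ i ∈ range (2 * M + 1), ∑ j ∈ range (2 * M + 1),
      ∑ i' ∈ range (2 * M + 1), ∑ j' ∈ range (2 * M + 1),
      if i + j = l ∧ i + j' = r ∧ i + j + (i' + j') = 2 * M then
        ov ι (Y i) (X j) g * ov ι (Y i') (X j') (-g) else 0 := rfl
  rw [e1]
  simp only [G_sum, G_ite, duality]
  unfold quad
  rw [Finset.mul_sum]
  apply Finset.sum_congr rfl
  intro i _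
  have e2 : ∀ F : ℕ → ℕ → ℕ → k, (∑ j ∈ range (2 * M + 1), ∑ i' ∈ range (2 * M + 1),
      ∑ j' ∈ range (2 * M + 1), F j i' j') = ∑ j ∈ range (2 * M + 1),
      ∑ i' ∈ range (2 * M + 1), ∑ j' ∈ range (2 * M + 1), F j' i' j := by
    intro F
    rw [Finset.sum_comm]
    conv_rhs => rw [Finset.sum_comm]
    apply Finset.sum_congr rfl
    intro i' _
    rw [Finset.sum_comm]
  rw [e2 (fun j i' j' => if i + j = l ∧ i + j' = r ∧ i + j + (i' + j') = 2 * M then
        (Fintype.card A : k) * (ov ι (Y i) (X j') h * ov ι (Y i') (X j) (-h)) else 0),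
    Finset.mul_sum]
  apply Finset.sum_congr rfl
  intro j _
  rw [Finset.mul_sum]
  apply Finset.sum_congr rfl
  intro i' _
  rw [Finset.mul_sum]
  apply Finset.sum_congr rfl
  intro j' _
  rw [mul_ite, mul_zero]
  apply if_congr _ rfl rfl
  omega

end quad

section csys

variable {k : Type*} [Field k] [CharZero k] {ι : Bz →+* k} {M : ℕ} {m : PS A → ℕ}
    {c : PS A → k} {Y X : ℕ → A → k}

omit [CharZero k] in
theorem quad_eq_zero (hs : CSys ι M m c Y X) {l : ℕ} (r : ℕ) {h : PS A} (hl : m h ≠ l) :
    quad ι M Y X l r h = 0 := by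
  unfold quad
  refine Finset.sum_eq_zero fun i _ => Finset.sum_eq_zero fun j _ =>
    Finset.sum_eq_zero fun i' _ => Finset.sum_eq_zero fun j' _ => ?_
  split_ifs with hc
  · rcases lt_or_gt_of_ne hl with h1 | h1
    · rw [hs.low i' j' (-h) (by have := hs.m_neg h; omega), mul_zero]
    · rw [hs.low i j h (by omega), zero_mul]
  · rfl

omit [CharZero k] in
theorem m_le (hs : CSys ι M m c Y X) (h : PS A) : m h ≤ 2 * M := by
  have := hs.m_neg h
  omega

omit [CharZero k] in
theorem sum_quad (hs : CSys ι M m c Y X) (h : PS A) :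
    ∑ r ∈ range (2 * M + 1), quad ι M Y X (m h) r h = c h * c (-h) := by
  have hm := m_le hs h
  have hm' := m_le hs (-h)
  have hmn := hs.m_neg h
  unfold quad
  rw [Finset.sum_comm]
  have e1 : ∀ i ∈ range (2 * M + 1), (∑ r ∈ range (2 * M + 1), ∑ j ∈ range (2 * M + 1),
      ∑ i' ∈ range (2 * M + 1), ∑ j' ∈ range (2 * M + 1),
      if i + j = m h ∧ i + j' = r ∧ i + j + (i' + j') = 2 * M then
        ov ι (Y i) (X j) h * ov ι (Y i') (X j') (-h) else 0) =
      ∑ j ∈ range (2 * M + 1), if i + j = m h then ov ι (Y i) (X j) h * c (-h) else 0 := by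
    intro i _
    rw [Finset.sum_comm]
    apply Finset.sum_congr rfl
    intro j _
    split_ifs with hij
    · rw [← hs.lead (-h), ← sum_square hm' (fun i j => ov ι (Y i) (X j) (-h)), Finset.mul_sum,
        Finset.sum_comm]
      apply Finset.sum_congr rfl
      intro i' _
      rw [Finset.mul_sum, Finset.sum_comm]
      apply Finset.sum_congr rfl
      intro j' _
      rw [mul_ite, mul_zero]
      by_cases hc : i' + j' = m (-h)
      · rw [if_pos hc, Finset.sum_eq_single (i + j')]
        · rw [if_pos ⟨hij, rfl, by omega⟩]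
        · intro r _ hr
          rw [if_neg (by tauto)]
        · intro hr
          rw [mem_range] at hr
          omega
      · rw [if_neg hc]
        apply Finset.sum_eq_zero
        intro r _
        rw [if_neg (by omega)]
    · apply Finset.sum_eq_zero
      intro r _
      refine Finset.sum_eq_zero fun i' _ => Finset.sum_eq_zero fun j' _ => ?_
      rw [if_neg (by tauto)]
  rw [Finset.sum_congr rfl e1, sum_square hm (fun i j => ov ι (Y i) (X j) h * c (-h)),
    ← Finset.sum_mul, hs.lead]

/-- Character sum of a level. -/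
noncomputable def lev (m : PS A → ℕ) (l : ℕ) (x : PS A) : Bz :=
  ∑ h ∈ univ.filter (fun h => m h = l), pr x h

omit [CharZero k] in
theorem cc_eq (hs : CSys ι M m c Y X) {h : PS A} (hM : m h ≠ M) :
    ((Fintype.card A : k) + 1) * (c h * c (-h)) = 1 := by
  rw [hs.c_mul, eps, if_neg]
  intro h0
  rw [h0, hs.m_zero] at hM
  exact hM rfl

theorem lev_eq (hs : CSys ι M m c Y X) {l : ℕ} (hM : l ≠ M) (x : PS A) :
    ι (lev m l x) =
      ((Fintype.card A : k) + 1) * ((Fintype.card A : k) * quad ι M Y X (m x) l x) := by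
  have hm := m_le hs x
  have e1 : ∀ h, (if m h = l then (1 : k) else 0) = ((Fintype.card A : k) + 1) *
      ∑ r ∈ range (2 * M + 1), quad ι M Y X l r h := by
    intro h
    split_ifs with hl
    · subst hl
      rw [sum_quad hs, cc_eq hs hM]
    · rw [Finset.sum_eq_zero fun r _ => quad_eq_zero hs r hl, mul_zero]
  have e2 : ι (lev m l x) = G ι (fun h => if m h = l then (1 : k) else 0) x := by
    unfold lev G
    rw [map_sum, Finset.sum_filter]
    apply Finset.sum_congr rfl
    intro h _
    rw [mul_ite, mul_one, mul_zero]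
  rw [e2, show (fun h => if m h = l then (1 : k) else 0) = fun h =>
    ((Fintype.card A : k) + 1) * ∑ r ∈ range (2 * M + 1), quad ι M Y X l r h from funext e1,
    G_smul, G_sum]
  congr 1
  rw [Finset.sum_congr rfl fun r _ => G_quad ι M Y X l r x, ← Finset.mul_sum,
    Finset.sum_eq_single (m x)]
  · intro r _ hr
    exact quad_eq_zero hs l hr.symm
  · intro h
    rw [mem_range] at h
    omega

/-- Levels other than `M` are dual to each other. -/
theorem lev_dual (hs : CSys ι M m c Y X) {l r : ℕ} (hl : l ≠ M) (hr : r ≠ M) (x : PS A) :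
    ∑ h ∈ univ.filter (fun h => m h = r), pr x h * lev m l h =
      (Fintype.card A : Bz) * (if m x = l then lev m r x else 0) := by
  apply ι.injective
  have hN1 : ((Fintype.card A : k) + 1) ≠ 0 := by
    exact_mod_cast Nat.succ_ne_zero (Fintype.card A)
  have e1 : ι (∑ h ∈ univ.filter (fun h => m h = r), pr x h * lev m l h) =
      G ι (fun h => ((Fintype.card A : k) + 1) * (Fintype.card A : k) * quad ι M Y X r l h) x := by
    unfold G
    rw [map_sum, Finset.sum_filter]
    apply Finset.sum_congr rfl
    intro h _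
    split_ifs with h1
    · rw [map_mul, lev_eq hs hl, h1]
      ring
    · simp only [quad_eq_zero hs l h1, mul_zero]
  rw [e1, G_smul, G_quad, map_mul, map_natCast]
  split_ifs with h1
  · rw [lev_eq hs hr, h1]
    ring
  · rw [quad_eq_zero hs r h1, map_zero]
    ring

/-- Complex absolute value of a value of the bicharacter. -/
theorem star_pr (x h : PS A) : (starRingEnd ℂ) ((pr x h : Bz) : ℂ) = ((pr h x : Bz) : ℂ) := by
  have h1 : ∀ (χ : AddChar A ℂ) (a : A), (starRingEnd ℂ) (χ a) = χ (-a) := by
    intro χ a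
    rw [AddChar.map_neg_eq_conj]
  unfold pr
  rw [MulMemClass.coe_mul, MulMemClass.coe_mul, map_mul, ch_val, ch_val, ch_val, ch_val, h1, h1,
    neg_neg, mul_comm]

/-- The character sum of a level vanishes on the other levels. -/
theorem lev_eq_zero (hs : CSys ι M m c Y X) {l : ℕ} (hl : l ≠ M) {x : PS A} (hx : m x ≠ M) :
    lev m l x = 0 := by
  set r := m x with hr
  have e0 : ∑ h ∈ univ.filter (fun h => m h = l), lev m r h = 0 := by
    have h1 := lev_dual hs hx hl 0
    rw [hs.m_zero, if_neg (Ne.symm hx), mul_zero] at h1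
    rw [← h1]
    apply Finset.sum_congr rfl
    intro h _
    rw [pr_zero_left, one_mul]
  have e1 : ∑ h ∈ univ.filter (fun h => m h = r),
      (starRingEnd ℂ) ((lev m l h : Bz) : ℂ) * ((lev m l h : Bz) : ℂ) = 0 := by
    have e2 : ∑ h ∈ univ.filter (fun h => m h = r),
        (starRingEnd ℂ) ((lev m l h : Bz) : ℂ) * ((lev m l h : Bz) : ℂ) =
        ((∑ g ∈ univ.filter (fun g => m g = l), ∑ h ∈ univ.filter (fun h => m h = r),
          pr g h * lev m l h : Bz) : ℂ) := by
      rw [Finset.sum_comm, AddSubmonoidClass.coe_finsetSum]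
      apply Finset.sum_congr rfl
      intro h _
      rw [← Finset.sum_mul, MulMemClass.coe_mul]
      congr 1
      unfold lev
      rw [AddSubmonoidClass.coe_finsetSum, map_sum, AddSubmonoidClass.coe_finsetSum]
      exact Finset.sum_congr rfl fun g _ => star_pr h g
    rw [e2, Finset.sum_congr rfl fun g _ => lev_dual hs hl hx g]
    have e3 : ∑ g ∈ univ.filter (fun g => m g = l), (Fintype.card A : Bz) *
        (if m g = l then lev m r g else 0) = 0 := by
      rw [← Finset.mul_sum, Finset.sum_congr rfl fun g hg => if_pos (mem_filter.mp hg).2, e0,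
        mul_zero]
    rw [e3]
    rfl
  have e4 : ∑ h ∈ univ.filter (fun h => m h = r), ‖((lev m l h : Bz) : ℂ)‖ ^ 2 = 0 := by
    have e5 : ((∑ h ∈ univ.filter (fun h => m h = r), ‖((lev m l h : Bz) : ℂ)‖ ^ 2 : ℝ) : ℂ) =
        0 := by
      rw [← e1]
      push_cast
      apply Finset.sum_congr rfl
      intro h _
      rw [Complex.conj_mul']
    exact_mod_cast e5
  have e6 := (Finset.sum_eq_zero_iff_of_nonneg fun h _ => sq_nonneg _).mp e4 x
    (mem_filter.mpr ⟨mem_univ x, rfl⟩)
  have e7 : ((lev m l x : Bz) : ℂ) = 0 := by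
    rwa [sq_eq_zero_iff, norm_eq_zero] at e6
  exact Subtype.ext e7

theorem quad_value (hs : CSys ι M m c Y X) {x : PS A} (hx : m x ≠ M) (l : ℕ) :
    ((Fintype.card A : k) + 1) * quad ι M Y X (m x) l x = if l = M then 1 else 0 := by
  have hN : (Fintype.card A : k) ≠ 0 := Nat.cast_ne_zero.mpr Fintype.card_ne_zero
  have hN1 : ((Fintype.card A : k) + 1) ≠ 0 := by
    exact_mod_cast Nat.succ_ne_zero (Fintype.card A)
  have h1 : ∀ l, l ≠ M → quad ι M Y X (m x) l x = 0 := by
    intro l hl
    have h2 := lev_eq hs hl x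
    rw [lev_eq_zero hs hl hx, map_zero] at h2
    rcases mul_eq_zero.mp h2.symm with h3 | h3
    · exact absurd h3 hN1
    · exact (mul_eq_zero.mp h3).resolve_left hN
  split_ifs with hl
  · subst hl
    have h3 := cc_eq hs hx
    rw [← sum_quad hs x, Finset.sum_eq_single l] at h3
    · exact h3
    · intro r _ hr
      exact h1 r hr
    · intro h
      rw [mem_range] at h
      omega
  · rw [h1 l hl, mul_zero]

omit [CharZero k] in
/-- The quadruple sums as coefficients of a product. -/
theorem quad_coeff (hs : CSys ι M m c Y X) (x : PS A) (P Q : ℕ → k)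
    (hP : ∀ n, P n = if n ≤ m x then ov ι (Y n) (X (m x - n)) x else 0)
    (hQ : ∀ n, Q n = if n ≤ m (-x) then ov ι (Y (m (-x) - n)) (X n) (-x) else 0) (n : ℕ) :
    ∑ p ∈ antidiagonal n, P p.1 * Q p.2 = quad ι M Y X (m x) n x := by
  have hm := m_le hs x
  have hm' := m_le hs (-x)
  have hmn := hs.m_neg x
  have e1 : quad ι M Y X (m x) n x = ∑ i ∈ range (2 * M + 1), ∑ j' ∈ range (2 * M + 1),
      if i + j' = n then P i * Q j' else 0 := by
    unfold quad
    apply Finset.sum_congr rfl
    intro i _
    rw [Finset.sum_congr rfl fun j _ => Finset.sum_comm, Finset.sum_comm]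
    apply Finset.sum_congr rfl
    intro j' _
    rw [hP, hQ]
    by_cases h1 : i ≤ m x
    · by_cases h2 : j' ≤ m (-x)
      · rw [if_pos h1, if_pos h2, Finset.sum_eq_single (m x - i)]
        · rw [Finset.sum_eq_single (m (-x) - j')]
          · apply if_congr _ rfl rfl
            omega
          · intro i' _ hi'
            rw [if_neg (by omega)]
          · intro h3
            rw [mem_range] at h3
            omega
        · intro j _ hj
          apply Finset.sum_eq_zero
          intro i' _
          rw [if_neg (by omega)]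
        · intro h3
          rw [mem_range] at h3
          omega
      · rw [if_neg h2, mul_zero, ite_self]
        refine Finset.sum_eq_zero fun j _ => Finset.sum_eq_zero fun i' _ => ?_
        rw [if_neg (by omega)]
    · rw [if_neg h1, zero_mul, ite_self]
      refine Finset.sum_eq_zero fun j _ => Finset.sum_eq_zero fun i' _ => ?_
      rw [if_neg (by omega)]
  rw [e1]
  by_cases hn : n ≤ 2 * M
  · rw [sum_square hn (fun i j => P i * Q j)]
  · rw [Finset.sum_eq_zero, Finset.sum_eq_zero]
    · intro i hi
      apply Finset.sum_eq_zero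
      intro j hj
      split_ifs with hij
      · rw [hP, hQ]
        by_cases h1 : i ≤ m x
        · rw [if_neg (show ¬ j ≤ m (-x) by omega), mul_zero]
        · rw [if_neg h1, zero_mul]
      · rfl
    · intro p hp
      rw [HasAntidiagonal.mem_antidiagonal] at hp
      rw [hP, hQ]
      by_cases h1 : p.1 ≤ m x
      · rw [if_neg (show ¬ p.2 ≤ m (-x) by omega), mul_zero]
      · rw [if_neg h1, zero_mul]

open Polynomial in
theorem mono_of_csys (h : CSys ι M m c Y X) : Mono ι M m c Y X := by
  intro x hx
  have hN1 : ((Fintype.card A : k) + 1) ≠ 0 := by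
    exact_mod_cast Nat.succ_ne_zero (Fintype.card A)
  have hm := m_le h x
  have hm' := m_le h (-x)
  have hmn := h.m_neg x
  have hc0 : c x ≠ 0 := by
    intro h0
    have h1 := cc_eq h hx
    rw [h0, zero_mul, mul_zero] at h1
    exact zero_ne_one h1
  set p : k[X] := ∑ i ∈ range (m x + 1), C (ov ι (Y i) (X (m x - i)) x) * Polynomial.X ^ i with hp
  set q : k[X] := ∑ j ∈ range (m (-x) + 1),
    C (ov ι (Y (m (-x) - j)) (X j) (-x)) * Polynomial.X ^ j with hq
  have hpc : ∀ n, p.coeff n = if n ≤ m x then ov ι (Y n) (X (m x - n)) x else 0 := by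
    intro n
    rw [hp, finsetSum_coeff]
    simp only [coeff_C_mul, coeff_X_pow, mul_ite, mul_one, mul_zero]
    rw [Finset.sum_ite_eq]
    apply if_congr _ rfl rfl
    rw [mem_range]
    omega
  have hqc : ∀ n, q.coeff n = if n ≤ m (-x) then ov ι (Y (m (-x) - n)) (X n) (-x) else 0 := by
    intro n
    rw [hq, finsetSum_coeff]
    simp only [coeff_C_mul, coeff_X_pow, mul_ite, mul_one, mul_zero]
    rw [Finset.sum_ite_eq]
    apply if_congr _ rfl rfl
    rw [mem_range]
    omega
  have hpq : C ((Fintype.card A : k) + 1) * (p * q) = Polynomial.X ^ M := by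
    ext n
    rw [coeff_C_mul, coeff_X_pow, ← quad_value h hx n, coeff_mul,
      quad_coeff h x p.coeff q.coeff hpc hqc n]
  obtain ⟨i, -, hi⟩ := (dvd_prime_pow Polynomial.prime_X M).mp
    (⟨C ((Fintype.card A : k) + 1) * q, by rw [← hpq]; ring⟩ : p ∣ Polynomial.X ^ M)
  obtain ⟨u, hu⟩ := hi.symm
  obtain ⟨a, -, ha⟩ := Polynomial.isUnit_iff.mp u.isUnit
  have hpa : ∀ n, p.coeff n = if n = i then a else 0 := by
    intro n
    rw [← hu, ← ha, coeff_mul_C, coeff_X_pow, ite_mul, one_mul, zero_mul]
  have hsum : c x = ∑ n ∈ range (m x + 1), p.coeff n := by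
    rw [← h.lead x, Finset.Nat.sum_antidiagonal_eq_sum_range_succ
      (fun i j => ov ι (Y i) (X j) x)]
    apply Finset.sum_congr rfl
    intro n hn
    rw [mem_range] at hn
    rw [hpc, if_pos (by omega)]
  rw [Finset.sum_congr rfl fun n _ => hpa n, Finset.sum_ite_eq'] at hsum
  have him : i ≤ m x := by
    by_contra hlt
    rw [if_neg (by rw [mem_range]; omega)] at hsum
    exact hc0 hsum
  rw [if_pos (by rw [mem_range]; omega)] at hsum
  refine ⟨i, m x - i, by omega, ?_, ?_⟩
  · have h1 := hpc i
    rw [if_pos him, hpa, if_pos rfl] at h1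
    rw [← h1, hsum]
  · intro i' j' hij hne
    have hi' : i' ≤ m x := by omega
    have h1 := hpc i'
    have h2 : m x - i' = j' := by omega
    rw [if_pos hi', hpa, if_neg, h2] at h1
    · exact h1.symm
    · intro h3
      apply hne
      rw [h3] at hij ⊢
      congr 1
      omega

end csys

end Pool.Agent.SicAb
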