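import Pool.Agent.Lib.MP_d0f9e0_co.Ab.Sys

/-!
# Transfer of rigidity between extensions

If the solution `(y, x)` has entries in a field `K'` and is rigid over one extension of `K'`, it
is rigid over every extension: the rigidity identity is a linear combination of the tangent
equations with coefficients in `K'`.
-/

namespace Pool.Agent.SicAb

open Finset

/-- A linear form vanishing on the solutions of a linear system is a combination of the
equations. -/
theorem exists_comb {F : Type*} [Field F] {I J : Type*} [Fintype I] [Fintype J]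
    (M : I → J → F) (v : J → F)
    (h : ∀ z : J → F, (∀ i, ∑ j, M i j * z j = 0) → ∑ j, v j * z j = 0) :
    ∃ c : I → F, ∀ j, v j = ∑ i, c i * M i j := by
  classical
  let L : I → ((J → F) →ₗ[F] F) := fun i => Fintype.linearCombination F (M i)
  let K : (J → F) →ₗ[F] F := Fintype.linearCombination F v
  have hL : ∀ i z, L i z = ∑ j, M i j * z j := by
    intro i z
    simp only [L, Fintype.linearCombination_apply, smul_eq_mul]
    exact Finset.sum_congr rfl fun j _ => mul_comm _ _
  have hK : ∀ z, K z = ∑ j, v j * z j := by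
    intro z
    simp only [K, Fintype.linearCombination_apply, smul_eq_mul]
    exact Finset.sum_congr rfl fun j _ => mul_comm _ _
  have h1 : ⨅ i, LinearMap.ker (L i) ≤ LinearMap.ker K := by
    intro z hz
    rw [Submodule.mem_iInf] at hz
    rw [LinearMap.mem_ker, hK]
    apply h
    intro i
    rw [← hL]
    exact hz i
  have h2 := mem_span_of_iInf_ker_le_ker h1
  rw [Submodule.mem_span_range_iff_exists_fun] at h2
  obtain ⟨c, hc⟩ := h2
  refine ⟨c, fun j => ?_⟩
  have h3 := congrArg (fun g : (J → F) →ₗ[F] F => g (Pi.single j 1)) hc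
  simp only [LinearMap.coe_sum, Finset.sum_apply, LinearMap.smul_apply, smul_eq_mul] at h3
  rw [hK] at h3
  have h4 : ∀ w : J → F, ∑ j', w j' * (Pi.single j (1 : F) : J → F) j' = w j := by
    intro w
    rw [Finset.sum_eq_single j]
    · rw [Pi.single_eq_same, mul_one]
    · intro j' _ hj
      rw [Pi.single_eq_of_ne hj, mul_zero]
    · intro h'
      exact absurd (Finset.mem_univ _) h'
  rw [h4] at h3
  rw [← h3]
  apply Finset.sum_congr rfl
  intro i _
  rw [hL, h4]

variable {A : Type} [AddCommGroup A] [Fintype A] [DecidableEq A]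

section coeffs

variable {R : Type*} [CommRing R] (ι : Bz →+* R)

/-- The overlap as a linear form in the second vector. -/
noncomputable def cx (y : A → R) (h : PS A) (s : A) : R :=
  ι (sqz (ch h.2 h.1)) * (y (s - h.1) * ι (ch h.2 (s - h.1)))

/-- The overlap as a linear form in the first vector. -/
noncomputable def cy (x : A → R) (h : PS A) (s : A) : R :=
  ι (sqz (ch h.2 h.1)) * (ι (ch h.2 s) * x (s + h.1))

theorem ov_eq_cx (y x : A → R) (h : PS A) : ov ι y x h = ∑ s, cx ι y h s * x s := by
  rw [ov_def, Finset.mul_sum, ← Equiv.sum_comp (Equiv.addRight h.1) (fun s => cx ι y h s * x s)]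
  apply Finset.sum_congr rfl
  intro r _
  simp only [Equiv.coe_addRight, cx, add_sub_cancel_right]
  ring

theorem ov_eq_cy (y x : A → R) (h : PS A) : ov ι y x h = ∑ s, cy ι x h s * y s := by
  rw [ov_def, Finset.mul_sum]
  apply Finset.sum_congr rfl
  intro r _
  simp only [cy]
  ring

/-- Coefficients of the tangent equations. -/
noncomputable def tanM (y x : A → R) (h : PS A) : A ⊕ A → R
  | Sum.inl s => cy ι x h s * ov ι y x (-h) + ov ι y x h * cy ι x (-h) s
  | Sum.inr s => cx ι y h s * ov ι y x (-h) + ov ι y x h * cx ι y (-h) s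

/-- Coefficients of the rigidity identity. -/
noncomputable def starV (y x : A → R) (h : PS A) : A ⊕ A → R
  | Sum.inl _ => 0
  | Sum.inr s => cx ι y h s * ov ι y x (-h) + ov ι y x h * cx ι y (-h) s -
      2 * cx ι y 0 s * (ov ι y x h * ov ι y x (-h))

theorem tan_eq (y x y' x' : A → R) (h : PS A) :
    (ov ι y' x h + ov ι y x' h) * ov ι y x (-h) +
      ov ι y x h * (ov ι y' x (-h) + ov ι y x' (-h)) =
    ∑ j, tanM ι y x h j * Sum.elim y' x' j := by
  rw [Fintype.sum_sum_type]
  simp only [Sum.elim_inl, Sum.elim_inr, tanM]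
  rw [ov_eq_cy ι y' x h, ov_eq_cy ι y' x (-h), ov_eq_cx ι y x' h, ov_eq_cx ι y x' (-h)]
  have e1 : ∀ (p q : A → R) (u v : R) (z : A → R),
      ∑ s, (p s * u + v * q s) * z s = (∑ s, p s * z s) * u + v * ∑ s, q s * z s := by
    intro p q u v z
    rw [Finset.sum_mul, Finset.mul_sum, ← Finset.sum_add_distrib]
    exact Finset.sum_congr rfl fun s _ => by ring
  rw [e1, e1]
  ring

theorem star_eq (y x y' x' : A → R) (h : PS A) :
    ov ι y x' h * ov ι y x (-h) + ov ι y x' (-h) * ov ι y x h -
      2 * ov ι y x' 0 * (ov ι y x h * ov ι y x (-h)) =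
    ∑ j, starV ι y x h j * Sum.elim y' x' j := by
  rw [Fintype.sum_sum_type]
  simp only [Sum.elim_inl, Sum.elim_inr, starV]
  rw [ov_eq_cx ι y x' h, ov_eq_cx ι y x' (-h), ov_eq_cx ι y x' 0]
  have e1 : ∑ s, (cx ι y h s * ov ι y x (-h) + ov ι y x h * cx ι y (-h) s -
      2 * cx ι y 0 s * (ov ι y x h * ov ι y x (-h))) * x' s =
      (∑ s, cx ι y h s * x' s) * ov ι y x (-h) + ov ι y x h * (∑ s, cx ι y (-h) s * x' s) -
      2 * (∑ s, cx ι y 0 s * x' s) * (ov ι y x h * ov ι y x (-h)) := by
    rw [Finset.sum_mul, Finset.mul_sum, Finset.mul_sum, Finset.sum_mul,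
      ← Finset.sum_add_distrib, ← Finset.sum_sub_distrib]
    exact Finset.sum_congr rfl fun s _ => by ring
  rw [e1]
  simp only [zero_mul, Finset.sum_const_zero, zero_add]
  ring

theorem map_cx {S : Type*} [CommRing S] (e : R →+* S) (y : A → R) (h : PS A) (s : A) :
    e (cx ι y h s) = cx (e.comp ι) (fun r => e (y r)) h s := by
  simp only [cx, map_mul, RingHom.comp_apply]

theorem map_cy {S : Type*} [CommRing S] (e : R →+* S) (x : A → R) (h : PS A) (s : A) :
    e (cy ι x h s) = cy (e.comp ι) (fun r => e (x r)) h s := by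
  simp only [cy, map_mul, RingHom.comp_apply]

theorem map_tanM {S : Type*} [CommRing S] (e : R →+* S) (y x : A → R) (h : PS A) (j : A ⊕ A) :
    e (tanM ι y x h j) = tanM (e.comp ι) (fun r => e (y r)) (fun r => e (x r)) h j := by
  rcases j with s | s
  · simp only [tanM, map_add, map_mul, map_ov, map_cy]
  · simp only [tanM, map_add, map_mul, map_ov, map_cx]

theorem map_starV {S : Type*} [CommRing S] (e : R →+* S) (y x : A → R) (h : PS A) (j : A ⊕ A) :
    e (starV ι y x h j) = starV (e.comp ι) (fun r => e (y r)) (fun r => e (x r)) h j := by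
  rcases j with s | s
  · simp only [starV, map_zero]
  · simp only [starV, map_sub, map_add, map_mul, map_ov, map_cx, map_ofNat]

end coeffs

/-- **Transfer of rigidity.** -/
theorem rigid_transfer {K' K L : Type*} [Field K'] [Field K] [Field L] (j : K' →+* K)
    (e : K' →+* L) (ι : Bz →+* K') {y x : A → K'}
    (h : Rigid (j.comp ι) (fun r => j (y r)) (fun r => j (x r))) :
    Rigid (e.comp ι) (fun r => e (y r)) (fun r => e (x r)) := by
  have key : ∀ h₀ : PS A, ∃ c : PS A → K', ∀ i, starV ι y x h₀ i = ∑ h, c h * tanM ι y x h i := by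
    intro h₀
    apply exists_comb
    intro z hz
    have h1 : Tangent (j.comp ι) (fun r => j (y r)) (fun r => j (x r))
        (fun r => j (z (Sum.inl r))) (fun r => j (z (Sum.inr r))) := by
      intro h'
      rw [tan_eq]
      have h2 := congrArg j (hz h')
      rw [map_sum, map_zero] at h2
      rw [← h2]
      apply Finset.sum_congr rfl
      intro i _
      rw [map_mul, map_tanM]
      rcases i with s | s <;> rfl
    have h3 := h _ _ h1 h₀
    rw [← sub_eq_zero, star_eq (j.comp ι) _ _ (fun r => j (z (Sum.inl r)))] at h3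
    apply j.injective
    rw [map_zero, ← h3, map_sum]
    apply Finset.sum_congr rfl
    intro i _
    rw [map_mul, map_starV]
    rcases i with s | s <;> rfl
  intro y' x' ht h₀
  obtain ⟨c, hc⟩ := key h₀
  rw [← sub_eq_zero, star_eq (e.comp ι) _ _ y']
  have h1 : ∀ i, starV (e.comp ι) (fun r => e (y r)) (fun r => e (x r)) h₀ i =
      ∑ h, e (c h) * tanM (e.comp ι) (fun r => e (y r)) (fun r => e (x r)) h i := by
    intro i
    rw [← map_starV, hc i, map_sum]
    exact Finset.sum_congr rfl fun h _ => by rw [map_mul, map_tanM]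
  calc ∑ i, starV (e.comp ι) (fun r => e (y r)) (fun r => e (x r)) h₀ i * Sum.elim y' x' i
      = ∑ h, e (c h) * ∑ i, tanM (e.comp ι) (fun r => e (y r)) (fun r => e (x r)) h i *
          Sum.elim y' x' i := by
        simp only [h1, Finset.sum_mul, Finset.mul_sum]
        rw [Finset.sum_comm]
        exact Finset.sum_congr rfl fun h _ => Finset.sum_congr rfl fun i _ => by ring
    _ = 0 := by
        apply Finset.sum_eq_zero
        intro h _
        rw [← tan_eq, ht h, mul_zero]

end Pool.Agent.SicAb
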