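import Pool.Agent.Lib.MP_d0f9e0_co.Ab.Sys

/-!
# From Laurent series to power series
-/

set_option autoImplicit false

namespace Pool.Agent.SicAb

open Finset

variable {A : Type} [AddCommGroup A] [Fintype A] [DecidableEq A]

namespace TwoA

variable {k : Type*} [Field k]

/-- `X d/dX` on power series. -/
noncomputable def th (f : PowerSeries k) : PowerSeries k :=
  PowerSeries.X * PowerSeries.derivative k f

theorem th_add (f g : PowerSeries k) : th (f + g) = th f + th g := by
  unfold th
  rw [map_add, mul_add]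

theorem th_sum {ι : Type*} (s : Finset ι) (f : ι → PowerSeries k) :
    th (∑ i ∈ s, f i) = ∑ i ∈ s, th (f i) := by
  unfold th
  rw [map_sum, Finset.mul_sum]

theorem th_mul (f g : PowerSeries k) : th (f * g) = th f * g + f * th g := by
  unfold th
  rw [Derivation.leibniz, smul_eq_mul, smul_eq_mul]
  ring

theorem th_C (a : k) : th (PowerSeries.C (R := k) a) = 0 := by
  unfold th
  rw [PowerSeries.derivative_C, mul_zero]

theorem th_one : th (1 : PowerSeries k) = 0 := by
  unfold th
  rw [PowerSeries.derivative_one, mul_zero]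

theorem th_X : th (PowerSeries.X : PowerSeries k) = PowerSeries.X := by
  ext n
  unfold th
  cases n with
  | zero => simp
  | succ n =>
    rw [PowerSeries.coeff_succ_X_mul, PowerSeries.coeff_derivative, PowerSeries.coeff_X]
    by_cases h : n = 0
    · rw [h]; simp
    · rw [if_neg (by omega), zero_mul]

theorem th_X_pow (n : ℕ) :
    th (PowerSeries.X ^ n : PowerSeries k) = (n : PowerSeries k) * PowerSeries.X ^ n := by
  induction n with
  | zero => rw [pow_zero, th_one, Nat.cast_zero, zero_mul]
  | succ n ih =>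
    rw [pow_succ, th_mul, ih, th_X]
    push_cast
    ring

theorem th_C_mul (a : k) (f : PowerSeries k) :
    th (PowerSeries.C (R := k) a * f) = PowerSeries.C (R := k) a * th f := by
  rw [th_mul, th_C, zero_mul, zero_add]

theorem th_ov (ι : Bz →+* k) (y x : A → PowerSeries k) (h : PS A) :
    th (ov ((PowerSeries.C (R := k)).comp ι) y x h) =
      ov ((PowerSeries.C (R := k)).comp ι) (fun r => th (y r)) x h +
        ov ((PowerSeries.C (R := k)).comp ι) y (fun r => th (x r)) h := by
  simp only [ov_def]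
  rw [RingHom.comp_apply, th_C_mul, th_sum, ← mul_add, ← Finset.sum_add_distrib]
  congr 1
  refine Finset.sum_congr rfl fun r _ => ?_
  simp only [RingHom.comp_apply, th_mul, th_C]
  ring_nf

/-- Clearing denominators. -/
theorem exists_clear (y : A → LaurentSeries k) : ∃ (a : ℕ) (P : A → PowerSeries k), ∀ r,
    HahnSeries.ofPowerSeries ℤ k (P r) = HahnSeries.single (a : ℤ) 1 * y r := by
  refine ⟨∑ r, (y r).order.natAbs, fun r => PowerSeries.X ^
    (((∑ r, (y r).order.natAbs : ℕ) : ℤ) + (y r).order).toNat * (y r).powerSeriesPart,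
    fun r => ?_⟩
  have h1 : (y r).order.natAbs ≤ ∑ r, (y r).order.natAbs :=
    Finset.single_le_sum (f := fun r => (y r).order.natAbs) (fun _ _ => Nat.zero_le _)
      (Finset.mem_univ r)
  have h2 : 0 ≤ ((∑ r, (y r).order.natAbs : ℕ) : ℤ) + (y r).order := by
    have h3 : -((y r).order.natAbs : ℤ) ≤ (y r).order := by omega
    have h4 : ((y r).order.natAbs : ℤ) ≤ ((∑ r, (y r).order.natAbs : ℕ) : ℤ) := by
      exact_mod_cast h1
    linarith
  rw [map_mul, HahnSeries.ofPowerSeries_X_pow, Int.toNat_of_nonneg h2,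
    LaurentSeries.ofPowerSeries_powerSeriesPart, ← mul_assoc, HahnSeries.single_mul_single, mul_one]
  congr 2
  ring

end TwoA

open TwoA

theorem psys_of_laurent {k : Type*} [Field k] [CharZero k] (ι : Bz →+* k)
    (y x : A → LaurentSeries k)
    (hsol : IsSol ((HahnSeries.C (Γ := ℤ) (R := k)).comp ι) y x)
    (hr : Rigid ((HahnSeries.C (Γ := ℤ) (R := k)).comp ι) y x)
    (hp : ∃ h, (ov ((HahnSeries.C (Γ := ℤ) (R := k)).comp ι) y x h).order ≠ 0) :
    ∃ (M : ℕ) (y' x' : A → PowerSeries k), PSys ι M y' x' := by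
  obtain ⟨a, P, hP⟩ := exists_clear y
  obtain ⟨b, Q, hQ⟩ := exists_clear x
  set J : PowerSeries k →+* LaurentSeries k := HahnSeries.ofPowerSeries ℤ k with hJ
  have hJinj : Function.Injective J := HahnSeries.ofPowerSeries_injective
  have hJC : J.comp ((PowerSeries.C (R := k)).comp ι) =
      (HahnSeries.C (Γ := ℤ) (R := k)).comp ι := by
    ext1 z
    rw [RingHom.comp_apply, RingHom.comp_apply, RingHom.comp_apply]
    exact HahnSeries.ofPowerSeries_C _
  set ιP : Bz →+* PowerSeries k := (PowerSeries.C (R := k)).comp ι with hιP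
  set ιL : Bz →+* LaurentSeries k := (HahnSeries.C (Γ := ℤ) (R := k)).comp ι with hιL
  have hX : J PowerSeries.X ≠ 0 := by
    intro h0
    exact PowerSeries.X_ne_zero (hJinj (by rw [h0, map_zero]))
  have hJa : ∀ n : ℕ, J PowerSeries.X ^ n = HahnSeries.single (n : ℤ) 1 := by
    intro n
    rw [← map_pow, hJ, HahnSeries.ofPowerSeries_X_pow]
  -- transfer of overlaps
  have hov : ∀ (u v : A → PowerSeries k) (h : PS A),
      J (ov ιP u v h) = ov ιL (fun r => J (u r)) (fun r => J (v r)) h := by
    intro u v h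
    rw [map_ov, hJC]
  have hPy : (fun r => J (P r)) = fun r => J PowerSeries.X ^ a * y r := by
    funext r
    rw [hP r, hJa]
  have hQx : (fun r => J (Q r)) = fun r => J PowerSeries.X ^ b * x r := by
    funext r
    rw [hQ r, hJa]
  have hF : ∀ h, J (ov ιP P Q h) = J PowerSeries.X ^ (a + b) * ov ιL y x h := by
    intro h
    rw [hov, hPy, hQx, ov_smul_left, ov_smul_right, pow_add]
    ring
  have hn : ((Fintype.card A : PowerSeries k) + 1) ≠ 0 := by
    have : ((Fintype.card A : PowerSeries k) + 1) = PowerSeries.C (R := k) ((Fintype.card A : k) + 1) := by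
      rw [map_add, map_natCast, map_one]
    rw [this, Ne, map_eq_zero_iff _ PowerSeries.C_injective]
    exact_mod_cast Nat.succ_ne_zero (Fintype.card A)
  have hmul : ∀ h, ((Fintype.card A : PowerSeries k) + 1) * (ov ιP P Q h * ov ιP P Q (-h)) =
      eps A (PowerSeries k) h * PowerSeries.X ^ (2 * (a + b)) := by
    intro h
    apply hJinj
    rw [map_mul, map_mul, hF, hF, map_mul, map_eps, map_add, map_natCast, map_one, map_pow,
      ← hsol.mul h]
    ring
  -- the direction
  set x₁ : A → LaurentSeries k := fun r => (J PowerSeries.X ^ b)⁻¹ * J (th (Q r)) with hx₁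
  set y₁ : A → LaurentSeries k := fun r => (J PowerSeries.X ^ a)⁻¹ * J (th (P r)) -
    ((a + b : ℕ) : LaurentSeries k) * y r with hy₁
  have hXa : J PowerSeries.X ^ a ≠ 0 := pow_ne_zero _ hX
  have hXb : J PowerSeries.X ^ b ≠ 0 := pow_ne_zero _ hX
  have hyP : y = fun r => (J PowerSeries.X ^ a)⁻¹ * J (P r) := by
    funext r
    rw [hP r, ← hJa]
    field_simp
  have hxQ : x = fun r => (J PowerSeries.X ^ b)⁻¹ * J (Q r) := by
    funext r
    rw [hQ r, ← hJa]
    field_simp
  have hov2 : ∀ h, ov ιL y x₁ h =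
      (J PowerSeries.X ^ a)⁻¹ * ((J PowerSeries.X ^ b)⁻¹ * J (ov ιP P (fun r => th (Q r)) h)) := by
    intro h
    rw [hyP, hx₁, ov_smul_left, ov_smul_right, hov]
  have hov1 : ∀ h, ov ιL y₁ x h =
      (J PowerSeries.X ^ a)⁻¹ * ((J PowerSeries.X ^ b)⁻¹ * J (ov ιP (fun r => th (P r)) Q h)) -
        ((a + b : ℕ) : LaurentSeries k) * ov ιL y x h := by
    intro h
    have e1 : y₁ = fun r => (J PowerSeries.X ^ a)⁻¹ * J (th (P r)) +
        (-((a + b : ℕ) : LaurentSeries k)) * y r := by
      funext r
      rw [hy₁]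
      ring
    rw [e1, ov_add_left, ov_smul_left, ov_smul_left]
    have e2 : ov ιL (fun r => J (th (P r))) x h =
        (J PowerSeries.X ^ b)⁻¹ * J (ov ιP (fun r => th (P r)) Q h) := by
      rw [hov]
      conv_lhs => rw [hxQ]
      rw [ov_smul_right]
    rw [e2]
    ring
  have hfF : ∀ h, ov ιL y x h =
      (J PowerSeries.X ^ a)⁻¹ * ((J PowerSeries.X ^ b)⁻¹ * J (ov ιP P Q h)) := by
    intro h
    rw [hF, pow_add]
    field_simp
  have hdiff : ∀ h, ov ιL y₁ x h + ov ιL y x₁ h =
      (J PowerSeries.X ^ a)⁻¹ * ((J PowerSeries.X ^ b)⁻¹ * J (th (ov ιP P Q h))) -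
        ((a + b : ℕ) : LaurentSeries k) * ov ιL y x h := by
    intro h
    rw [hov1, hov2, th_ov, map_add]
    ring
  have hnL : ((Fintype.card A : LaurentSeries k) + 1) ≠ 0 := by
    intro h0
    apply hn
    apply hJinj
    rw [map_add, map_natCast, map_one, map_zero]
    exact h0
  have hth : ∀ h, th (ov ιP P Q h) * ov ιP P Q (-h) + ov ιP P Q h * th (ov ιP P Q (-h)) =
      ((2 * (a + b) : ℕ) : PowerSeries k) * (ov ιP P Q h * ov ιP P Q (-h)) := by
    intro h
    apply mul_left_cancel₀ hn
    have e1 : ((Fintype.card A : PowerSeries k) + 1) = PowerSeries.C (R := k) ((Fintype.card A : k) + 1) := by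
      rw [map_add, map_natCast, map_one]
    have e2 : th (((Fintype.card A : PowerSeries k) + 1) * (ov ιP P Q h * ov ιP P Q (-h))) =
        ((Fintype.card A : PowerSeries k) + 1) *
          (th (ov ιP P Q h) * ov ιP P Q (-h) + ov ιP P Q h * th (ov ιP P Q (-h))) := by
      rw [e1, th_C_mul, th_mul]
    rw [← e2, hmul]
    have e3 : eps A (PowerSeries k) h = PowerSeries.C (R := k) (eps A k h) := by
      rw [map_eps]
    rw [e3, th_C_mul, th_X_pow, ← e3]
    have e4 := hmul h
    linear_combination (-((2 * (a + b) : ℕ) : PowerSeries k)) * e4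
  have htan : Tangent ιL y x y₁ x₁ := by
    intro h
    rw [hdiff, hdiff]
    have e1 := congrArg J (hth h)
    rw [map_add, map_mul, map_mul, map_mul, map_mul, map_natCast] at e1
    rw [hfF h, hfF (-h)]
    push_cast at e1 ⊢
    linear_combination ((J PowerSeries.X ^ a)⁻¹ ^ 2 * (J PowerSeries.X ^ b)⁻¹ ^ 2) * e1
  have hstar := hr y₁ x₁ htan
  refine ⟨a + b, P, Q, ?_, hmul, ?_, ?_⟩
  · apply hJinj
    rw [hF, hsol.zero, mul_one, map_pow]
  · intro h
    have e1 := hstar h
    rw [hov2, hov2, hov2, hfF, hfF] at e1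
    apply hJinj
    change J ((ov ιP P (fun r => th (Q r)) h * ov ιP P Q (-h) +
      ov ιP P (fun r => th (Q r)) (-h) * ov ιP P Q h) * PowerSeries.X ^ (a + b)) =
        J (2 * ov ιP P (fun r => th (Q r)) 0 * (ov ιP P Q h * ov ιP P Q (-h)))
    simp only [map_mul, map_add, map_pow, map_ofNat]
    rw [pow_add]
    field_simp at e1
    linear_combination e1
  · obtain ⟨h, hh⟩ := hp
    refine ⟨h, fun h0 => hh ?_⟩
    have hne : ov ιL y x h ≠ 0 := by
      intro h1
      have h2 := hsol.mul h
      rw [h1, zero_mul, mul_zero] at h2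
      have h3 : eps A (LaurentSeries k) h ≠ 0 := by
        unfold eps
        split_ifs
        · exact hnL
        · exact one_ne_zero
      exact h3 h2.symm
    have hc : ∀ j : ℤ, (J (ov ιP P Q h)).coeff (j + ((a + b : ℕ) : ℤ)) = (ov ιL y x h).coeff j := by
      intro j
      rw [hF, hJa, HahnSeries.coeff_single_mul_add, one_mul]
    apply le_antisymm
    · apply HahnSeries.order_le_of_coeff_ne_zero
      rw [← hc 0, zero_add, hJ, HahnSeries.ofPowerSeries_apply_coeff]
      have h1 : ov ιP P Q h ≠ 0 := by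
        intro h2
        rw [h2, PowerSeries.order_zero] at h0
        exact ENat.top_ne_natCast _ h0
      have h2 := PowerSeries.coeff_order h1
      rwa [h0, ENat.toNat_natCast] at h2
    · by_contra hlt
      push Not at hlt
      have h2 : (ov ιL y x h).coeff (ov ιL y x h).order ≠ 0 :=
        fun h3 => hne (HahnSeries.coeff_order_eq_zero.1 h3)
      apply h2
      rw [← hc, hJ, PowerSeries.coeff_coe]
      split_ifs with h3
      · rfl
      · apply PowerSeries.coeff_of_lt_order
        rw [h0]
        have h4 : ((ov ιL y x h).order + ((a + b : ℕ) : ℤ)).natAbs < a + b := by omega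
        exact_mod_cast h4

end Pool.Agent.SicAb
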