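import Pool.Agent.Lib.MP_d0f9e0_co.Ab.Sys

/-!
# From the power series system to the coefficient system

The two-point trick: for the points `(y(sX), x(sX))` and `(y(X), x(X))` of one branch the mixed
overlap `<y(sX), D_h x(X)>` has the same order in `X` as the overlap `<y(X), D_h x(X)>`.
-/

namespace Pool.Agent.SicAb

open Finset

variable {A : Type} [AddCommGroup A] [Fintype A] [DecidableEq A]

section coefs

variable {R : Type*} [CommRing R]

/-- Coefficients of an overlap of power series. -/
theorem coeff_ov (ι : Bz →+* R) (y x : A → PowerSeries R) (h : PS A) (N : ℕ) :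
    PowerSeries.coeff N (ov ((PowerSeries.C (R := R)).comp ι) y x h) =
      ∑ p ∈ antidiagonal N, ov ι (fun r => PowerSeries.coeff p.1 (y r))
        (fun r => PowerSeries.coeff p.2 (x r)) h := by
  rw [ov_def, RingHom.comp_apply, PowerSeries.coeff_C_mul, map_sum]
  simp only [ov_def]
  rw [← Finset.mul_sum, Finset.sum_comm]
  congr 1
  apply Finset.sum_congr rfl
  intro r _
  have e1 : y r * ((PowerSeries.C (R := R)).comp ι) (ch h.2 r) * x (r + h.1) =
      PowerSeries.C (ι (ch h.2 r)) * (y r * x (r + h.1)) := by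
    rw [RingHom.comp_apply]; ring
  rw [e1, PowerSeries.coeff_C_mul, PowerSeries.coeff_mul, Finset.mul_sum]
  apply Finset.sum_congr rfl
  intro p _
  ring

/-- The map `f(X) ↦ f(sX)` into power series over `R[s]`. -/
noncomputable def phi1 : PowerSeries R →+* PowerSeries (Polynomial R) :=
  (PowerSeries.rescale (Polynomial.X : Polynomial R)).comp
    (PowerSeries.map (Polynomial.C : R →+* Polynomial R))

/-- The inclusion into power series over `R[s]`. -/
noncomputable def phi2 : PowerSeries R →+* PowerSeries (Polynomial R) :=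
  PowerSeries.map (Polynomial.C : R →+* Polynomial R)

/-- Evaluation at `s = 1`. -/
noncomputable def ev1 : PowerSeries (Polynomial R) →+* PowerSeries R :=
  PowerSeries.map (Polynomial.evalRingHom (1 : R))

theorem coeff_phi1 (f : PowerSeries R) (i : ℕ) :
    PowerSeries.coeff i (phi1 f) = Polynomial.X ^ i * Polynomial.C (PowerSeries.coeff i f) := by
  unfold phi1
  rw [RingHom.comp_apply, PowerSeries.coeff_rescale, PowerSeries.coeff_map]

theorem coeff_phi2 (f : PowerSeries R) (i : ℕ) :
    PowerSeries.coeff i (phi2 f) = Polynomial.C (PowerSeries.coeff i f) := by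
  unfold phi2
  rw [PowerSeries.coeff_map]

theorem ev1_phi1 (f : PowerSeries R) : ev1 (phi1 f) = f := by
  ext i
  unfold ev1
  rw [PowerSeries.coeff_map, coeff_phi1]
  simp

theorem ev1_phi2 (f : PowerSeries R) : ev1 (phi2 f) = f := by
  ext i
  unfold ev1
  rw [PowerSeries.coeff_map, coeff_phi2]
  simp

theorem phi1_C (a : R) : phi1 (PowerSeries.C a) = PowerSeries.C (Polynomial.C a) := by
  ext i
  rw [coeff_phi1, PowerSeries.coeff_C, PowerSeries.coeff_C]
  split_ifs with h0
  · rw [h0, pow_zero, one_mul]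
  · simp

theorem phi2_C (a : R) : phi2 (PowerSeries.C a) = PowerSeries.C (Polynomial.C a) := by
  unfold phi2
  rw [PowerSeries.map_C]

theorem X_pow_dvd_phi1 {f : PowerSeries R} {m : ℕ} (hf : PowerSeries.X ^ m ∣ f) :
    PowerSeries.X ^ m ∣ phi1 f := by
  rw [PowerSeries.X_pow_dvd_iff] at hf ⊢
  intro i hi
  rw [coeff_phi1, hf i hi, map_zero, mul_zero]

theorem X_pow_dvd_phi2 {f : PowerSeries R} {m : ℕ} (hf : PowerSeries.X ^ m ∣ f) :
    PowerSeries.X ^ m ∣ phi2 f := by
  rw [PowerSeries.X_pow_dvd_iff] at hf ⊢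
  intro i hi
  rw [coeff_phi2, hf i hi, map_zero]

theorem X_pow_dvd_ev1 {f : PowerSeries (Polynomial R)} {m : ℕ} (hf : PowerSeries.X ^ m ∣ f) :
    PowerSeries.X ^ m ∣ ev1 f := by
  rw [PowerSeries.X_pow_dvd_iff] at hf ⊢
  intro i hi
  unfold ev1
  rw [PowerSeries.coeff_map, hf i hi, map_zero]

theorem coeff_zero_of_sum {N : ℕ} (a : ℕ × ℕ → R)
    (h : ∑ p ∈ antidiagonal N, (Polynomial.X : Polynomial R) ^ p.1 * Polynomial.C (a p) = 0) :
    ∀ p ∈ antidiagonal N, a p = 0 := by
  intro p hp
  have h1 := congrArg (fun P : Polynomial R => P.coeff p.1) h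
  simp only [Polynomial.finsetSum_coeff, Polynomial.coeff_zero] at h1
  rw [Finset.sum_eq_single p] at h1
  · rw [Polynomial.coeff_X_pow_mul', if_pos le_rfl, Nat.sub_self, Polynomial.coeff_C_zero] at h1
    exact h1
  · intro q hq hqp
    have h2 : q.1 ≠ p.1 := by
      intro h3
      apply hqp
      rw [HasAntidiagonal.mem_antidiagonal] at hp hq
      exact Prod.ext h3 (by omega)
    rw [Polynomial.coeff_X_pow_mul']
    split_ifs with h4
    · rw [Polynomial.coeff_C, if_neg (by omega)]
    · rfl
  · intro h'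
    exact absurd hp h'

end coefs

/-- Leading coefficients multiply. -/
theorem coeff_mul_lead {R : Type*} [CommRing R] {F H : PowerSeries R} {a b : ℕ}
    (hF : PowerSeries.X ^ a ∣ F) (hH : PowerSeries.X ^ b ∣ H) :
    PowerSeries.coeff (a + b) (F * H) = PowerSeries.coeff a F * PowerSeries.coeff b H := by
  obtain ⟨F', rfl⟩ := hF
  obtain ⟨H', rfl⟩ := hH
  have e1 : PowerSeries.X ^ a * F' * (PowerSeries.X ^ b * H') =
      PowerSeries.X ^ (a + b) * (F' * H') := by ring
  have e2 : ∀ (n : ℕ) (P : PowerSeries R), PowerSeries.coeff n (PowerSeries.X ^ n * P) =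
      PowerSeries.coeff 0 P := by
    intro n P
    have := PowerSeries.coeff_X_pow_mul P n 0
    rwa [Nat.zero_add] at this
  rw [e1, e2, e2, e2]
  simp

/-- The setting of the two-point trick: powers of `X` dividing the mixed overlap. -/
theorem low_aux {k : Type*} [Field k] [CharZero k] {ι : Bz →+* k} {M : ℕ}
    {y x : A → PowerSeries k} {m : PS A → ℕ}
    (hdvd : ∀ g, PowerSeries.X ^ (m g) ∣ ov ((PowerSeries.C (R := k)).comp ι) y x g)
    (hmax : ∀ g N, PowerSeries.X ^ N ∣ ov ((PowerSeries.C (R := k)).comp ι) y x g → N ≤ m g)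
    (hneg : ∀ g, m g + m (-g) = 2 * M) (i j : ℕ) (g : PS A) (hij : i + j < m g) :
    ov ι (fun r => PowerSeries.coeff i (y r)) (fun r => PowerSeries.coeff j (x r)) g = 0 := by
  set ι' : Bz →+* PowerSeries k := (PowerSeries.C (R := k)).comp ι with hι'
  set ιs : Bz →+* Polynomial k := (Polynomial.C).comp ι with hιs
  set ι'' : Bz →+* PowerSeries (Polynomial k) :=
    (PowerSeries.C (R := Polynomial k)).comp ιs with hι''
  have ec1 : (phi1 (R := k)).comp ι' = ι'' := by
    ext b
    rw [RingHom.comp_apply, hι', RingHom.comp_apply, phi1_C]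
    rfl
  have ec2 : (phi2 (R := k)).comp ι' = ι'' := by
    ext b
    rw [RingHom.comp_apply, hι', RingHom.comp_apply, phi2_C]
    rfl
  have eev : (ev1 (R := k)).comp ι'' = ι' := by
    rw [← ec2]
    ext b
    simp only [RingHom.comp_apply, ev1_phi2]
  set y1 : A → PowerSeries (Polynomial k) := fun r => phi1 (y r) with hy1
  set x1 : A → PowerSeries (Polynomial k) := fun r => phi1 (x r) with hx1
  set y2 : A → PowerSeries (Polynomial k) := fun r => phi2 (y r) with hy2
  set x2 : A → PowerSeries (Polynomial k) := fun r => phi2 (x r) with hx2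
  have ef1 : ∀ g, ov ι'' y1 x1 g = phi1 (ov ι' y x g) := by
    intro g
    rw [map_ov, ec1]
  have ef2 : ∀ g, ov ι'' y2 x2 g = phi2 (ov ι' y x g) := by
    intro g
    rw [map_ov, ec2]
  have eP : ∀ g, ev1 (ov ι'' y1 x2 g) = ov ι' y x g := by
    intro g
    rw [map_ov, eev]
    simp only [hy1, hx2, ev1_phi1, ev1_phi2]
  have eQ : ∀ g, ev1 (ov ι'' y2 x1 g) = ov ι' y x g := by
    intro g
    rw [map_ov, eev]
    simp only [hy2, hx1, ev1_phi1, ev1_phi2]
  -- the product is divisible by `X ^ (2 M)`
  have hprod : PowerSeries.X ^ (2 * M) ∣ ov ι'' y1 x2 g * ov ι'' y2 x1 (-g) := by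
    have h1 := duality ι'' y1 x1 y2 x2 g
    have h2 : PowerSeries.X ^ (2 * M) ∣
        G ι'' (fun h => ov ι'' y1 x1 h * ov ι'' y2 x2 (-h)) g := by
      unfold G
      apply Finset.dvd_sum
      intro h _
      apply Dvd.dvd.mul_left
      simp only
      rw [ef1, ef2, ← hneg h, pow_add]
      exact mul_dvd_mul (X_pow_dvd_phi1 (hdvd h)) (X_pow_dvd_phi2 (hdvd (-h)))
    rw [h1] at h2
    have h3 : ((Fintype.card A : ℕ) : PowerSeries (Polynomial k)) =
        PowerSeries.C (Polynomial.C (Fintype.card A : k)) := by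
      rw [map_natCast, map_natCast]
    have h4 : IsUnit ((Fintype.card A : ℕ) : PowerSeries (Polynomial k)) := by
      rw [h3]
      have hn0 : (Fintype.card A : k) ≠ 0 := by exact_mod_cast Fintype.card_ne_zero
      exact ((isUnit_iff_ne_zero.mpr hn0).map (Polynomial.C : k →+* Polynomial k)).map
        (PowerSeries.C (R := Polynomial k))
    exact (h4.dvd_mul_left).mp h2
  -- orders
  have hPm : ∀ N, PowerSeries.X ^ N ∣ ov ι'' y1 x2 g → N ≤ m g := by
    intro N hN
    have h1 := X_pow_dvd_ev1 hN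
    rw [eP] at h1
    exact hmax g N h1
  have hQm : ∀ N, PowerSeries.X ^ N ∣ ov ι'' y2 x1 (-g) → N ≤ m (-g) := by
    intro N hN
    have h1 := X_pow_dvd_ev1 hN
    rw [eQ] at h1
    exact hmax (-g) N h1
  set P := ov ι'' y1 x2 g with hP
  set Q := ov ι'' y2 x1 (-g) with hQ
  have hP0 : P ≠ 0 := by
    intro h0
    have := hPm (m g + 1) (by rw [h0]; exact dvd_zero _)
    omega
  have hQ0 : Q ≠ 0 := by
    intro h0
    have := hQm (m (-g) + 1) (by rw [h0]; exact dvd_zero _)
    omega
  have hPo : P.order.toNat ≤ m g := hPm _ PowerSeries.X_pow_order_dvd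
  have hQo : Q.order.toNat ≤ m (-g) := hQm _ PowerSeries.X_pow_order_dvd
  have hPQ : 2 * M ≤ P.order.toNat + Q.order.toNat := by
    have h1 : ((2 * M : ℕ) : ℕ∞) ≤ (P * Q).order := by
      apply PowerSeries.nat_le_order
      rw [← PowerSeries.X_pow_dvd_iff]
      exact hprod
    rw [PowerSeries.order_mul, ← PowerSeries.coe_toNat_order hP0,
      ← PowerSeries.coe_toNat_order hQ0] at h1
    exact_mod_cast h1
  have hPe : m g ≤ P.order.toNat := by
    have := hneg g
    omega
  -- the coefficient of `P` at `i + j`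
  have h5 : PowerSeries.coeff (i + j) P = 0 := by
    apply PowerSeries.coeff_of_lt_order_toNat
    omega
  rw [hP, coeff_ov] at h5
  have h6 : ∀ p : ℕ × ℕ, ov ιs (fun r => PowerSeries.coeff p.1 (y1 r))
      (fun r => PowerSeries.coeff p.2 (x2 r)) g =
      Polynomial.X ^ p.1 * Polynomial.C (ov ι (fun r => PowerSeries.coeff p.1 (y r))
        (fun r => PowerSeries.coeff p.2 (x r)) g) := by
    intro p
    rw [map_ov, ← ov_smul_left]
    simp only [hy1, hx2, coeff_phi1, coeff_phi2, hιs]
  rw [Finset.sum_congr rfl fun p _ => h6 p] at h5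
  exact coeff_zero_of_sum _ h5 (i, j) (HasAntidiagonal.mem_antidiagonal.mpr rfl)

theorem csys_of_psys {k : Type*} [Field k] [CharZero k] {ι : Bz →+* k} {M : ℕ}
    {y x : A → PowerSeries k} (h : PSys ι M y x) :
    ∃ (m : PS A → ℕ) (c : PS A → k), CSys ι M m c
      (fun i r => PowerSeries.coeff i (y r)) (fun j r => PowerSeries.coeff j (x r)) := by
  set ι' : Bz →+* PowerSeries k := (PowerSeries.C (R := k)).comp ι with hι'
  set f : PS A → PowerSeries k := fun h => ov ι' y x h with hf
  have hn1 : (Fintype.card A : k) + 1 ≠ 0 := by exact_mod_cast Nat.succ_ne_zero (Fintype.card A)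
  have heps : ∀ h, eps A k h ≠ 0 := by
    intro h
    unfold eps
    split_ifs
    · exact hn1
    · exact one_ne_zero
  -- the number n + 1 as a constant
  have hC : (((Fintype.card A : ℕ) : PowerSeries k) + 1) =
      PowerSeries.C ((Fintype.card A : k) + 1) := by
    rw [map_add, map_natCast, map_one]
  have hE : ∀ h, eps A (PowerSeries k) h = PowerSeries.C (eps A k h) := fun h =>
    (map_eps (PowerSeries.C (R := k)) h).symm
  have hmul : ∀ g, PowerSeries.C ((Fintype.card A : k) + 1) * (f g * f (-g)) =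
      PowerSeries.C (eps A k g) * PowerSeries.X ^ (2 * M) := by
    intro g
    rw [← hC, ← hE]
    exact h.mul g
  have hf0 : ∀ g, f g ≠ 0 := by
    intro g hg
    have h1 := hmul g
    rw [hg, zero_mul, mul_zero] at h1
    have h2 := congrArg (PowerSeries.coeff (2 * M)) h1
    rw [map_zero, PowerSeries.coeff_C_mul, PowerSeries.coeff_X_pow_self, mul_one] at h2
    exact heps g h2.symm
  -- orders and leading coefficients
  set m : PS A → ℕ := fun g => (f g).order.toNat with hm
  set c : PS A → k := fun g => PowerSeries.coeff (m g) (f g) with hc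
  have hdvd : ∀ g, PowerSeries.X ^ (m g) ∣ f g := fun g => PowerSeries.X_pow_order_dvd
  have hc0 : ∀ g, c g ≠ 0 := fun g => PowerSeries.coeff_order (hf0 g)
  have hmax : ∀ g N, PowerSeries.X ^ N ∣ f g → N ≤ m g := by
    intro g N hN
    by_contra hlt
    rw [PowerSeries.X_pow_dvd_iff] at hN
    exact hc0 g (hN (m g) (by omega))
  have hlow' : ∀ g, PowerSeries.coeff (m g + m (-g)) (f g * f (-g)) = c g * c (-g) := fun g =>
    coeff_mul_lead (hdvd g) (hdvd (-g))
  have hneg : ∀ g, m g + m (-g) = 2 * M := by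
    intro g
    have h1 := congrArg (PowerSeries.coeff (m g + m (-g))) (hmul g)
    rw [PowerSeries.coeff_C_mul, PowerSeries.coeff_C_mul, hlow', PowerSeries.coeff_X_pow] at h1
    by_contra hne
    rw [if_neg hne, mul_zero] at h1
    exact mul_ne_zero hn1 (mul_ne_zero (hc0 g) (hc0 (-g))) h1
  have hcmul : ∀ g, ((Fintype.card A : k) + 1) * (c g * c (-g)) = eps A k g := by
    intro g
    have h1 := congrArg (PowerSeries.coeff (m g + m (-g))) (hmul g)
    rw [PowerSeries.coeff_C_mul, PowerSeries.coeff_C_mul, hlow', PowerSeries.coeff_X_pow,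
      if_pos (hneg g), mul_one] at h1
    exact h1
  have hlow : ∀ i j g, i + j < m g → ov ι (fun r => PowerSeries.coeff i (y r))
      (fun r => PowerSeries.coeff j (x r)) g = 0 := fun i j g hij =>
    low_aux hdvd hmax hneg i j g hij
  have hf00 : f 0 = PowerSeries.X ^ M := h.zero
  have hm0 : m 0 = M := by
    have h1 := hneg 0
    rw [neg_zero] at h1
    omega
  refine ⟨m, c, ?_⟩
  -- the second series in the rigidity identity
  set z : A → PowerSeries k := fun r => PowerSeries.X * PowerSeries.derivative k (x r) with hz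
  have hzc : ∀ r j, PowerSeries.coeff j (z r) = (j : k) * PowerSeries.coeff j (x r) := by
    intro r j
    rw [hz]
    simp only
    cases j with
    | zero => simp
    | succ j =>
      rw [PowerSeries.coeff_succ_X_mul, PowerSeries.coeff_derivative]
      push_cast
      ring
  have hzov : ∀ g N, PowerSeries.coeff N (ov ι' y z g) =
      ∑ p ∈ antidiagonal N, (p.2 : k) * ov ι (fun r => PowerSeries.coeff p.1 (y r))
        (fun r => PowerSeries.coeff p.2 (x r)) g := by
    intro g N
    rw [hι', coeff_ov]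
    apply Finset.sum_congr rfl
    intro p _
    simp only [hzc]
    rw [ov_smul_right]
  have hzdvd : ∀ g, PowerSeries.X ^ (m g) ∣ ov ι' y z g := by
    intro g
    rw [PowerSeries.X_pow_dvd_iff]
    intro N hN
    rw [hzov]
    apply Finset.sum_eq_zero
    intro p hp
    rw [HasAntidiagonal.mem_antidiagonal] at hp
    rw [hlow p.1 p.2 g (by omega), mul_zero]
  refine ⟨hm0, hneg, ?_, hcmul, ?_, ?_, ?_, ?_⟩
  · change PowerSeries.coeff (m 0) (f 0) = 1
    rw [hf00, hm0, PowerSeries.coeff_X_pow_self]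
  · exact fun i j g hij => hlow i j g hij
  · intro g
    change _ = PowerSeries.coeff (m g) (f g)
    rw [hf]
    simp only
    rw [hι', coeff_ov]
  · intro g
    have hs := congrArg (PowerSeries.coeff (2 * M + M)) (h.star g)
    rw [PowerSeries.coeff_mul_X_pow] at hs
    have e1 : PowerSeries.coeff (2 * M) (ov ι' y z g * ov ι' y x (-g)) =
        PowerSeries.coeff (m g) (ov ι' y z g) * c (-g) := by
      rw [← hneg g]
      exact coeff_mul_lead (hzdvd g) (hdvd (-g))
    have e2 : PowerSeries.coeff (2 * M) (ov ι' y z (-g) * ov ι' y x g) =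
        PowerSeries.coeff (m (-g)) (ov ι' y z (-g)) * c g := by
      rw [← hneg g, add_comm (m g)]
      exact coeff_mul_lead (hzdvd (-g)) (hdvd g)
    have e3 : PowerSeries.coeff (2 * M + M) (2 * ov ι' y z 0 *
        (ov ι' y x g * ov ι' y x (-g))) =
        2 * PowerSeries.coeff M (ov ι' y z 0) * (c g * c (-g)) := by
      have h1 : PowerSeries.X ^ (2 * M) ∣ ov ι' y x g * ov ι' y x (-g) := by
        rw [← hneg g, pow_add]
        exact mul_dvd_mul (hdvd g) (hdvd (-g))
      have h2 : PowerSeries.X ^ M ∣ ov ι' y z 0 := by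
        rw [← hm0]
        exact hzdvd 0
      have h3 : (2 : PowerSeries k) * ov ι' y z 0 * (ov ι' y x g * ov ι' y x (-g)) =
          PowerSeries.C 2 * (ov ι' y z 0 * (ov ι' y x g * ov ι' y x (-g))) := by
        rw [map_ofNat]; ring
      rw [h3, PowerSeries.coeff_C_mul, add_comm (2 * M) M, coeff_mul_lead h2 h1, ← hneg g]
      have h4 : PowerSeries.coeff (m g + m (-g)) (ov ι' y x g * ov ι' y x (-g)) = c g * c (-g) :=
        hlow' g
      rw [h4]
      ring
    rw [map_add, e1, e2, e3, hzov, hzov, hzov] at hs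
    exact hs
  · obtain ⟨g, hg⟩ := h.pole
    refine ⟨g, ?_⟩
    intro h0
    apply hg
    have h1 : (f g).order = ((m g : ℕ) : ℕ∞) := (PowerSeries.coe_toNat_order (hf0 g)).symm
    rw [h0] at h1
    exact h1

end Pool.Agent.SicAb
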