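import Pool.Agent.Lib.MP_d0f9e0_co.Ab.Alg
import Pool.Agent.Lib.MP_d0f9e0_co.Ab.Transfer
import Pool.Agent.Lib.MP_d0f9e0_co.Ab.TwoA
import Pool.Agent.Lib.MP_d0f9e0_co.Ab.TwoCoef
import Pool.Agent.Lib.MP_d0f9e0_co.Ab.Place
import Pool.Agent.Lib.MP_d0f9e0_co.Ab.Support
import Pool.Agent.Lib.MP_d0f9e0_co.Ab.Count

/-!
# The entries of a fiducial projector are algebraic
-/

set_option autoImplicit false

namespace Pool.Agent.SicAb

open Finset

variable {A : Type} [AddCommGroup A] [Fintype A] [DecidableEq A]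

/-- If there is no parabolic set then the entries of fiducial projectors are algebraic, over every
algebraically closed field with a positive definite star operation. -/
theorem algAll_of_noPara (hn : ¬ ∃ T : Finset (PS A), IsPara T) : AlgAll A := by
  classical
  intro K _ _ _ _ hpos ι x hx
  by_contra hcon0
  obtain ⟨h₀, hh₀⟩ : ∃ h : PS A, ¬ IsAlgebraic ℚ (ov ι (fun r => star (x r)) x h) := by
    by_contra hcon
    push Not at hcon
    exact hcon0 fun r s => isAlgebraic_entry ι (fun r => star (x r)) x hcon r s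
  obtain ⟨t, ht⟩ : ∃ t, t = ov ι (fun r => star (x r)) x h₀ := ⟨_, rfl⟩
  rw [← ht] at hh₀
  obtain ⟨S, hSdef⟩ : ∃ S : Finset K, S = insert t (univ.image x ∪ univ.image fun r => star (x r)) :=
    ⟨_, rfl⟩
  have htS : t ∈ S := by rw [hSdef]; exact mem_insert_self _ _
  obtain ⟨k, _, _, K', hι, hS, ι₀, e, he, hord⟩ := exists_laurent ι S htS hh₀
  have hxK : ∀ r, x r ∈ K' := fun r => hS _ (by
    rw [hSdef, mem_insert, mem_union, mem_image]
    exact Or.inr (Or.inl ⟨r, mem_univ r, rfl⟩))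
  have hyK : ∀ r, star (x r) ∈ K' := fun r => hS _ (by
    rw [hSdef, mem_insert, mem_union, mem_image, mem_image]
    exact Or.inr (Or.inr ⟨r, mem_univ r, rfl⟩))
  let ι' : Bz →+* K' := ι.codRestrict K' hι
  let y' : A → K' := fun r => ⟨star (x r), hyK r⟩
  let x' : A → K' := fun r => ⟨x r, hxK r⟩
  have hj : K'.subtype.comp ι' = ι := rfl
  have hsol' : IsSol ι' y' x' := IsSol.of_map K'.subtype Subtype.val_injective hx
  have hrig' : Rigid (e.comp ι') (fun r => e (y' r)) (fun r => e (x' r)) :=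
    rigid_transfer K'.subtype e ι' (y := y') (x := x') (rigid_real ι hpos hx)
  have hC : e.comp ι' = (HahnSeries.C (Γ := ℤ) (R := k)).comp ι₀ := by
    ext1 b
    exact he b
  have hsolL := hsol'.map e
  rw [hC] at hrig' hsolL
  have hpole : ∃ h, (ov ((HahnSeries.C (Γ := ℤ) (R := k)).comp ι₀) (fun r => e (y' r))
      (fun r => e (x' r)) h).order ≠ 0 := by
    refine ⟨h₀, ?_⟩
    rw [← hC, ← map_ov]
    have h1 : ov ι' y' x' h₀ = ⟨t, hS t htS⟩ := by
      apply Subtype.ext
      have h2 := map_ov ι' K'.subtype y' x' h₀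
      exact h2.trans ht.symm
    rw [h1]
    exact hord.ne
  obtain ⟨M, y₁, x₁, hps⟩ := psys_of_laurent ι₀ _ _ hsolL hrig' hpole
  obtain ⟨m, c, hcs⟩ := csys_of_psys hps
  exact hn (exists_para hcs (mono_of_csys hcs))

end Pool.Agent.SicAb
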