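import Pool.Agent.Lib.MP_d0f9e0_co.Ab.Sys

/-!
# No parabolic sets with the projection property in odd order

`even_rank` : let `M` be a square matrix over `C` indexed by a finite abelian group `A` of odd
order, with entries which are algebraic integers, even in each variable, with `M * M = c M` and
`tr M = c r`.  If `c / 2` is not an algebraic integer, then `r <= 1`.  (A vector in the range of
`M` which vanishes at `0` is an eigenvector, with eigenvalue `c / 2`, of the submatrix on a half
system.)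

`odd_kill` : if `|A| = n` is odd, `alpha : PS A -> C` has algebraic integer values, is even,
self-dual for `G`, satisfies `Sum_h pr k h alpha h alpha (k - h) = n ^ 2 alpha k` and
`4 alpha 0 = n (n + 1)`, then `n = 3`.
-/

namespace Pool.Agent.SicAb

open Finset

section rank

variable {A : Type} [AddCommGroup A] [Fintype A] [DecidableEq A]

omit [DecidableEq A] in
/-- In odd order only `0` is its own opposite. -/
private theorem ok_neg_ne (hodd : Odd (Fintype.card A)) {x : A} (hx : x ≠ 0) : -x ≠ x := by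
  intro h
  apply hx
  have h2 : 2 • x = 0 := by
    rw [two_nsmul]
    nth_rw 1 [← h]
    exact neg_add_cancel x
  have h3 : addOrderOf x ∣ 2 := addOrderOf_dvd_of_nsmul_eq_zero h2
  have h4 : addOrderOf x ∣ Fintype.card A := addOrderOf_dvd_card
  have h5 : Nat.Coprime 2 (Fintype.card A) := hodd.coprime_two_left
  have h6 : addOrderOf x ∣ 1 := by
    rw [← h5.gcd_eq_one]
    exact Nat.dvd_gcd h3 h4
  exact AddMonoid.addOrderOf_eq_one_iff.mp (Nat.dvd_one.mp h6)

omit [DecidableEq A] in
/-- A half system. -/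
private theorem ok_half (hodd : Odd (Fintype.card A)) :
    ∃ S : Finset A, ∀ x : A, x ≠ 0 → (x ∈ S ↔ -x ∉ S) ∧ (0 : A) ∉ S := by
  classical
  let e := Fintype.equivFin A
  refine ⟨univ.filter fun x => e x < e (-x), fun x hx => ⟨?_, ?_⟩⟩
  · have hne : e (-x) ≠ e x := fun h => ok_neg_ne hodd hx (e.injective h)
    simp only [mem_filter, mem_univ, true_and, neg_neg, not_lt]
    exact ⟨fun h => le_of_lt h, fun h => lt_of_le_of_ne h hne.symm⟩
  · simp

/-- Summation over a half system. -/
private theorem ok_sum_half {S : Finset A}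
    (hS : ∀ x : A, x ≠ 0 → (x ∈ S ↔ -x ∉ S) ∧ (0 : A) ∉ S) (h0S : (0 : A) ∉ S)
    (g : A → ℂ) (hg : ∀ x, g (-x) = g x) (hg0 : g 0 = 0) :
    ∑ x, g x = 2 * ∑ x ∈ S, g x := by
  have e1 : ∑ x, g x = ∑ x ∈ S, g x + ∑ x ∈ Sᶜ, g x := (sum_add_sum_compl S g).symm
  have e2 : ∑ x ∈ Sᶜ, g x = ∑ x ∈ S, g x := by
    have h0 : (0 : A) ∈ Sᶜ := mem_compl.mpr h0S
    rw [← add_sum_erase _ _ h0, hg0, zero_add]
    refine Finset.sum_bij' (fun x _ => -x) (fun x _ => -x) ?_ ?_ ?_ ?_ ?_
    · intro x hx
      rw [mem_erase, mem_compl] at hx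
      by_contra h
      exact hx.2 ((hS x hx.1).1.mpr h)
    · intro x hx
      have hx0 : x ≠ 0 := fun h => h0S (h ▸ hx)
      rw [mem_erase, mem_compl]
      exact ⟨neg_ne_zero.mpr hx0, (hS x hx0).1.mp hx⟩
    · intro x _
      exact neg_neg x
    · intro x _
      exact neg_neg x
    · intro x _
      exact (hg x).symm
  rw [e1, e2, two_mul]

/-- An eigenvalue of a matrix of algebraic integers is an algebraic integer. -/
private theorem ok_eigen {ι : Type} [Fintype ι] [DecidableEq ι] (M : Matrix ι ι ℂ)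
    (hM : ∀ i j, IsIntegral ℤ (M i j)) {v : ι → ℂ} (hv : v ≠ 0) {t : ℂ}
    (h : M.mulVec v = t • v) : IsIntegral ℤ t := by
  let R := integralClosure ℤ ℂ
  let M' : Matrix ι ι R := fun i j => ⟨M i j, hM i j⟩
  have e1 : M'.map (algebraMap R ℂ) = M := by
    ext i j
    rfl
  have e2 : (M.charpoly).eval t = 0 := by
    rw [Matrix.eval_charpoly]
    rw [← Matrix.exists_mulVec_eq_zero_iff]
    refine ⟨v, hv, ?_⟩
    rw [Matrix.sub_mulVec, h]
    ext i
    simp [Matrix.scalar_apply]
  have e3 : IsIntegral R t := by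
    refine ⟨M'.charpoly, Matrix.charpoly_monic M', ?_⟩
    rw [Polynomial.eval₂_eq_eval_map, ← Matrix.charpoly_map, e1]
    exact e2
  exact isIntegral_trans (R := ℤ) (A := R) t e3

/-- The rank bound. -/
theorem even_rank (hodd : Odd (Fintype.card A)) (M : Matrix A A ℂ)
    (hint : ∀ x z, IsIntegral ℤ (M x z)) (hr : ∀ x z, M x (-z) = M x z)
    (hl : ∀ x z, M (-x) z = M x z) {c : ℂ} (hc : c ≠ 0) (hc2 : ¬ IsIntegral ℤ (c / 2))
    (hsq : M * M = c • M) {r : ℕ} (htr : M.trace = c * r) : r ≤ 1 := by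
  classical
  let e : (A → ℂ) →ₗ[ℂ] (A → ℂ) := c⁻¹ • Matrix.toLin' M
  have he : IsIdempotentElem e := by
    show e ∘ₗ e = e
    ext1 i
    ext1
    simp only [e, LinearMap.comp_smul, LinearMap.smul_comp, ← Matrix.toLin'_mul, hsq, map_smul]
    rw [smul_smul, smul_smul, mul_assoc, inv_mul_cancel₀ hc, mul_one]
  have hproj : LinearMap.IsProj (LinearMap.range e) e :=
    (LinearMap.isProj_range_iff_isIdempotentElem e).mpr he
  have htr2 : LinearMap.trace ℂ (A → ℂ) e = r := by
    simp only [e, map_smul, Matrix.trace_toLin'_eq, htr, smul_eq_mul]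
    rw [← mul_assoc, inv_mul_cancel₀ hc, one_mul]
  have hrank : Module.finrank ℂ (LinearMap.range e) = r := by
    have h1 := hproj.trace
    rw [htr2] at h1
    exact_mod_cast h1.symm
  by_contra hlt
  push Not at hlt
  -- a vector of the range vanishing at zero
  let φ : LinearMap.range e →ₗ[ℂ] ℂ := (LinearMap.proj (0 : A)).comp (LinearMap.range e).subtype
  have hker : LinearMap.ker φ ≠ ⊥ := by
    intro hbot
    have h1 := LinearMap.finrank_range_add_finrank_ker φ
    rw [hbot, finrank_bot, add_zero, hrank] at h1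
    have h2 : Module.finrank ℂ (LinearMap.range φ) ≤ Module.finrank ℂ ℂ :=
      Submodule.finrank_le _
    rw [Module.finrank_self] at h2
    omega
  obtain ⟨w, hwker, hw0⟩ := Submodule.exists_mem_ne_zero_of_ne_bot hker
  obtain ⟨v, hvmem⟩ := w
  have hv0 : v 0 = 0 := by
    have := LinearMap.mem_ker.mp hwker
    exact this
  have hvne : v ≠ 0 := fun h => hw0 (Subtype.ext h)
  have hev : e v = v := (hproj.mem_iff_map_id).mp hvmem
  have hMv : M.mulVec v = c • v := by
    have h1 : c⁻¹ • M.mulVec v = v := by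
      have h2 := hev
      simp only [e, LinearMap.smul_apply, Matrix.toLin'_apply] at h2
      exact h2
    rw [← h1, smul_smul, mul_inv_cancel₀ hc, one_smul, h1]
  have hveven : ∀ x, v (-x) = v x := by
    intro x
    have h1 := congrFun hMv x
    have h2 := congrFun hMv (-x)
    simp only [Matrix.mulVec, dotProduct, Pi.smul_apply, smul_eq_mul, hl] at h1 h2
    exact mul_left_cancel₀ hc (h2.symm.trans h1)
  obtain ⟨S, hS⟩ := ok_half hodd
  have hne : ∃ x : A, x ≠ 0 ∧ v x ≠ 0 := by
    by_contra hcon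
    push Not at hcon
    apply hvne
    ext x
    by_cases hx : x = 0
    · rw [hx, hv0]; rfl
    · exact hcon x hx
  obtain ⟨x₀, hx₀, hvx₀⟩ := hne
  have h0S : (0 : A) ∉ S := (hS x₀ hx₀).2
  let N : Matrix S S ℂ := fun x z => M x z
  let u : S → ℂ := fun x => v x
  have hu : u ≠ 0 := by
    intro h
    by_cases hx : x₀ ∈ S
    · exact hvx₀ (congrFun h ⟨x₀, hx⟩)
    · have hx2 : -x₀ ∈ S := by
        by_contra h'
        exact hx ((hS x₀ hx₀).1.mpr h')
      have := congrFun h ⟨-x₀, hx2⟩
      apply hvx₀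
      rw [← hveven x₀]
      exact this
  have hNu : N.mulVec u = (c / 2) • u := by
    ext x
    have h1 := congrFun hMv x
    simp only [Matrix.mulVec, dotProduct, Pi.smul_apply, smul_eq_mul] at h1
    rw [ok_sum_half hS h0S (fun z => M x z * v z)
      (fun z => by simp only [hr, hveven]) (by simp [hv0])] at h1
    have h2 : ∑ z : S, N x z * u z = ∑ z ∈ S, M x z * v z :=
      Finset.sum_coe_sort S (fun z => M x z * v z)
    simp only [Matrix.mulVec, dotProduct, Pi.smul_apply, smul_eq_mul]
    rw [h2]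
    show _ = c / 2 * v x
    linear_combination h1 / 2
  exact hc2 (ok_eigen N (fun i j => hint _ _) hu hNu)

end rank

section operator

variable {A : Type} [AddCommGroup A] [Fintype A] [DecidableEq A]

/-- The matrix of `v |-> (x |-> Sum_h alpha h h.2(x - h.1) v(x - 2 h.1))`. -/
private noncomputable def okM (α : PS A → ℂ) : Matrix A A ℂ := fun x z =>
  ∑ h : PS A, if x - h.1 - h.1 = z then α h * h.2 (x - h.1) else 0

private theorem okM_mulVec (α : PS A → ℂ) (v : A → ℂ) (x : A) :
    (okM α).mulVec v x = ∑ h : PS A, α h * h.2 (x - h.1) * v (x - h.1 - h.1) := by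
  simp only [Matrix.mulVec, dotProduct, okM, sum_mul]
  rw [sum_comm]
  refine sum_congr rfl fun h _ => ?_
  simp only [ite_mul, zero_mul]
  rw [sum_ite_eq, if_pos (mem_univ _)]

omit [Fintype A] [DecidableEq A] in
private theorem ok_pr (k h : PS A) [Fintype A] : ((pr k h : Bz) : ℂ) = h.2 k.1 * k.2 (-h.1) := rfl

private theorem ok_sum_char (x : A) :
    ∑ χ : AddChar A ℂ, χ x = if x = 0 then (Fintype.card A : ℂ) else 0 := by
  have h := congrArg (fun z : Bz => (z : ℂ)) (sum_ch x)
  beta_reduce at h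
  rw [AddSubmonoidClass.coe_finsetSum] at h
  simp only [ch_val] at h
  rw [h]
  split_ifs <;> simp

private theorem ok_sum_char' (χ : AddChar A ℂ) :
    ∑ x : A, χ x = if χ = 0 then (Fintype.card A : ℂ) else 0 := by
  have h := congrArg (fun z : Bz => (z : ℂ)) (sum_ch_left χ)
  beta_reduce at h
  rw [AddSubmonoidClass.coe_finsetSum] at h
  simp only [ch_val] at h
  rw [h]
  split_ifs <;> simp

/-- Self-duality: the operator does not see the parity. -/
private theorem okM_neg {α : PS A → ℂ}
    (hself : ∀ k, ∑ h, ((pr k h : Bz) : ℂ) * α h = (Fintype.card A : ℂ) * α k) (v : A → ℂ) :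
    (okM α).mulVec (fun x => v (-x)) = (okM α).mulVec v := by
  ext x
  have hn : (Fintype.card A : ℂ) ≠ 0 := Nat.cast_ne_zero.mpr Fintype.card_ne_zero
  apply mul_left_cancel₀ hn
  symm
  rw [okM_mulVec, okM_mulVec, mul_sum, mul_sum]
  have e1 : ∀ k : PS A, (Fintype.card A : ℂ) * (α k * k.2 (x - k.1) * v (x - k.1 - k.1)) =
      ∑ h : PS A, α h * (h.2 k.1 * v (x - k.1 - k.1) * (k.2 (x - k.1 - h.1))) := by
    intro k
    rw [← mul_assoc, ← mul_assoc, ← hself k, sum_mul, sum_mul]
    refine sum_congr rfl fun h _ => ?_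
    rw [ok_pr, sub_eq_add_neg (x - k.1) h.1, AddChar.map_add_eq_mul]
    ring
  rw [sum_congr rfl fun k _ => e1 k, sum_comm]
  refine sum_congr rfl fun h _ => ?_
  rw [← mul_sum, Fintype.sum_prod_type]
  have e2 : ∀ b : A, ∑ χ : AddChar A ℂ, (h.2 b * v (x - b - b) * (χ (x - b - h.1))) =
      if b = x - h.1 then (Fintype.card A : ℂ) * (h.2 (x - h.1) * v (-(x - h.1 - h.1))) else 0 := by
    intro b
    rw [← mul_sum, ok_sum_char]
    by_cases hb : b = x - h.1
    · have e3 : x - b - h.1 = 0 := by rw [hb]; abel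
      have e4 : x - b - b = -(x - h.1 - h.1) := by rw [hb]; abel
      rw [if_pos e3, if_pos hb, e4, hb]
      ring
    · have e3 : x - b - h.1 ≠ 0 := by
        intro h'
        apply hb
        rw [sub_sub, sub_eq_zero] at h'
        rw [h']
        abel
      rw [if_neg e3, if_neg hb, mul_zero]
  rw [sum_congr rfl fun b _ => e2 b, sum_ite_eq', if_pos (mem_univ _)]
  ring

/-- The range consists of even functions. -/
private theorem okM_even {α : PS A → ℂ} (heven : ∀ h, α (-h) = α h)
    (hself : ∀ k, ∑ h, ((pr k h : Bz) : ℂ) * α h = (Fintype.card A : ℂ) * α k) (v : A → ℂ)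
    (x : A) : (okM α).mulVec v (-x) = (okM α).mulVec v x := by
  rw [← okM_neg hself v, okM_mulVec, okM_mulVec, ← Equiv.sum_comp (Equiv.neg (PS A))]
  have e1 := congrFun (okM_neg hself v) x
  rw [okM_mulVec, okM_mulVec] at e1
  rw [e1]
  refine sum_congr rfl fun h _ => ?_
  simp only [Equiv.neg_apply, heven, Prod.fst_neg, Prod.snd_neg]
  rw [AddChar.neg_apply]
  have e2 : -(-x - -h.1) = x - h.1 := by abel
  have e3 : -(-x - -h.1 - -h.1) = x - h.1 - h.1 := by abel
  rw [e2, e3]

/-- Twisted convolution. -/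
private theorem okM_mul (α β : PS A → ℂ) :
    okM α * okM β = okM fun k => ∑ h, ((pr k h : Bz) : ℂ) * (α h * β (k - h)) := by
  have key : ∀ v : A → ℂ, (okM α * okM β).mulVec v =
      (okM fun k => ∑ h, ((pr k h : Bz) : ℂ) * (α h * β (k - h))).mulVec v := by
    intro v
    ext x
    rw [← Matrix.mulVec_mulVec, okM_mulVec, okM_mulVec]
    have e1 : ∀ h : PS A, α h * h.2 (x - h.1) * (okM β).mulVec v (x - h.1 - h.1) =
        ∑ s : PS A, s.2 (x - s.1) * v (x - s.1 - s.1) *
          (((pr s h : Bz) : ℂ) * (α h * β (s - h))) := by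
      intro h
      rw [okM_mulVec, ← Equiv.sum_comp (Equiv.subRight h), mul_sum]
      refine sum_congr rfl fun s _ => ?_
      simp only [Equiv.subRight_apply, Prod.fst_sub, Prod.snd_sub]
      have e2 : x - h.1 - h.1 - (s.1 - h.1) - (s.1 - h.1) = x - s.1 - s.1 := by abel
      have e3 : x - h.1 - h.1 - (s.1 - h.1) = x - s.1 + -h.1 := by abel
      have e4 : (s.2 - h.2) (x - s.1 + -h.1) = s.2 (x - s.1) * s.2 (-h.1) *
          h.2 (-(x - s.1 + -h.1)) := by
        rw [AddChar.sub_apply, AddChar.map_add_eq_mul]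
      have e5 : h.2 (x - h.1) * h.2 (-(x - s.1 + -h.1)) = h.2 s.1 := by
        rw [← AddChar.map_add_eq_mul]
        congr 1
        abel
      rw [e2, e3, e4, ok_pr]
      linear_combination (α h * β (s - h) * s.2 (x - s.1) * s.2 (-h.1) *
        v (x - s.1 - s.1)) * e5
    rw [sum_congr rfl fun h _ => e1 h, sum_comm]
    refine sum_congr rfl fun s _ => ?_
    rw [← mul_sum]
    ring
  exact Matrix.ext_of_mulVec_single fun i => key (Pi.single i 1)

private theorem okM_congr {α β : PS A → ℂ} (h : ∀ k, α k = β k) : okM α = okM β := by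
  rw [funext h]

private theorem okM_smul (c : ℂ) (α : PS A → ℂ) : okM (fun k => c * α k) = c • okM α := by
  ext x z
  simp only [okM, Matrix.smul_apply, smul_eq_mul, mul_sum]
  refine sum_congr rfl fun h _ => ?_
  split_ifs
  · ring
  · ring

private theorem okM_add (α β : PS A → ℂ) : okM (fun k => α k + β k) = okM α + okM β := by
  ext x z
  simp only [okM, Matrix.add_apply]
  rw [← sum_add_distrib]
  refine sum_congr rfl fun h _ => ?_
  split_ifs
  · ring
  · ring

private theorem okM_sq {α : PS A → ℂ} {c : ℂ}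
    (hidem : ∀ k, ∑ h, ((pr k h : Bz) : ℂ) * (α h * α (k - h)) = c * α k) :
    okM α * okM α = c • okM α := by
  rw [okM_mul, okM_congr hidem, okM_smul]

private theorem okM_trace (hodd : Odd (Fintype.card A)) (α : PS A → ℂ) :
    (okM α).trace = (Fintype.card A : ℂ) * α 0 := by
  simp only [Matrix.trace, Matrix.diag, okM]
  rw [sum_comm]
  have e1 : ∀ h : PS A, (∑ x : A, if x - h.1 - h.1 = x then α h * h.2 (x - h.1) else 0) =
      if h = 0 then (Fintype.card A : ℂ) * α 0 else 0 := by
    intro h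
    by_cases h1 : h.1 = 0
    · have e2 : ∀ x : A, (if x - h.1 - h.1 = x then α h * h.2 (x - h.1) else 0) =
          α h * h.2 x := by
        intro x
        rw [h1, sub_zero, sub_zero, if_pos rfl]
      rw [sum_congr rfl fun x _ => e2 x, ← mul_sum, ok_sum_char']
      by_cases h2 : h.2 = 0
      · have h3 : h = 0 := Prod.ext h1 h2
        rw [if_pos h2, if_pos h3, h3]
        ring
      · have h3 : h ≠ 0 := fun h' => h2 (by rw [h']; rfl)
        rw [if_neg h2, if_neg h3, mul_zero]
    · have h3 : h ≠ 0 := fun h' => h1 (by rw [h']; rfl)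
      rw [if_neg h3]
      refine sum_eq_zero fun x _ => ?_
      rw [if_neg]
      intro h'
      apply ok_neg_ne hodd h1
      have h4 : x - h.1 - h.1 + (h.1 - x) = x + (h.1 - x) := by rw [h']
      have h5 : x - h.1 - h.1 + (h.1 - x) = -h.1 := by abel
      have h6 : x + (h.1 - x) = h.1 := by abel
      rw [← h5, h4, h6]
  rw [sum_congr rfl fun h _ => e1 h, sum_ite_eq', if_pos (mem_univ _)]

private theorem okM_int {α : PS A → ℂ} (hint : ∀ h, IsIntegral ℤ (α h)) (x z : A) :
    IsIntegral ℤ (okM α x z) := by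
  refine IsIntegral.sum _ fun h _ => ?_
  split_ifs
  · refine (hint h).mul ?_
    refine IsIntegral.of_pow (n := Fintype.card A) Fintype.card_pos ?_
    rw [← AddChar.map_nsmul_eq_pow, card_nsmul_eq_zero, AddChar.map_zero_eq_one]
    exact isIntegral_one
  · exact isIntegral_zero

private theorem odd_kill_aux (hodd : Odd (Fintype.card A)) (α : PS A → ℂ)
    (hint : ∀ h, IsIntegral ℤ (α h)) (heven : ∀ h, α (-h) = α h)
    (hself : ∀ k, ∑ h, ((pr k h : Bz) : ℂ) * α h = (Fintype.card A : ℂ) * α k)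
    (hsq : okM α * okM α = (Fintype.card A : ℂ) ^ 2 • okM α)
    {t : ℕ} (h0 : α 0 = t)
    (h4 : 4 * t = Fintype.card A * (Fintype.card A + 1)) : Fintype.card A = 3 := by
  have hn0 : (Fintype.card A : ℂ) ≠ 0 := Nat.cast_ne_zero.mpr Fintype.card_ne_zero
  have hpos : 0 < Fintype.card A := Fintype.card_pos
  have hcop : Nat.Coprime (Fintype.card A) 4 := by
    have := (Nat.coprime_two_right.mpr hodd).pow_right 2
    exact this
  obtain ⟨r, hr⟩ : 4 ∣ Fintype.card A + 1 :=
    hcop.symm.dvd_of_dvd_mul_left (Dvd.intro _ h4)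
  have ht : t = Fintype.card A * r := by
    rw [hr] at h4
    have : 4 * t = 4 * (Fintype.card A * r) := by rw [h4]; ring
    omega
  have hc2 : ¬ IsIntegral ℤ ((Fintype.card A : ℂ) ^ 2 / 2) := by
    intro h
    have h1 : IsIntegral ℤ (((Fintype.card A : ℚ) ^ 2 / 2 : ℚ) : ℂ) := by
      push_cast
      exact h
    have h2 : IsIntegral ℤ ((Fintype.card A : ℚ) ^ 2 / 2) := by
      have h3 : Function.Injective (algebraMap ℚ ℂ) := (algebraMap ℚ ℂ).injective
      exact (isIntegral_algebraMap_iff h3).mp h1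
    obtain ⟨m, hm⟩ := IsIntegrallyClosed.isIntegral_iff.mp h2
    have h5 : ((2 * m : ℤ) : ℚ) = ((Fintype.card A ^ 2 : ℤ) : ℚ) := by
      push_cast
      have h6 : (m : ℚ) = (Fintype.card A : ℚ) ^ 2 / 2 := hm
      rw [h6]
      ring
    have h7 : (2 * m : ℤ) = (Fintype.card A ^ 2 : ℤ) := by exact_mod_cast h5
    have h8 : Odd ((Fintype.card A : ℤ) ^ 2) := by
      exact_mod_cast hodd.pow
    rw [← h7] at h8
    exact (Int.not_odd_iff_even.mpr ⟨m, by ring⟩) h8
  have hr1 : r ≤ 1 := by
    refine even_rank hodd (okM α) (okM_int hint) ?_ ?_ (pow_ne_zero 2 hn0) hc2 hsq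
      (r := r) ?_
    · intro x z
      have h1 := congrFun (okM_neg hself (Pi.single z (1 : ℂ))) x
      have h2 : (fun y : A => (Pi.single z (1 : ℂ) : A → ℂ) (-y)) = Pi.single (-z) 1 := by
        ext y
        simp only [Pi.single_apply, neg_eq_iff_eq_neg]
      rw [h2, Matrix.mulVec_single_one, Matrix.mulVec_single_one] at h1
      exact h1
    · intro x z
      have h1 := okM_even heven hself (Pi.single z (1 : ℂ)) x
      rw [Matrix.mulVec_single_one] at h1
      exact h1
    · rw [okM_trace hodd, h0, ht]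
      push_cast
      ring
  have : r ≠ 0 := by
    rintro rfl
    omega
  omega

/-- No projection of the parabolic type in odd order greater than three. -/
theorem odd_kill (hodd : Odd (Fintype.card A)) (α : PS A → ℂ) (hint : ∀ h, IsIntegral ℤ (α h))
    (heven : ∀ h, α (-h) = α h)
    (hself : ∀ k, ∑ h, ((pr k h : Bz) : ℂ) * α h = (Fintype.card A : ℂ) * α k)
    (hidem : ∀ k, ∑ h, ((pr k h : Bz) : ℂ) * (α h * α (k - h)) = (Fintype.card A : ℂ) ^ 2 * α k)
    {t : ℕ} (h0 : α 0 = t)
    (h4 : 4 * t = Fintype.card A * (Fintype.card A + 1)) : Fintype.card A = 3 :=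
  odd_kill_aux hodd α hint heven hself (okM_sq hidem) h0 h4

private theorem ok_pr_mul_swap (k h : PS A) : ((pr k h : Bz) : ℂ) * ((pr h k : Bz) : ℂ) = 1 := by
  have := congrArg (fun z : Bz => (z : ℂ)) (pr_mul_swap k h)
  exact this

private theorem ok_star_pr (k h : PS A) : star ((pr k h : Bz) : ℂ) = ((pr h k : Bz) : ℂ) := by
  have h1 : star ((pr k h : Bz) : ℂ) * ((pr k h : Bz) : ℂ) = 1 := by
    rw [ok_pr, star_mul]
    have e : ∀ (χ : AddChar A ℂ) (x : A), star (χ x) * χ x = 1 := by
      intro χ x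
      have h2 : ‖χ x‖ = 1 := AddChar.norm_apply χ x
      rw [Complex.star_def, ← Complex.normSq_eq_conj_mul_self, Complex.normSq_eq_norm_sq, h2]
      simp
    linear_combination (h.2 k.1 * star (h.2 k.1)) * e k.2 (-h.1) + e h.2 k.1
  have h2 := ok_pr_mul_swap k h
  have h3 : ((pr k h : Bz) : ℂ) ≠ 0 := left_ne_zero_of_mul_eq_one h2
  apply mul_right_cancel₀ h3
  rw [h1, mul_comm, h2]

private theorem ok_star_Dsum (T : Finset (PS A)) (k : PS A) : star (Dsum T k) = Dsum T (-k) := by
  unfold Dsum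
  rw [star_sum]
  refine sum_congr rfl fun h _ => ?_
  rw [ok_star_pr, pr_neg_left]

omit [DecidableEq A] in
private theorem ok_int_char (χ : AddChar A ℂ) (x : A) : IsIntegral ℤ (χ x) := by
  refine IsIntegral.of_pow (n := Fintype.card A) Fintype.card_pos ?_
  rw [← AddChar.map_nsmul_eq_pow, card_nsmul_eq_zero, AddChar.map_zero_eq_one]
  exact isIntegral_one

omit [DecidableEq A] in
private theorem ok_int_Dsum (T : Finset (PS A)) (k : PS A) : IsIntegral ℤ (Dsum T k) :=
  IsIntegral.sum _ fun h _ => (ok_int_char h.2 k.1).mul (ok_int_char k.2 (-h.1))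

private theorem ok_int_norm (T : Finset (PS A)) (k : PS A) :
    IsIntegral ℤ ((‖Dsum T k‖ : ℝ) : ℂ) := by
  refine IsIntegral.of_pow (n := 2) (by norm_num) ?_
  have e : ((‖Dsum T k‖ : ℝ) : ℂ) ^ 2 = Dsum T k * Dsum T (-k) := by
    rw [← ok_star_Dsum, Complex.star_def, Complex.mul_conj, Complex.normSq_eq_norm_sq]
    push_cast
    ring
  rw [e]
  exact (ok_int_Dsum T k).mul (ok_int_Dsum T (-k))

/-- The case distinction of `IsPara` in one line. -/
private theorem ok_eps {T : Finset (PS A)} (hT : IsPara T) (k : PS A) :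
    2 * ((‖Dsum T k‖ : ℝ) : ℂ) + Dsum T k + Dsum T (-k) +
      (Fintype.card A : ℂ) * (if k ∈ T then 1 else 0) +
      (Fintype.card A : ℂ) * (if -k ∈ T then 1 else 0) =
    (Fintype.card A : ℂ) * 1 + (Fintype.card A : ℂ) ^ 2 * (if k = 0 then 1 else 0) := by
  have hre : Dsum T k + Dsum T (-k) = ((2 * (Dsum T k).re : ℝ) : ℂ) := by
    rw [← ok_star_Dsum, Complex.star_def, Complex.add_conj]
  by_cases hk : k ∈ T
  · have h1 := hT.disj k hk
    have h2 := hT.zero k hk
    have h0 : k ≠ 0 := by
      intro h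
      apply h1
      rw [h, neg_zero]
      rw [h] at hk
      exact hk
    have h3 : Dsum T (-k) = 0 := by rw [← ok_star_Dsum, h2, star_zero]
    rw [if_pos hk, if_neg h1, if_neg h0, h2, h3, norm_zero]
    push_cast
    ring
  · by_cases hk' : -k ∈ T
    · have h2 := hT.zero (-k) hk'
      have h3 : Dsum T k = 0 := by
        have h4 := ok_star_Dsum T (-k)
        rw [h2, star_zero, neg_neg] at h4
        exact h4.symm
      have h0 : k ≠ 0 := by
        intro h
        apply hk
        rw [h, neg_zero] at hk'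
        rw [h]
        exact hk'
      rw [if_neg hk, if_pos hk', if_neg h0, h2, h3, norm_zero]
      push_cast
      ring
    · by_cases h0 : k = 0
      · have h4 : Dsum T k = (T.card : ℂ) := by
          unfold Dsum
          rw [h0]
          simp
        have h5 : ((‖Dsum T k‖ : ℝ) : ℂ) = (T.card : ℂ) := by
          rw [h4, Complex.norm_natCast]
          push_cast
          ring
        have h6 : Dsum T (-k) = (T.card : ℂ) := by
          rw [← ok_star_Dsum, h4, star_natCast]
        have h7 : (4 : ℂ) * (T.card : ℂ) = (Fintype.card A : ℂ) * ((Fintype.card A : ℂ) + 1) := by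
          have := hT.card
          exact_mod_cast this
        rw [if_neg hk, if_neg hk', if_pos h0, h5, h4, h6]
        linear_combination h7
      · have h1 := hT.real k h0 hk hk'
        rw [if_neg hk, if_neg hk', if_neg h0]
        have h2 : 2 * ((‖Dsum T k‖ : ℝ) : ℂ) + (Dsum T k + Dsum T (-k)) = (Fintype.card A : ℂ) := by
          rw [hre]
          have h3 := congrArg (fun x : ℝ => (x : ℂ)) h1
          push_cast at h3
          push_cast
          linear_combination h3
        linear_combination h2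

/-- The twisted relations for `(T, T)` and `(T, -T)` make `|Dsum T|` idempotent. -/
private theorem ok_idem {T : Finset (PS A)} (hT : IsPara T)
    (hP : ∀ s, ∑ h ∈ T.filter (fun h => h - s ∈ T), ((pr h s : Bz) : ℂ) =
      ∑ h ∈ T, ((pr h s : Bz) : ℂ))
    (hX : ∀ s, ∑ h ∈ T.filter (fun h => s - h ∈ T), ((pr s h : Bz) : ℂ) = 0) :
    okM (fun h => ((‖Dsum T h‖ : ℝ) : ℂ)) * okM (fun h => ((‖Dsum T h‖ : ℝ) : ℂ)) =
      (Fintype.card A : ℂ) ^ 2 • okM (fun h => ((‖Dsum T h‖ : ℝ) : ℂ)) := by
  set n : ℂ := (Fintype.card A : ℂ) with hn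
  have hn0 : n ≠ 0 := Nat.cast_ne_zero.mpr Fintype.card_ne_zero
  set X : Matrix A A ℂ := okM fun h => if h ∈ T then 1 else 0 with hXdef
  set X' : Matrix A A ℂ := okM fun h => if -h ∈ T then 1 else 0 with hX'def
  set J : Matrix A A ℂ := okM fun _ => 1 with hJdef
  set N : Matrix A A ℂ := okM (Dsum T) with hNdef
  set N' : Matrix A A ℂ := okM (fun k => Dsum T (-k)) with hN'def
  set O : Matrix A A ℂ := okM (fun h => ((‖Dsum T h‖ : ℝ) : ℂ)) with hOdef
  have hδ : okM (fun k : PS A => if k = 0 then (1 : ℂ) else 0) = (1 : Matrix A A ℂ) := by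
    apply Matrix.ext_of_mulVec_single
    intro i
    ext x
    rw [okM_mulVec, Matrix.one_mulVec, sum_eq_single (0 : PS A)]
    · simp
    · intro h _ hh
      rw [if_neg hh]
      ring
    · intro h
      exact absurd (mem_univ _) h
  have hJJ : J * J = n ^ 2 • (1 : Matrix A A ℂ) := by
    rw [hJdef, okM_mul, ← hδ, ← okM_smul]
    apply okM_congr
    intro k
    have h1 := congrArg (fun z : Bz => (z : ℂ)) (sum_pr k)
    beta_reduce at h1
    rw [AddSubmonoidClass.coe_finsetSum] at h1
    simp only [mul_one]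
    rw [h1, hn]
    split_ifs <;> simp
  have hXJ : X * J = N := by
    rw [hXdef, hJdef, okM_mul]
    apply okM_congr
    intro k
    unfold Dsum
    simp only [mul_one, mul_ite, mul_zero]
    rw [sum_ite_mem, univ_inter]
  have hJX : J * X = N' := by
    rw [hXdef, hJdef, okM_mul]
    apply okM_congr
    intro k
    unfold Dsum
    rw [← Equiv.sum_comp (Equiv.subLeft k)]
    simp only [Equiv.subLeft_apply, sub_sub_cancel, mul_ite, mul_one, mul_zero]
    rw [sum_ite_mem, univ_inter]
    refine sum_congr rfl fun h _ => ?_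
    congr 1
    rw [sub_eq_add_neg, pr_add_right, pr_neg_right, pr_neg_left]
    have e : pr k k = 1 := by
      unfold pr
      exact ch_mul_neg _ _
    rw [e, one_mul]
  have hX'J : X' * J = N' := by
    rw [hX'def, hJdef, okM_mul]
    apply okM_congr
    intro k
    unfold Dsum
    rw [← Equiv.sum_comp (Equiv.neg (PS A))]
    simp only [Equiv.neg_apply, neg_neg, mul_one, mul_ite, mul_zero]
    rw [sum_ite_mem, univ_inter]
    refine sum_congr rfl fun h _ => ?_
    exact congrArg (fun z : Bz => (z : ℂ)) ((pr_neg_right k h).trans (pr_neg_left k h).symm)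
  have hXX' : X * X' = N := by
    rw [hXdef, hX'def, okM_mul]
    apply okM_congr
    intro k
    have h1 := hP (-k)
    have h2 : ∀ h : PS A, pr h (-k) = pr k h := fun h => pr_neg_right h k
    simp only [h2, sub_neg_eq_add] at h1
    unfold Dsum
    rw [← h1]
    rw [← Equiv.sum_comp (Equiv.addRight k), sum_filter]
    have e : pr k k = 1 := by
      unfold pr
      exact ch_mul_neg _ _
    have e4 : ∀ h : PS A, ((pr k (h + k) : Bz) : ℂ) * ((if h + k ∈ T then (1 : ℂ) else 0) *
        (if -(k - (h + k)) ∈ T then 1 else 0)) =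
        if h ∈ T then (if h + k ∈ T then ((pr k h : Bz) : ℂ) else 0) else 0 := by
      intro h
      have e3 : -(k - (h + k)) = h := by abel
      have e5 : pr k (h + k) = pr k h := by rw [pr_add_right, e, mul_one]
      rw [e5]
      by_cases h1 : h ∈ T <;> by_cases h2 : h + k ∈ T <;> simp [h1, h2]
    refine (sum_congr rfl fun h _ => e4 h).trans ?_
    rw [sum_ite_mem, univ_inter]
  have hXX : X * X = 0 := by
    rw [hXdef, okM_mul]
    have : okM (fun _ : PS A => (0 : ℂ)) = 0 := by
      ext x z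
      simp [okM]
    rw [← this]
    apply okM_congr
    intro k
    refine Eq.trans ?_ (hX k)
    rw [sum_filter]
    have e4 : ∀ h : PS A, ((pr k h : Bz) : ℂ) * ((if h ∈ T then (1 : ℂ) else 0) *
        (if k - h ∈ T then 1 else 0)) =
        if h ∈ T then (if k - h ∈ T then ((pr k h : Bz) : ℂ) else 0) else 0 := by
      intro h
      by_cases h1 : h ∈ T <;> by_cases h2 : k - h ∈ T <;> simp [h1, h2]
    rw [sum_congr rfl fun h _ => e4 h, sum_ite_mem, univ_inter]
  -- the linear relation
  have hlin : (2 : ℂ) • O + N + N' + n • X + n • X' = n • J + n ^ 2 • (1 : Matrix A A ℂ) := by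
    rw [← hδ, hOdef, hNdef, hN'def, hXdef, hX'def, hJdef, ← okM_smul, ← okM_smul, ← okM_smul,
      ← okM_smul, ← okM_smul, ← okM_add, ← okM_add, ← okM_add, ← okM_add, ← okM_add]
    exact okM_congr fun k => ok_eps hT k
  -- algebra
  have hJXc : J * X = X' * J := hJX.trans hX'J.symm
  have hJX' : J * X' = X * J := by
    have h1 : J * (J * X) * J = J * (X' * J) * J := by rw [hJXc]
    have h2 : J * (J * X) * J = n ^ 2 • (X * J) := by
      rw [← mul_assoc, hJJ, Matrix.smul_mul, Matrix.smul_mul, one_mul]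
    have h3 : J * (X' * J) * J = n ^ 2 • (J * X') := by
      rw [mul_assoc, mul_assoc, hJJ, Matrix.mul_smul, Matrix.mul_smul, mul_one]
    have h4 : n ^ 2 • (X * J) = n ^ 2 • (J * X') := by rw [← h2, ← h3, h1]
    exact (smul_right_injective _ (pow_ne_zero 2 hn0) h4).symm
  have hNJ : N * J = n ^ 2 • X := by
    rw [← hXJ, mul_assoc, hJJ, Matrix.mul_smul, mul_one]
  have hN'J : N' * J = n ^ 2 • X' := by
    rw [← hX'J, mul_assoc, hJJ, Matrix.mul_smul, mul_one]
  have hJN : J * N = n ^ 2 • X' := by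
    rw [← hXJ, ← mul_assoc, hJXc, mul_assoc, hJJ, Matrix.mul_smul, mul_one]
  have hJN' : J * N' = n ^ 2 • X := by
    rw [← hX'J, ← mul_assoc, hJX', mul_assoc, hJJ, Matrix.mul_smul, mul_one]
  have hX'X : X' * X = N' := by
    have h1 : J * (X * X') * J = n ^ 2 • (X' * X) := by
      rw [← mul_assoc, hJXc, mul_assoc X', hJX', mul_assoc X', mul_assoc X, hJJ, Matrix.mul_smul,
        Matrix.mul_smul, mul_one]
    have h2 : J * (X * X') * J = n ^ 2 • N' := by
      rw [hXX', hJN, Matrix.smul_mul, hX'J]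
    exact smul_right_injective _ (pow_ne_zero 2 hn0) (h1.symm.trans h2)
  have hNN : N * N = n ^ 2 • N := by
    nth_rw 1 [← hXJ]
    rw [mul_assoc, hJN, Matrix.mul_smul, hXX']
  have hN'N' : N' * N' = n ^ 2 • N' := by
    nth_rw 1 [← hX'J]
    rw [mul_assoc, hJN', Matrix.mul_smul, hX'X]
  have hNN' : N * N' = 0 := by
    rw [← hXJ, ← hJX, mul_assoc, ← mul_assoc J J X, hJJ, Matrix.smul_mul, one_mul,
      Matrix.mul_smul, hXX, smul_zero]
  have hN'N : N' * N = 0 := by
    rw [← hXJ, ← hJX, mul_assoc, ← mul_assoc X X J, hXX, zero_mul, mul_zero]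
  have hO2 : (2 * n) • O = (n ^ 2 • (1 : Matrix A A ℂ) - N - N') * (J + n • 1) := by
    have e1 : (n ^ 2 • (1 : Matrix A A ℂ) - N - N') * (J + n • 1) =
        n • (n • J + n ^ 2 • (1 : Matrix A A ℂ) - n • X - n • X' - N - N') := by
      rw [mul_add, sub_mul, sub_mul, hNJ, hN'J, Matrix.smul_mul, one_mul, Matrix.mul_smul, mul_one]
      module
    rw [e1, ← hlin]
    module
  have hE : (n ^ 2 • (1 : Matrix A A ℂ) - N - N') * (n ^ 2 • (1 : Matrix A A ℂ) - N - N') =
      n ^ 2 • (n ^ 2 • (1 : Matrix A A ℂ) - N - N') := by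
    simp only [sub_mul, mul_sub, hNN, hN'N', hNN', hN'N, Matrix.smul_mul, Matrix.mul_smul,
      one_mul, mul_one]
    module
  have hF : (J + n • (1 : Matrix A A ℂ)) * (J + n • 1) = (2 * n) • (J + n • 1) := by
    simp only [add_mul, mul_add, hJJ, Matrix.smul_mul, Matrix.mul_smul, one_mul, mul_one]
    module
  have hcomm : (J + n • (1 : Matrix A A ℂ)) * (n ^ 2 • (1 : Matrix A A ℂ) - N - N') =
      (n ^ 2 • (1 : Matrix A A ℂ) - N - N') * (J + n • 1) := by
    simp only [sub_mul, mul_sub, add_mul, mul_add, hJN, hJN', hNJ, hN'J, Matrix.smul_mul,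
      Matrix.mul_smul, one_mul, mul_one]
    module
  have h2n : (2 * n) ≠ 0 := mul_ne_zero two_ne_zero hn0
  have hfin : (2 * n) • ((2 * n) • (O * O)) = (2 * n) • ((2 * n) • (n ^ 2 • O)) := by
    have e1 : (2 * n) • ((2 * n) • (O * O)) = ((2 * n) • O) * ((2 * n) • O) := by
      rw [Matrix.smul_mul, Matrix.mul_smul]
    rw [e1, hO2, mul_assoc, ← mul_assoc (J + n • (1 : Matrix A A ℂ)) _ (J + n • 1), hcomm,
      mul_assoc _ (J + n • (1 : Matrix A A ℂ)) (J + n • 1), hF, ← mul_assoc, hE]
    rw [Matrix.smul_mul, Matrix.mul_smul, ← hO2]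
    module
  exact smul_right_injective _ h2n (smul_right_injective _ h2n hfin)

/-- **No parabolic sets with the twisted relations in odd order greater than three.** -/
theorem para_odd {T : Finset (PS A)} (hT : IsPara T)
    (hP : ∀ s, ∑ h ∈ T.filter (fun h => h - s ∈ T), ((pr h s : Bz) : ℂ) =
      ∑ h ∈ T, ((pr h s : Bz) : ℂ))
    (hX : ∀ s, ∑ h ∈ T.filter (fun h => s - h ∈ T), ((pr s h : Bz) : ℂ) = 0)
    (hodd : Odd (Fintype.card A)) : Fintype.card A = 3 := by
  refine odd_kill_aux hodd (fun h => ((‖Dsum T h‖ : ℝ) : ℂ)) (ok_int_norm T) ?_ hT.self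
    (ok_idem hT hP hX) (t := T.card) ?_ hT.card
  · intro h
    rw [← ok_star_Dsum, norm_star]
  · have h4 : Dsum T 0 = (T.card : ℂ) := by
      unfold Dsum
      simp
    rw [h4, Complex.norm_natCast]
    push_cast
    ring

end operator

end Pool.Agent.SicAb
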