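import Pool.Agent.Lib.MP_d0f9e0_co.Ab.Sys2

/-!
# Pairings of the second rigidity identity
-/

namespace Pool.Agent.SicAb

open Finset

variable {A : Type} [AddCommGroup A] [Fintype A] [DecidableEq A]

section pairing

variable {R : Type*} [CommRing R] (ι : Bz →+* R)

/-- The operators `B_k = D_k ⊗ D_(-k)` multiply with the symplectic cocycle. -/
theorem bb_shift (x : A → R) (k h : PS A) (r s : A) :
    ι (ch k.2 (k.1 + r - s)) * bb ι x h (r + k.1) (s - k.1) =
      ι (pr k h) * bb ι x (k + h) r s := by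
  unfold bb pr
  have e1 : h.1 + (r + k.1) - (s - k.1) = (h.1 + k.1 + r - s) + k.1 := by abel
  have e2 : (k + h).1 + r - s = (h.1 + k.1 + r - s) := by
    rw [Prod.fst_add]
    abel
  have e3 : k.1 + r - s = (h.1 + k.1 + r - s) + (-h.1) := by abel
  have e4 : r + k.1 + h.1 = r + (k + h).1 := by
    rw [Prod.fst_add]
    abel
  have e5 : s - k.1 - h.1 = s - (k + h).1 := by
    rw [Prod.fst_add]
    abel
  rw [e1, e2, e3, e4, e5, Prod.snd_add, ch_add_left, ch_add, ch_add]
  simp only [map_mul]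
  ring

/-- Pairing of a product with `B_k`. -/
theorem pair_prod (u v p q : A → R) (k : PS A) :
    ∑ r, ∑ s, u r * v s * (ι (ch k.2 (k.1 + r - s)) * (p (r + k.1) * q (s - k.1))) =
      ov ι u p k * ov ι v q (-k) := by
  rw [ov_def, ov_neg]
  have e2 : ι (sqz (ch k.2 k.1)) * (ι (sqz (ch k.2 k.1)) * ι (ch k.2 (-k.1))) = 1 := by
    rw [← mul_assoc, ← map_mul, sqz_mul, ← map_mul, ch_mul_neg, map_one]
  have e3 : ι (sqz (ch k.2 k.1)) * (∑ r, u r * ι (ch k.2 r) * p (r + k.1)) *
      (ι (sqz (ch k.2 k.1)) * ι (ch k.2 (-k.1)) * ∑ s, v (s + k.1) * ι (ch k.2 (-s)) * q s) =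
      (∑ r, u r * ι (ch k.2 r) * p (r + k.1)) *
        ∑ s, v (s + k.1) * ι (ch k.2 (-s)) * q s := by
    linear_combination ((∑ r, u r * ι (ch k.2 r) * p (r + k.1)) *
        ∑ s, v (s + k.1) * ι (ch k.2 (-s)) * q s) * e2
  rw [e3, Finset.sum_mul_sum]
  apply Finset.sum_congr rfl
  intro r _
  rw [← Equiv.sum_comp (Equiv.addRight k.1)]
  apply Finset.sum_congr rfl
  intro s _
  simp only [Equiv.coe_addRight]
  have e4 : k.1 + r - (s + k.1) = r + -s := by abel
  have e5 : s + k.1 - k.1 = s := by abel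
  rw [e4, e5, ch_add, map_mul]
  ring

/-- Pairing of a vector identity of the shape of the second rigidity identity. -/
theorem pair_ident (c : R) (α : PS A → R) (x z : A → R)
    (h0 : ∀ r s : A, c * (z r * x s - x r * z s) + ∑ h : PS A, α h * bb ι x h r s = 0)
    (u v : A → R) (k : PS A) :
    c * (ov ι u z k * ov ι v x (-k) - ov ι u x k * ov ι v z (-k)) +
      ∑ h : PS A, α h * ι (pr k h) * (ov ι u x (k + h) * ov ι v x (-(k + h))) = 0 := by
  have e1 : ∀ h : PS A, ov ι u x (k + h) * ov ι v x (-(k + h)) =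
      ∑ r, ∑ s, u r * v s * bb ι x (k + h) r s := fun h => (pair_prod ι u v x x (k + h)).symm
  have e2 : ∑ r, ∑ s, u r * v s * (ι (ch k.2 (k.1 + r - s)) *
      (c * (z (r + k.1) * x (s - k.1) - x (r + k.1) * z (s - k.1)) +
        ∑ h : PS A, α h * bb ι x h (r + k.1) (s - k.1))) = 0 := by
    refine Finset.sum_eq_zero fun r _ => Finset.sum_eq_zero fun s _ => ?_
    rw [h0, mul_zero, mul_zero]
  rw [← pair_prod, ← pair_prod]
  simp only [e1]
  rw [← e2]
  simp only [mul_add, Finset.sum_add_distrib]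
  congr 1
  · rw [← Finset.sum_sub_distrib, Finset.mul_sum]
    apply Finset.sum_congr rfl
    intro r _
    rw [← Finset.sum_sub_distrib, Finset.mul_sum]
    apply Finset.sum_congr rfl
    intro s _
    ring
  · simp only [Finset.mul_sum]
    rw [Finset.sum_comm]
    apply Finset.sum_congr rfl
    intro r _
    rw [Finset.sum_comm]
    apply Finset.sum_congr rfl
    intro s _
    apply Finset.sum_congr rfl
    intro h _
    have e3 := bb_shift ι x k h r s
    linear_combination (-(u r * v s * α h)) * e3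

end pairing

end Pool.Agent.SicAb
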