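import Pool.Agent.Lib.MP_d0f9e0_co.Ab.Sys
import Pool.Agent.Lib.MP_d0f9e0_co.S1.ParaSq
import Pool.Agent.Lib.MP_d0f9e0_co.S1.ParaFour
import Pool.Agent.Lib.MP_d0f9e0_co.S1.ParaP

/-! # Parabolic sets of phase space: the order of the group

The arithmetic of `S1/` applied to the phase space of a finite abelian group `A` of order `n`:
if phase space has a parabolic set then `n < 4`, or `8 ∣ n`, or `n = 3 mod 16`, `n` is not
squarefree and every prime factor of `n` is `3 mod 4`. -/

set_option autoImplicit false
set_option linter.unusedSectionVars false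

namespace Pool.Agent.SicAb

open Finset

variable {A : Type} [AddCommGroup A] [Fintype A] [DecidableEq A]

/-- The pairing of phase space with values in `ℂ`. -/
noncomputable def wp (h k : PS A) : ℂ := ((pr k h : Bz) : ℂ)

theorem wp_symp : SicPara.Symp (P := PS A) (Fintype.card A) wp where
  add_left g g' h := by
    unfold wp
    rw [pr_add_right]
    rfl
  add_right g h h' := by
    unfold wp
    rw [pr_add_left]
    rfl
  swap g h := by
    unfold wp
    have := congrArg (fun z : Bz => (z : ℂ)) (pr_mul_swap h g)
    simpa using this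
  nondeg g hg := by
    by_contra hcon
    push Not at hcon
    have h1 : ∀ h : PS A, pr g h = 1 := by
      intro h
      have h2 := hcon (-h)
      unfold wp at h2
      apply Subtype.ext
      rw [← pr_neg_left]
      exact h2
    have h2 := sum_pr g
    rw [if_neg hg, Finset.sum_congr rfl (fun h _ => h1 h)] at h2
    simp only [Finset.sum_const, nsmul_eq_mul, mul_one, Finset.card_univ] at h2
    have h3 : (Fintype.card (PS A) : Bz) ≠ 0 := by
      exact_mod_cast Fintype.card_ne_zero
    exact h3 h2
  card := by
    rw [Fintype.card_prod, AddChar.card_eq, sq]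
  tors g := by
    refine Prod.ext ?_ ?_
    · exact card_nsmul_eq_zero
    · have h1 : Fintype.card (AddChar A ℂ) = Fintype.card A := AddChar.card_eq
      have h2 : Fintype.card (AddChar A ℂ) • g.2 = 0 := card_nsmul_eq_zero
      rw [h1] at h2
      exact h2

theorem D_eq_Dsum (T : Finset (PS A)) (k : PS A) : SicPara.D wp T k = Dsum T k := rfl

theorem IsPara.toPara {T : Finset (PS A)} (h : IsPara T) :
    SicPara.Para (Fintype.card A) wp T where
  disj := h.disj
  card := h.card
  van k hk := h.zero k hk
  par k hk hk' h0 := by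
    have h1 := h.real k h0 hk hk'
    rw [← D_eq_Dsum] at h1
    rw [(wp_symp (A := A)).D_neg]
    set z := SicPara.D wp T k
    have h2 : (Fintype.card A : ℂ) - z - (starRingEnd ℂ) z = ((2 * ‖z‖ : ℝ) : ℂ) := by
      apply Complex.ext
      · simp
        linarith
      · simp
    have h3 : 4 * z * (starRingEnd ℂ) z = ((4 * ‖z‖ ^ 2 : ℝ) : ℂ) := by
      rw [mul_assoc, Complex.mul_conj, Complex.normSq_eq_norm_sq]
      push_cast
      ring
    rw [h2, h3]
    push_cast
    ring

/-- The Lagrangian subgroup `A × 0`. -/
def lag (A : Type) [AddCommGroup A] : AddSubgroup (PS A) :=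
  AddSubgroup.prod ⊤ ⊥

theorem mem_lag {k : PS A} : k ∈ lag A ↔ k.2 = 0 := by
  unfold lag
  rw [AddSubgroup.mem_prod]
  simp

theorem lag_perp (h : PS A) : (∀ k ∈ lag A, wp h k = 1) ↔ h ∈ lag A := by
  rw [mem_lag]
  constructor
  · intro h1
    by_contra h2
    have h3 : ∀ b : A, h.2 b = 1 := by
      intro b
      have h4 := h1 (b, 0) (mem_lag.mpr rfl)
      unfold wp pr at h4
      simpa [ch_val] using h4
    apply h2
    ext b
    rw [h3 b]
    rfl
  · intro h1 k hk
    rw [mem_lag] at hk
    unfold wp pr
    rw [h1, hk]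
    simp

theorem card_lag [DecidablePred (· ∈ lag A)] :
    (univ.filter (· ∈ lag A)).card = Fintype.card A := by
  symm
  rw [← Finset.card_univ]
  refine Finset.card_bij (fun a _ => ((a, 0) : PS A)) ?_ ?_ ?_
  · intro a _
    exact Finset.mem_filter.mpr ⟨Finset.mem_univ _, mem_lag.mpr rfl⟩
  · intro a _ b _ hab
    exact congrArg Prod.fst hab
  · intro k hk
    rw [Finset.mem_filter, mem_lag] at hk
    exact ⟨k.1, Finset.mem_univ _, Prod.ext rfl hk.2.symm⟩

/-- What parabolic sets leave: `n < 4`, or `8 ∣ n`, or `n = 3 mod 16`, not squarefree, with all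
prime factors `3 mod 4`. -/
theorem para_class {T : Finset (PS A)} (h : IsPara T) :
    Fintype.card A = 3 ∨ 8 ∣ Fintype.card A ∨
      (Fintype.card A % 16 = 3 ∧ ¬ Squarefree (Fintype.card A) ∧
        ∀ p : ℕ, p.Prime → p ∣ Fintype.card A → p % 4 = 3) := by
  classical
  have hT := h.toPara
  have hw := wp_symp (A := A)
  have hcard := h.card
  have hpos := hw.pos
  rcases Nat.even_or_odd (Fintype.card A) with he | ho
  · right; left
    obtain ⟨m, hm⟩ := he
    have h1 : Even m := by
      by_contra h2
      rw [Nat.not_even_iff_odd] at h2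
      obtain ⟨j, hj⟩ := h2
      have h3 : 4 * T.card = (4 * j + 2) * (4 * j + 3) := by
        rw [hcard, hm, hj]
        ring
      have h4 : (4 * j + 2) * (4 * j + 3) = 4 * (4 * j ^ 2 + 5 * j + 1) + 2 := by ring
      omega
    obtain ⟨e, he⟩ := h1
    rcases Nat.even_or_odd e with he' | ho'
    · obtain ⟨f, hf⟩ := he'
      exact ⟨f, by omega⟩
    · exact (SicPara.Para.not_four hw hT (e := e) (by omega) ho').elim
  · have h16 := SicPara.Para.odd_three_mod_sixteen hw hT ho (lag A) card_lag lag_perp
    by_cases h3 : Fintype.card A = 3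
    · left
      exact h3
    · right; right
      refine ⟨h16, ?_, fun p hp hpn => SicPara.Para.prime_mod_four hw hT ho hp hpn⟩
      intro hsq
      have := SicPara.Para.squarefree_le hw hT ho hsq
      omega

theorem para_card {T : Finset (PS A)} (h : IsPara T) :
    Fintype.card A < 4 ∨ 8 ∣ Fintype.card A ∨ Fintype.card A % 16 = 3 := by
  rcases para_class h with h | h | h
  · left; omega
  · right; left; exact h
  · right; right; exact h.1

end Pool.Agent.SicAb
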