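import Pool.Agent.Lib.MP_d0f9e0_co.Ab.Sys

/-!
# Rigidity of real solutions

At a real fiducial (`y = star x`) over a field with a positive definite star operation every
tangent vector of the scheme of solutions satisfies the rigidity identity.
-/

namespace Pool.Agent.SicAb

open Finset

variable {A : Type} [AddCommGroup A] [Fintype A] [DecidableEq A]

section star

variable {K : Type*} [Field K] [StarRing K]

theorem cast_ne_zero_of_pos (hpos : PosStar K) {n : ℕ} (hn : n ≠ 0) : (n : K) ≠ 0 := by
  intro h0
  have h1 := hpos ℕ (Finset.range n) (fun _ => 1) (by simp [h0])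
  exact one_ne_zero (h1 0 (Finset.mem_range.mpr (Nat.pos_of_ne_zero hn)))

theorem star_mul_of_pow (hpos : PosStar K) (ι : Bz →+* K) {z : Bz} {m : ℕ} (hm : m ≠ 0)
    (hz : z ^ m = 1) : star (ι z) * ι z = 1 := by
  by_contra hu
  have h1 : (star (ι z) * ι z) ^ m = 1 := by
    rw [mul_pow, ← star_pow, ← map_pow, hz, map_one, star_one, one_mul]
  have h2 : (∑ i ∈ Finset.range m, (star (ι z) * ι z) ^ i) * (star (ι z) * ι z - 1) = 0 := by
    rw [geom_sum_mul, h1, sub_self]
  have h3 : ∑ i ∈ Finset.range m, (star (ι z) * ι z) ^ i = 0 :=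
    (mul_eq_zero.mp h2).resolve_right (sub_ne_zero.mpr hu)
  have h4 : ∑ i ∈ Finset.range m, star ((ι z) ^ i) * (ι z) ^ i = 0 := by
    rw [← h3]
    exact Finset.sum_congr rfl fun i _ => by rw [mul_pow, star_pow]
  have h5 := hpos ℕ (Finset.range m) (fun i => (ι z) ^ i) h4 0
    (Finset.mem_range.mpr (Nat.pos_of_ne_zero hm))
  simp at h5

theorem ch_pow_card (χ : AddChar A ℂ) (x : A) : (ch χ x) ^ Fintype.card A = 1 := by
  apply Subtype.ext
  have h1 : (χ x) ^ (Fintype.card A) = 1 := by
    rw [← AddChar.map_nsmul_eq_pow, card_nsmul_eq_zero, AddChar.map_zero_eq_one]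
  rw [SubmonoidClass.coe_pow]
  exact h1

theorem star_ch (hpos : PosStar K) (ι : Bz →+* K) (χ : AddChar A ℂ) (x : A) :
    star (ι (ch χ x)) = ι (ch χ (-x)) := by
  have h1 := star_mul_of_pow hpos ι (Fintype.card_ne_zero (α := A)) (ch_pow_card χ x)
  have h2 : ι (ch χ x) * ι (ch χ (-x)) = 1 := by rw [← map_mul, ch_mul_neg, map_one]
  calc star (ι (ch χ x)) = star (ι (ch χ x)) * (ι (ch χ x) * ι (ch χ (-x))) := by
        rw [h2, mul_one]
    _ = (star (ι (ch χ x)) * ι (ch χ x)) * ι (ch χ (-x)) := by ring
    _ = ι (ch χ (-x)) := by rw [h1, one_mul]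

theorem star_sqz (hpos : PosStar K) (ι : Bz →+* K) (χ : AddChar A ℂ) (x : A) :
    star (ι (sqz (ch χ x))) = ι (sqz (ch χ x)) * ι (ch χ (-x)) := by
  have h0 : (sqz (ch χ x)) ^ (2 * Fintype.card A) = 1 := by
    rw [pow_mul, sq, sqz_mul, ch_pow_card]
  have hm : 2 * Fintype.card A ≠ 0 := by
    have := Fintype.card_ne_zero (α := A)
    omega
  have h1 := star_mul_of_pow hpos ι hm h0
  have h2 : ι (sqz (ch χ x)) * (ι (sqz (ch χ x)) * ι (ch χ (-x))) = 1 := by
    rw [← mul_assoc, ← map_mul, sqz_mul, ← map_mul, ch_mul_neg, map_one]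
  calc star (ι (sqz (ch χ x))) =
        star (ι (sqz (ch χ x))) * (ι (sqz (ch χ x)) * (ι (sqz (ch χ x)) * ι (ch χ (-x)))) := by
        rw [h2, mul_one]
    _ = (star (ι (sqz (ch χ x))) * ι (sqz (ch χ x))) * (ι (sqz (ch χ x)) * ι (ch χ (-x))) := by
        ring
    _ = ι (sqz (ch χ x)) * ι (ch χ (-x)) := by rw [h1, one_mul]

/-- The displacement at `-h` is the adjoint of the displacement at `h`. -/
theorem star_ov (hpos : PosStar K) (ι : Bz →+* K) (y x : A → K) (h : PS A) :
    star (ov ι y x h) = ov ι (fun r => star (x r)) (fun r => star (y r)) (-h) := by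
  rw [ov_neg, ov_def, star_mul', star_sum, star_sqz hpos]
  congr 1
  apply Finset.sum_congr rfl
  intro r _
  rw [star_mul', star_mul', star_ch hpos]
  ring

end star

section core

variable {K : Type*} [Field K] [StarRing K] (hpos : PosStar K) (ι : Bz →+* K)

theorem eps_ne_zero (hpos : PosStar K) (h : PS A) : eps A K h ≠ 0 := by
  unfold eps
  split_ifs
  · have := cast_ne_zero_of_pos hpos (Nat.succ_ne_zero (Fintype.card A))
    push_cast at this
    exact this
  · exact one_ne_zero

theorem ov_ne_zero (hpos : PosStar K) {y x : A → K} (hx : IsSol ι y x) (h : PS A) :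
    ov ι y x h ≠ 0 := by
  intro h0
  have h1 := hx.mul h
  rw [h0, zero_mul, mul_zero] at h1
  exact eps_ne_zero hpos h h1.symm

/-- Real tangent vectors in the gauge `<x, x'> = 0`. -/
theorem rigid_core (hpos : PosStar K) {x : A → K} (hx : IsSol ι (fun r => star (x r)) x)
    (x' : A → K) (h0 : ov ι (fun r => star (x r)) x' 0 = 0)
    (ht : Tangent ι (fun r => star (x r)) x (fun r => star (x' r)) x') (h : PS A) :
    ov ι (fun r => star (x r)) x' h * ov ι (fun r => star (x r)) x (-h) +
      ov ι (fun r => star (x r)) x' (-h) * ov ι (fun r => star (x r)) x h = 0 := by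
  set y : A → K := fun r => star (x r) with hy
  set f : PS A → K := fun h => ov ι y x h with hf
  have hf0 : ∀ h, f h ≠ 0 := fun h => ov_ne_zero ι hpos hx h
  set N : K := (Fintype.card A : K) with hN
  have hN0 : N ≠ 0 := cast_ne_zero_of_pos hpos Fintype.card_ne_zero
  have hN1 : N + 1 ≠ 0 := by
    have := cast_ne_zero_of_pos hpos (Nat.succ_ne_zero (Fintype.card A))
    push_cast at this
    exact this
  set a : PS A → K := fun h => ov ι y x' h / f h with ha
  have ha1 : ∀ h, ov ι y x' h = a h * f h := fun h => (div_mul_cancel₀ _ (hf0 h)).symm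
  have ha0 : a 0 = 0 := by
    simp only [ha, h0, zero_div]
  have hff : ∀ h, f h * f (-h) = eps A K h / (N + 1) := by
    intro h
    rw [eq_div_iff hN1, mul_comm]
    exact hx.mul h
  have haeps : ∀ h, a h * eps A K h = a h := by
    intro h
    by_cases h1 : h = 0
    · rw [h1, ha0, zero_mul]
    · rw [eps, if_neg h1, mul_one]
  -- transform of `a`
  have hGa : ∀ k, G ι a k = N * a (-k) := by
    intro k
    have h1 := duality ι y x' y x k
    have h2 : (fun h => ov ι y x' h * ov ι y x (-h)) = fun h => (N + 1)⁻¹ * a h := by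
      funext h
      have h3 := hff h
      have h4 := haeps h
      rw [ha1 h]
      change a h * f h * f (-h) = _
      rw [mul_assoc, h3, ← mul_div_assoc, h4, div_eq_inv_mul]
    rw [h2, G_smul] at h1
    have h5 : ov ι y x k * ov ι y x' (-k) = (N + 1)⁻¹ * a (-k) := by
      have h3 := hff k
      have h4 := haeps (-k)
      have h6 : eps A K (-k) = eps A K k := by
        unfold eps
        simp only [neg_eq_zero]
      rw [h6] at h4
      rw [ha1 (-k)]
      change f k * (a (-k) * f (-k)) = _
      calc f k * (a (-k) * f (-k)) = a (-k) * (f k * f (-k)) := by ring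
        _ = (N + 1)⁻¹ * (a (-k) * eps A K k) := by rw [h3]; ring
        _ = _ := by rw [h4]
    rw [h5] at h1
    have h7 : (N + 1)⁻¹ ≠ 0 := inv_ne_zero hN1
    apply mul_left_cancel₀ h7
    rw [h1]
    ring
  -- second duality
  have hS1 : ∑ h, a h * a (-h) = 0 := by
    have h1 := duality ι y x' y x' 0
    rw [G_zero_apply, h0, zero_mul, mul_zero] at h1
    have h2 : ∀ h, ov ι y x' h * ov ι y x' (-h) = (N + 1)⁻¹ * (a h * a (-h)) := by
      intro h
      rw [ha1 h, ha1 (-h)]
      calc a h * f h * (a (-h) * f (-h)) = a h * a (-h) * (f h * f (-h)) := by ring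
        _ = (N + 1)⁻¹ * ((a h * eps A K h) * a (-h)) := by rw [hff h]; ring
        _ = _ := by rw [haeps h]
    rw [Finset.sum_congr rfl fun h _ => h2 h, ← Finset.mul_sum] at h1
    exact (mul_eq_zero.mp h1).resolve_left (inv_ne_zero hN1)
  -- Parseval
  have hS2 : ∑ h, a h * a h = 0 := by
    have h1 := parseval ι a a
    have h2 : ∀ k, G ι a k * G ι a (-k) = N ^ 2 * (a k * a (-k)) := by
      intro k
      rw [hGa, hGa, neg_neg]
      ring
    rw [Finset.sum_congr rfl fun k _ => h2 k, ← Finset.mul_sum, hS1, mul_zero] at h1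
    exact (mul_eq_zero.mp h1.symm).resolve_left (pow_ne_zero 2 hN0)
  have hS3 : ∑ h, a (-h) * a (-h) = 0 := by
    rw [← hS2]
    exact Fintype.sum_equiv (Equiv.neg (PS A)) _ _ (fun _ => rfl)
  -- conjugation
  have hsf : ∀ h, star (f h) = f (-h) := by
    intro h
    change star (ov ι y x h) = ov ι y x (-h)
    rw [star_ov hpos]
    congr 1
    funext r
    rw [hy]
    exact star_star (x r)
  have hsa : ∀ h, star (a h) = ov ι (fun r => star (x' r)) x (-h) / f (-h) := by
    intro h
    simp only [ha]
    rw [star_div₀, hsf, star_ov hpos]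
    congr 2
    funext r
    rw [hy]
    exact star_star (x r)
  have he : ∀ h, star (a h + a (-h)) = -(a h + a (-h)) := by
    intro h
    have h1 := ht h
    change (ov ι (fun r => star (x' r)) x h + ov ι y x' h) * f (-h) +
      f h * (ov ι (fun r => star (x' r)) x (-h) + ov ι y x' (-h)) = 0 at h1
    have h2 := hsa h
    have h3 := hsa (-h)
    rw [neg_neg] at h3
    rw [eq_div_iff (hf0 _)] at h2 h3
    rw [ha1 h, ha1 (-h), ← h2, ← h3] at h1
    have h4 : (f h * f (-h)) * (star (a h) + star (a (-h)) + (a h + a (-h))) = 0 := by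
      rw [← h1]
      ring
    have h5 := (mul_eq_zero.mp h4).resolve_left (mul_ne_zero (hf0 h) (hf0 (-h)))
    rw [star_add]
    exact eq_neg_of_add_eq_zero_left h5
  have hS4 : ∑ h : PS A, star (a h + a (-h)) * (a h + a (-h)) = 0 := by
    have h1 : ∀ h : PS A, star (a h + a (-h)) * (a h + a (-h)) =
        -(a h * a h) - 2 * (a h * a (-h)) - a (-h) * a (-h) := by
      intro h
      rw [he h]
      ring
    rw [Finset.sum_congr rfl fun h _ => h1 h, Finset.sum_sub_distrib, Finset.sum_sub_distrib,
      Finset.sum_neg_distrib, ← Finset.mul_sum, hS1, hS2, hS3]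
    ring
  have hz := hpos (PS A) Finset.univ (fun h => a h + a (-h)) hS4 h (Finset.mem_univ h)
  have hz' : a h + a (-h) = 0 := hz
  rw [ha1 h, ha1 (-h)]
  change a h * f h * f (-h) + a (-h) * f (-h) * f h = 0
  linear_combination (f h * f (-h)) * hz'

theorem tangent_add {R : Type*} [CommRing R] {ι : Bz →+* R} {y x y₁ x₁ y₂ x₂ : A → R}
    (h₁ : Tangent ι y x y₁ x₁) (h₂ : Tangent ι y x y₂ x₂) :
    Tangent ι y x (fun r => y₁ r + y₂ r) (fun r => x₁ r + x₂ r) := by
  intro h
  rw [ov_add_left, ov_add_left, ov_add_right, ov_add_right]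
  linear_combination h₁ h + h₂ h

theorem tangent_smul {R : Type*} [CommRing R] {ι : Bz →+* R} {y x y₁ x₁ : A → R} (c : R)
    (h₁ : Tangent ι y x y₁ x₁) :
    Tangent ι y x (fun r => c * y₁ r) (fun r => c * x₁ r) := by
  intro h
  rw [ov_smul_left, ov_smul_left, ov_smul_right, ov_smul_right]
  linear_combination c * h₁ h

/-- Rigidity for real tangent vectors. -/
theorem rigid_realTangent (hpos : PosStar K) {x : A → K}
    (hx : IsSol ι (fun r => star (x r)) x) (u : A → K)
    (ht : Tangent ι (fun r => star (x r)) x (fun r => star (u r)) u) :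
    StarId ι (fun r => star (x r)) x u := by
  have h2 : (2 : K) ≠ 0 := by
    have := cast_ne_zero_of_pos hpos (n := 2) (by norm_num)
    exact_mod_cast this
  set c : K := ov ι (fun r => star (x r)) u 0 with hc
  have hsc : star c = ov ι (fun r => star (u r)) x 0 := by
    rw [hc, star_ov hpos, neg_zero]
    congr 1
    funext r
    exact star_star (x r)
  have hcc : star c + c = 0 := by
    have h1 := ht 0
    rw [neg_zero, hx.zero, ← hsc, ← hc] at h1
    have h3 : 2 * (star c + c) = 0 := by linear_combination h1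
    exact (mul_eq_zero.mp h3).resolve_left h2
  -- subtract the gauge part
  have hg : Tangent ι (fun r => star (x r)) x (fun r => -star c * star (x r))
      (fun r => -c * x r) := by
    intro h
    rw [ov_smul_left, ov_smul_left, ov_smul_right, ov_smul_right]
    linear_combination (-2 * ov ι (fun r => star (x r)) x h *
      ov ι (fun r => star (x r)) x (-h)) * hcc
  have ht2 := tangent_add ht hg
  have ht3 : Tangent ι (fun r => star (x r)) x (fun r => star (u r + -c * x r))
      (fun r => u r + -c * x r) := by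
    convert ht2 using 2 with r
    rw [star_add, star_mul', star_neg]
  have h0 : ov ι (fun r => star (x r)) (fun r => u r + -c * x r) 0 = 0 := by
    rw [ov_add_right, ov_smul_right, hx.zero, ← hc]
    ring
  intro h
  have h4 := rigid_core ι hpos hx _ h0 ht3 h
  rw [ov_add_right, ov_add_right, ov_smul_right, ov_smul_right] at h4
  rw [← hc]
  linear_combination h4

/-- **Rigidity of real solutions.** -/
theorem rigid_real (hpos : PosStar K) {x : A → K}
    (hx : IsSol ι (fun r => star (x r)) x) :
    Rigid ι (fun r => star (x r)) x := by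
  intro y' x' ht
  have h2 : (2 : K) ≠ 0 := by
    have := cast_ne_zero_of_pos hpos (n := 2) (by norm_num)
    exact_mod_cast this
  -- the conjugate tangent vector
  have hts : Tangent ι (fun r => star (x r)) x (fun r => star (x' r)) (fun r => star (y' r)) := by
    intro h
    have h1 := congrArg star (ht h)
    have hxx : (fun r => star (star (x r))) = x := funext fun r => star_star (x r)
    rw [star_add, star_mul', star_mul', star_add, star_add, star_ov hpos, star_ov hpos,
      star_ov hpos, star_ov hpos, star_ov hpos, star_ov hpos, star_zero, neg_neg, hxx] at h1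
    linear_combination h1
  -- the imaginary unit
  obtain ⟨I₀, hI₀⟩ := exists_sq (-1)
  set I : K := ι I₀ with hI
  have hII : I * I = -1 := by rw [hI, ← map_mul, hI₀, map_neg, map_one]
  have hsI : star I = -I := by
    have h3 : I₀ ^ 4 = 1 := by
      have : I₀ ^ 4 = (I₀ * I₀) * (I₀ * I₀) := by ring
      rw [this, hI₀]
      ring
    have h4 := star_mul_of_pow hpos ι (by norm_num) h3
    rw [← hI] at h4
    calc star I = -(star I * (I * I)) := by rw [hII]; ring
      _ = -((star I * I) * I) := by ring
      _ = -I := by rw [h4, one_mul]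
  -- real and imaginary parts
  have hu : Tangent ι (fun r => star (x r)) x (fun r => star (x' r + star (y' r)))
      (fun r => x' r + star (y' r)) := by
    have h5 := tangent_add ht hts
    convert h5 using 2 with r
    rw [star_add, star_star, add_comm]
  have hv : Tangent ι (fun r => star (x r)) x (fun r => star (I * x' r + -I * star (y' r)))
      (fun r => I * x' r + -I * star (y' r)) := by
    have h5 := tangent_add (tangent_smul I ht) (tangent_smul (-I) hts)
    convert h5 using 2 with r
    rw [star_add, star_mul', star_mul', star_star, star_neg, hsI]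
    ring
  have hU := rigid_realTangent ι hpos hx _ hu
  have hV := rigid_realTangent ι hpos hx _ hv
  intro h
  have hU1 := hU h
  have hV1 := hV h
  rw [ov_add_right, ov_add_right, ov_add_right] at hU1 hV1
  rw [ov_smul_right, ov_smul_right, ov_smul_right, ov_smul_right, ov_smul_right,
    ov_smul_right] at hV1
  apply mul_left_cancel₀ h2
  linear_combination hU1 - I * hV1 + (ov ι (fun r => star (x r)) x' h *
    ov ι (fun r => star (x r)) x (-h) + ov ι (fun r => star (x r)) x' (-h) *
    ov ι (fun r => star (x r)) x h - 2 * ov ι (fun r => star (x r)) x' 0 *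
      (ov ι (fun r => star (x r)) x h * ov ι (fun r => star (x r)) x (-h))) * hII -
    (ov ι (fun r => star (x r)) (fun r => star (y' r)) h *
    ov ι (fun r => star (x r)) x (-h) + ov ι (fun r => star (x r)) (fun r => star (y' r)) (-h) *
    ov ι (fun r => star (x r)) x h - 2 * ov ι (fun r => star (x r)) (fun r => star (y' r)) 0 *
      (ov ι (fun r => star (x r)) x h * ov ι (fun r => star (x r)) x (-h))) * hII

end core

end Pool.Agent.SicAb
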