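import Pool.Agent.Lib.MP_d0f9e0_co.Ab.Defs

/-!
# Interfaces

The statements passed between the parts of the proof: rigidity, power series system,
coefficient system, parabolic sets.
-/

namespace Pool.Agent.SicAb

open Finset

variable {A : Type} [AddCommGroup A] [Fintype A] [DecidableEq A]

/-- `(y', x')` is a tangent vector of the scheme of solutions at `(y, x)`. -/
def Tangent {R : Type*} [CommRing R] (ι : Bz →+* R) (y x y' x' : A → R) : Prop :=
  ∀ h : PS A, (ov ι y' x h + ov ι y x' h) * ov ι y x (-h) +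
    ov ι y x h * (ov ι y' x (-h) + ov ι y x' (-h)) = 0

/-- The rigidity identity for the direction `x'`. -/
def StarId {R : Type*} [CommRing R] (ι : Bz →+* R) (y x x' : A → R) : Prop :=
  ∀ h : PS A, ov ι y x' h * ov ι y x (-h) + ov ι y x' (-h) * ov ι y x h =
    2 * ov ι y x' 0 * (ov ι y x h * ov ι y x (-h))

/-- All tangent vectors satisfy the rigidity identity. -/
def Rigid {R : Type*} [CommRing R] (ι : Bz →+* R) (y x : A → R) : Prop :=
  ∀ y' x' : A → R, Tangent ι y x y' x' → StarId ι y x x'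

/-- The star operation of `K` is positive definite. -/
def PosStar (K : Type*) [Field K] [StarRing K] : Prop :=
  ∀ (α : Type) (s : Finset α) (z : α → K), ∑ i ∈ s, star (z i) * z i = 0 → ∀ i ∈ s, z i = 0

/-- The system satisfied by a branch at infinity, in power series: `y`, `x` are multiplied by
powers of the variable, `<y, x> = X ^ M`. -/
structure PSys {k : Type*} [Field k] (ι : Bz →+* k) (M : ℕ) (y x : A → PowerSeries k) :
    Prop where
  zero : ov ((PowerSeries.C (R := k)).comp ι) y x 0 = PowerSeries.X ^ M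
  mul : ∀ h, ((Fintype.card A : PowerSeries k) + 1) *
    (ov ((PowerSeries.C (R := k)).comp ι) y x h * ov ((PowerSeries.C (R := k)).comp ι) y x (-h)) =
      eps A (PowerSeries k) h * PowerSeries.X ^ (2 * M)
  star : ∀ h, (ov ((PowerSeries.C (R := k)).comp ι) y
        (fun r => PowerSeries.X * PowerSeries.derivative k (x r)) h *
      ov ((PowerSeries.C (R := k)).comp ι) y x (-h) +
      ov ((PowerSeries.C (R := k)).comp ι) y
        (fun r => PowerSeries.X * PowerSeries.derivative k (x r)) (-h) *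
      ov ((PowerSeries.C (R := k)).comp ι) y x h) * PowerSeries.X ^ M =
    2 * ov ((PowerSeries.C (R := k)).comp ι) y
        (fun r => PowerSeries.X * PowerSeries.derivative k (x r)) 0 *
      (ov ((PowerSeries.C (R := k)).comp ι) y x h * ov ((PowerSeries.C (R := k)).comp ι) y x (-h))
  pole : ∃ h, (ov ((PowerSeries.C (R := k)).comp ι) y x h).order ≠ M

/-- The coefficient system: `Y i`, `X j` are the coefficients of `y`, `x`, `m h` is the order of
the overlap at `h`, `c h` its leading coefficient. -/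
structure CSys {k : Type*} [Field k] (ι : Bz →+* k) (M : ℕ) (m : PS A → ℕ) (c : PS A → k)
    (Y X : ℕ → A → k) : Prop where
  m_zero : m 0 = M
  m_neg : ∀ h, m h + m (-h) = 2 * M
  c_zero : c 0 = 1
  c_mul : ∀ h, ((Fintype.card A : k) + 1) * (c h * c (-h)) = eps A k h
  low : ∀ i j h, i + j < m h → ov ι (Y i) (X j) h = 0
  lead : ∀ h, ∑ p ∈ antidiagonal (m h), ov ι (Y p.1) (X p.2) h = c h
  star : ∀ h, (∑ p ∈ antidiagonal (m h), (p.2 : k) * ov ι (Y p.1) (X p.2) h) * c (-h) +
    (∑ p ∈ antidiagonal (m (-h)), (p.2 : k) * ov ι (Y p.1) (X p.2) (-h)) * c h =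
      2 * (∑ p ∈ antidiagonal M, (p.2 : k) * ov ι (Y p.1) (X p.2) 0) * (c h * c (-h))
  pole : ∃ h, m h ≠ M

/-- Where the order is not `M` exactly one pair of levels contributes. -/
def Mono {k : Type*} [Field k] (ι : Bz →+* k) (M : ℕ) (m : PS A → ℕ) (c : PS A → k)
    (Y X : ℕ → A → k) : Prop :=
  ∀ h, m h ≠ M → ∃ i j, i + j = m h ∧ ov ι (Y i) (X j) h = c h ∧
    ∀ i' j', i' + j' = m h → (i', j') ≠ (i, j) → ov ι (Y i') (X j') h = 0

/-- The character sum of `T`. -/
noncomputable def Dsum (T : Finset (PS A)) (k : PS A) : ℂ := ∑ h ∈ T, ((pr k h : Bz) : ℂ)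

/-- Parabolic sets of phase space. -/
structure IsPara (T : Finset (PS A)) : Prop where
  card : 4 * T.card = Fintype.card A * (Fintype.card A + 1)
  disj : ∀ k ∈ T, -k ∉ T
  zero : ∀ k ∈ T, Dsum T k = 0
  real : ∀ k, k ≠ 0 → k ∉ T → -k ∉ T → 2 * (‖Dsum T k‖ + (Dsum T k).re) = Fintype.card A
  self : ∀ k, ∑ h, ((pr k h : Bz) : ℂ) * (‖Dsum T h‖ : ℂ) = (Fintype.card A : ℂ) * ‖Dsum T k‖

end Pool.Agent.SicAb
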