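import Pool.Agent.Lib.MP_d0f9e0_co.Ab.Sys

/-!
# Interfaces of the second rigidity identity

At a real solution `x` every tangent vector `x'` satisfies, besides the rigidity identity, the
vector identity `n (x' ⊗ x - x ⊗ x') + ∑ α(h) D_h x ⊗ D_(-h) x = 0`.
-/

namespace Pool.Agent.SicAb

open Finset

variable {A : Type} [AddCommGroup A] [Fintype A] [DecidableEq A]

/-- The entry `(r, s)` of `D_h x ⊗ D_(-h) x`. -/
noncomputable def bb {R : Type*} [CommRing R] (ι : Bz →+* R) (x : A → R) (h : PS A) (r s : A) :
    R :=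
  ι (ch h.2 (h.1 + r - s)) * (x (r + h.1) * x (s - h.1))

/-- The function `α`: `<y, D_h x'> / <y, D_h x>` in the gauge `<y, x'> = 0`. -/
noncomputable def alp {R : Type*} [CommRing R] (ι : Bz →+* R) (y x x' : A → R) (h : PS A) : R :=
  ((Fintype.card A : R) + 1) *
    ((ov ι y x' h - ov ι y x' 0 * ov ι y x h) * ov ι y x (-h))

/-- The second rigidity identity for the direction `x'`. -/
def StarTwo {R : Type*} [CommRing R] (ι : Bz →+* R) (y x x' : A → R) : Prop :=
  ∀ r s : A, (Fintype.card A : R) * (x' r * x s - x r * x' s) +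
    ∑ h : PS A, alp ι y x x' h * bb ι x h r s = 0

/-- All tangent vectors satisfy the second rigidity identity. -/
def RigidTwo {R : Type*} [CommRing R] (ι : Bz →+* R) (y x : A → R) : Prop :=
  ∀ y' x' : A → R, Tangent ι y x y' x' → StarTwo ι y x x'

/-- The second rigidity identity for a branch in power series. -/
def PStarTwo {k : Type*} [Field k] (ι : Bz →+* k) (M : ℕ) (y x : A → PowerSeries k) : Prop :=
  ∀ r s : A, (Fintype.card A : PowerSeries k) * PowerSeries.X ^ (3 * M) *
      (PowerSeries.X * PowerSeries.derivative k (x r) * x s -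
        x r * (PowerSeries.X * PowerSeries.derivative k (x s))) +
    ∑ h : PS A, ((Fintype.card A : PowerSeries k) + 1) *
      ((ov ((PowerSeries.C (R := k)).comp ι) y
          (fun r => PowerSeries.X * PowerSeries.derivative k (x r)) h * PowerSeries.X ^ M -
        ov ((PowerSeries.C (R := k)).comp ι) y
          (fun r => PowerSeries.X * PowerSeries.derivative k (x r)) 0 *
          ov ((PowerSeries.C (R := k)).comp ι) y x h) *
        ov ((PowerSeries.C (R := k)).comp ι) y x (-h)) *
      bb ((PowerSeries.C (R := k)).comp ι) x h r s = 0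

/-- The contribution of the level `a` to the leading coefficient at `h`. -/
noncomputable def lvY {k : Type*} [Field k] (ι : Bz →+* k) (m : PS A → ℕ) (Y X : ℕ → A → k)
    (a : ℕ) (h : PS A) : k :=
  if a ≤ m h then ov ι (Y a) (X (m h - a)) h else 0

/-- The leading coefficient of `<y, D_h x'>`. -/
noncomputable def mom {k : Type*} [Field k] (ι : Bz →+* k) (m : PS A → ℕ) (Y X : ℕ → A → k)
    (h : PS A) : k :=
  ∑ p ∈ antidiagonal (m h), (p.2 : k) * ov ι (Y p.1) (X p.2) h

/-- The second rigidity identity in leading coefficients. -/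
def CStarTwo {k : Type*} [Field k] (ι : Bz →+* k) (m : PS A → ℕ) (c : PS A → k)
    (Y X : ℕ → A → k) : Prop :=
  ∀ (a b : ℕ) (x : PS A),
    (Fintype.card A : k) * (((m x : k) - a) - ((m (-x) : k) - b)) *
        (lvY ι m Y X a x * lvY ι m Y X b (-x)) +
      ∑ h : PS A, (((Fintype.card A : k) + 1) * (mom ι m Y X h * c (-h)) -
          mom ι m Y X 0 * eps A k h) * ι (pr x h) *
        (lvY ι m Y X a (x + h) * lvY ι m Y X b (-(x + h))) = 0

/-- Parabolic sets with the projection property. -/
structure IsParaTwo (T : Finset (PS A)) : Prop extends IsPara T where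
  proj : ∀ s : PS A, ∑ h ∈ T.filter (fun h => h - s ∈ T), ((pr h s : Bz) : ℂ) =
    ∑ h ∈ T, ((pr h s : Bz) : ℂ)

end Pool.Agent.SicAb
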